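import Pool.Agent.H.MP_21aec1_al.Defs

set_option autoImplicit false

namespace Pool.Agent.H.MP_21aec1_al.Hy

/-- An integer valued geodesic metric (for example the word metric of a Cayley graph). -/
structure GMet (X : Type) where
  d : X → X → ℤ
  nonneg : ∀ x y, 0 ≤ d x y
  self : ∀ x, d x x = 0
  eq_of : ∀ x y, d x y = 0 → x = y
  symm : ∀ x y, d x y = d y x
  tri : ∀ x y z, d x z ≤ d x y + d y z
  geo : ∀ x y, ∃ g : ℤ → X, g 0 = x ∧ g (d x y) = y ∧
    ∀ i j, 0 ≤ i → i ≤ j → j ≤ d x y → d (g i) (g j) = j - i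

namespace GMet

variable {X : Type} (m : GMet X)

/-- `f` is a path on `[s,t]`: consecutive points are at distance at most one. -/
def IsPath (f : ℤ → X) (s t : ℤ) : Prop := ∀ i, s ≤ i → i < t → m.d (f i) (f (i + 1)) ≤ 1

/-- `f` is a `K`-bi-Lipschitz path on `[s,t]`. -/
def BiLip (K : ℤ) (f : ℤ → X) (s t : ℤ) : Prop :=
  m.IsPath f s t ∧ ∀ i j, s ≤ i → i ≤ j → j ≤ t → j - i ≤ K * m.d (f i) (f j)

/-- `f` is geodesic on `[s,t]`. -/
def Geo (f : ℤ → X) (s t : ℤ) : Prop :=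
  ∀ i j, s ≤ i → i ≤ j → j ≤ t → m.d (f i) (f j) = j - i

/-- There is a path of length `n` from `x` to `y` all of whose points are at distance at least
`ρ` from `c`. -/
def Conn (c : X) (ρ : ℤ) (x y : X) (n : ℤ) : Prop :=
  0 ≤ n ∧ ∃ τ : ℤ → X, τ 0 = x ∧ τ n = y ∧ m.IsPath τ 0 n ∧
    ∀ t, 0 ≤ t → t ≤ n → ρ ≤ m.d (τ t) c

/-- A detour of ratio `C` and radius `ρ` around `σ k`, where `σ` has domain `[A,B]`. -/
def Detour (C : ℤ) (σ : ℤ → X) (A B k ρ : ℤ) : Prop :=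
  ∃ i j n, A ≤ i ∧ i ≤ k - ρ ∧ k + ρ ≤ j ∧ j ≤ B ∧ n ≤ C * ρ ∧ m.Conn (σ k) ρ (σ i) (σ j) n

/-- No detours of ratio `C` with centre in `[P,Q]` and radius in `[r0,r1]`. -/
def NoDet (C : ℤ) (σ : ℤ → X) (A B P Q r0 r1 : ℤ) : Prop :=
  ∀ k ρ, P ≤ k → k ≤ Q → r0 ≤ ρ → ρ ≤ r1 → ¬ m.Detour C σ A B k ρ

/-- `x` is within distance `h` of `σ [A,B]`. -/
def Nr (σ : ℤ → X) (A B h : ℤ) (x : X) : Prop := ∃ v, A ≤ v ∧ v ≤ B ∧ m.d x (σ v) ≤ h

/-- `c` is a closed path of length `ℓ` (periodic), `K`-bi-Lipschitz for the cyclic distance. -/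
def Cyc (K : ℤ) (c : ℤ → X) (ℓ : ℤ) : Prop :=
  (∀ i, c (i + ℓ) = c i) ∧ (∀ i, m.d (c i) (c (i + 1)) ≤ 1) ∧
    ∀ i j, i ≤ j → j ≤ i + ℓ → min (j - i) (i + ℓ - j) ≤ K * m.d (c i) (c j)

/-- `f` is a geodesic from `x` to `y`. -/
def IsGeo (f : ℤ → X) (x y : X) : Prop :=
  f 0 = x ∧ f (m.d x y) = y ∧ m.Geo f 0 (m.d x y)

/-- All geodesic triangles are `δ`-slim. -/
def Slim (δ : ℤ) : Prop :=
  ∀ (x y z : X) (f g h : ℤ → X), m.IsGeo f x y → m.IsGeo g x z → m.IsGeo h y z →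
    ∀ i, 0 ≤ i → i ≤ m.d x y →
      m.Nr g 0 (m.d x z) δ (f i) ∨ m.Nr h 0 (m.d y z) δ (f i)

variable {m}

/-- Triangle inequality, lower bound version. -/
theorem tri' (x y z : X) : m.d x y - m.d y z ≤ m.d x z := by
  have h1 := m.tri x z y
  have h2 := m.symm y z
  omega

theorem IsPath.mono {f : ℤ → X} {s t s' t' : ℤ} (h : m.IsPath f s t) (hs : s ≤ s')
    (ht : t' ≤ t) : m.IsPath f s' t' := fun i hi hi' => h i (by omega) (by omega)

theorem BiLip.mono {K : ℤ} {f : ℤ → X} {s t s' t' : ℤ} (h : m.BiLip K f s t) (hs : s ≤ s')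
    (ht : t' ≤ t) : m.BiLip K f s' t' :=
  ⟨h.1.mono hs ht, fun i j hi hij hj => h.2 i j (by omega) hij (by omega)⟩

theorem Geo.mono {f : ℤ → X} {s t s' t' : ℤ} (h : m.Geo f s t) (hs : s ≤ s')
    (ht : t' ≤ t) : m.Geo f s' t' := fun i j hi hij hj => h i j (by omega) hij (by omega)

theorem Geo.isPath {f : ℤ → X} {s t : ℤ} (h : m.Geo f s t) : m.IsPath f s t := by
  intro i hi hi'
  rw [h i (i + 1) hi (by omega) (by omega)]
  omega

theorem Geo.biLip {K : ℤ} (hK : 1 ≤ K) {f : ℤ → X} {s t : ℤ} (h : m.Geo f s t) :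
    m.BiLip K f s t := by
  refine ⟨h.isPath, fun i j hi hij hj => ?_⟩
  rw [h i j hi hij hj]
  have : 0 ≤ (K - 1) * (j - i) := mul_nonneg (by omega) (by omega)
  nlinarith

/-- Absolute value form of the geodesic property. -/
theorem Geo.abs {f : ℤ → X} {s t : ℤ} (h : m.Geo f s t) {i j : ℤ} (hi : s ≤ i) (hi' : i ≤ t)
    (hj : s ≤ j) (hj' : j ≤ t) : m.d (f i) (f j) = |j - i| := by
  rcases le_total i j with h1 | h1
  · rw [h i j hi h1 hj', abs_of_nonneg (by omega)]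
  · rw [m.symm, h j i hj h1 hi', abs_of_nonpos (by omega)]
    omega

/-- Reversal of a path. -/
theorem IsPath.neg {f : ℤ → X} {s t : ℤ} (h : m.IsPath f s t) :
    m.IsPath (fun i => f (-i)) (-t) (-s) := by
  intro i hi hi'
  have h1 := h (-i - 1) (by omega) (by omega)
  have h2 : -i - 1 + 1 = -i := by omega
  rw [h2, m.symm] at h1
  have h3 : -(i + 1) = -i - 1 := by omega
  simpa only [h3] using h1

theorem IsPath.shift {f : ℤ → X} {s t : ℤ} (h : m.IsPath f s t) (a : ℤ) :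
    m.IsPath (fun i => f (i + a)) (s - a) (t - a) := by
  intro i hi hi'
  have h1 := h (i + a) (by omega) (by omega)
  have h3 : i + 1 + a = i + a + 1 := by omega
  simpa only [h3] using h1

/-- The length of a path bounds the distance. -/
theorem IsPath.le {f : ℤ → X} {s t : ℤ} (h : m.IsPath f s t) {i j : ℤ} (hi : s ≤ i)
    (hij : i ≤ j) (hj : j ≤ t) : m.d (f i) (f j) ≤ j - i := by
  obtain ⟨n, rfl⟩ : ∃ n : ℕ, j = i + n := ⟨(j - i).toNat, by omega⟩
  induction n with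
  | zero => simp [m.self]
  | succ n ih =>
    have h1 := ih (by omega) (by push_cast at hj; omega)
    have h2 := h (i + n) (by omega) (by push_cast at hj; omega)
    have h3 := m.tri (f i) (f (i + n)) (f (i + n + 1))
    push_cast
    rw [← add_assoc]
    omega

theorem Conn.refl {c : X} {ρ : ℤ} {x : X} (h : ρ ≤ m.d x c) : m.Conn c ρ x x 0 :=
  ⟨le_refl _, fun _ => x, rfl, rfl, fun i _ _ => by rw [m.self]; omega, fun _ _ _ => h⟩

theorem Conn.symm {c : X} {ρ : ℤ} {x y : X} {n : ℤ} (h : m.Conn c ρ x y n) :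
    m.Conn c ρ y x n := by
  obtain ⟨hn, τ, h0, h1, hp, ha⟩ := h
  refine ⟨hn, fun i => τ (n - i), by simpa using h1, by simpa using h0, ?_,
    fun t ht ht' => ha _ (by omega) (by omega)⟩
  intro i hi hi'
  have h2 := hp (n - i - 1) (by omega) (by omega)
  have h3 : n - i - 1 + 1 = n - i := by omega
  rw [h3, m.symm] at h2
  have h4 : n - (i + 1) = n - i - 1 := by omega
  simpa only [h4] using h2

theorem Conn.trans {c : X} {ρ : ℤ} {x y z : X} {n n' : ℤ} (h : m.Conn c ρ x y n)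
    (h' : m.Conn c ρ y z n') : m.Conn c ρ x z (n + n') := by
  obtain ⟨hn, τ, h0, h1, hp, ha⟩ := h
  obtain ⟨hn', τ', h0', h1', hp', ha'⟩ := h'
  refine ⟨by omega, fun i => if i ≤ n then τ i else τ' (i - n), ?_, ?_, ?_, ?_⟩
  · simp only [hn, if_true, h0]
  · by_cases h2 : n + n' ≤ n
    · have h3 : n' = 0 := by omega
      subst h3
      simp only [add_zero, le_refl, if_true]
      rw [h1, ← h0', h1']
    · simp only [h2, if_false]
      rw [show n + n' - n = n' by omega, h1']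
  · intro i hi hi'
    by_cases h2 : i + 1 ≤ n
    · have h3 : i ≤ n := by omega
      simp only [h2, h3, if_true]
      exact hp i hi (by omega)
    · by_cases h3 : i ≤ n
      · have h4 : i = n := by omega
        subst h4
        simp only [le_refl, if_true, h2, if_false]
        rw [h1, ← h0']
        have := hp' 0 (le_refl _) (by omega)
        rw [show i + 1 - i = 0 + 1 by omega]
        exact this
      · simp only [h2, h3, if_false]
        have := hp' (i - n) (by omega) (by omega)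
        rw [show i + 1 - n = i - n + 1 by omega]
        exact this
  · intro t ht ht'
    by_cases h2 : t ≤ n
    · simp only [h2, if_true]
      exact ha t ht h2
    · simp only [h2, if_false]
      exact ha' _ (by omega) (by omega)

/-- A segment of a path, as a connection. -/
theorem Conn.of_path {f : ℤ → X} {s t : ℤ} (h : m.IsPath f s t) (hst : s ≤ t) {c : X} {ρ : ℤ}
    (ha : ∀ i, s ≤ i → i ≤ t → ρ ≤ m.d (f i) c) : m.Conn c ρ (f s) (f t) (t - s) := by
  refine ⟨by omega, fun i => f (i + s), by simp, by simp, ?_, fun i hi hi' =>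
    ha _ (by omega) (by omega)⟩
  have := h.shift s
  rwa [sub_self] at this

/-- A geodesic connection between two points; all points are within `d x y` of `x`. -/
theorem Conn.of_close {c : X} {ρ : ℤ} (x y : X) (h : ρ + m.d x y ≤ m.d x c) :
    m.Conn c ρ x y (m.d x y) := by
  obtain ⟨g, h0, h1, hg⟩ := m.geo x y
  refine ⟨m.nonneg _ _, g, h0, h1, ?_, ?_⟩
  · intro i hi hi'
    rw [hg i (i + 1) hi (by omega) (by omega)]
    omega
  · intro t ht ht'
    have h2 := hg 0 t (le_refl _) ht ht'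
    rw [h0] at h2
    have h3 := m.tri x (g t) c
    omega

theorem exists_isGeo (x y : X) : ∃ f, m.IsGeo f x y := by
  obtain ⟨g, h0, h1, hg⟩ := m.geo x y
  exact ⟨g, h0, h1, hg⟩

theorem Cyc.isPath {K : ℤ} {c : ℤ → X} {ℓ : ℤ} (h : m.Cyc K c ℓ) (s t : ℤ) :
    m.IsPath c s t := fun i _ _ => h.2.1 i

theorem Cyc.periodic {K : ℤ} {c : ℤ → X} {ℓ : ℤ} (h : m.Cyc K c ℓ) (i : ℤ) :
    c (i - ℓ) = c i := by
  have := h.1 (i - ℓ)
  rw [show i - ℓ + ℓ = i by omega] at this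
  exact this.symm

theorem Cyc.mono {K K' : ℤ} {c : ℤ → X} {ℓ : ℤ} (h : m.Cyc K c ℓ) (hK : K ≤ K') :
    m.Cyc K' c ℓ :=
  ⟨h.1, h.2.1, fun i j hij hj => (h.2.2 i j hij hj).trans
    (mul_le_mul_of_nonneg_right hK (m.nonneg _ _))⟩

theorem Cyc.shift {K : ℤ} {c : ℤ → X} {ℓ : ℤ} (h : m.Cyc K c ℓ) (a : ℤ) :
    m.Cyc K (fun i => c (i + a)) ℓ := by
  refine ⟨fun i => ?_, fun i => ?_, fun i j hij hj => ?_⟩
  · have := h.1 (i + a)
    rw [show i + a + ℓ = i + ℓ + a by omega] at this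
    exact this
  · have := h.2.1 (i + a)
    rw [show i + a + 1 = i + 1 + a by omega] at this
    exact this
  · have := h.2.2 (i + a) (j + a) (by omega) (by omega)
    rwa [show j + a - (i + a) = j - i by omega, show i + a + ℓ - (j + a) = i + ℓ - j by omega]
      at this

theorem Cyc.neg {K : ℤ} {c : ℤ → X} {ℓ : ℤ} (h : m.Cyc K c ℓ) :
    m.Cyc K (fun i => c (-i)) ℓ := by
  refine ⟨fun i => ?_, fun i => ?_, fun i j hij hj => ?_⟩
  · have := h.1 (-(i + ℓ))
    rw [show -(i + ℓ) + ℓ = -i by omega] at this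
    exact this.symm
  · have := h.2.1 (-(i + 1))
    rw [show -(i + 1) + 1 = -i by omega, m.symm] at this
    exact this
  · have := h.2.2 (-j) (-i) (by omega) (by omega)
    rw [m.symm, show -i - -j = j - i by omega, show -j + ℓ - -i = i + ℓ - j by omega] at this
    exact this

/-- arcs of length at most `ℓ/2` are `K`-bi-Lipschitz. -/
theorem Cyc.biLip {K : ℤ} {c : ℤ → X} {ℓ : ℤ} (h : m.Cyc K c ℓ) {s t : ℤ}
    (ht : 2 * (t - s) ≤ ℓ) : m.BiLip K c s t := by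
  refine ⟨h.isPath s t, fun i j hi hij hj => ?_⟩
  have := h.2.2 i j hij (by omega)
  rwa [min_eq_left (by omega)] at this

/-- arcs of length at most `3ℓ/4` are `3K`-bi-Lipschitz. -/
theorem Cyc.biLip3 {K : ℤ} {c : ℤ → X} {ℓ : ℤ} (h : m.Cyc K c ℓ) {s t : ℤ}
    (hℓ : 0 ≤ ℓ) (ht : 4 * (t - s) ≤ 3 * ℓ) : m.BiLip (3 * K) c s t := by
  refine ⟨h.isPath s t, fun i j hi hij hj => ?_⟩
  have := h.2.2 i j hij (by omega)
  have h2 : j - i ≤ 3 * min (j - i) (i + ℓ - j) := by omega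
  calc j - i ≤ 3 * min (j - i) (i + ℓ - j) := h2
    _ ≤ 3 * (K * m.d (c i) (c j)) := by omega
    _ = 3 * K * m.d (c i) (c j) := by ring

/-- Reversal of detours. -/
theorem Detour.neg {C : ℤ} {σ : ℤ → X} {A B k ρ : ℤ}
    (h : m.Detour C (fun i => σ (-i)) (-B) (-A) (-k) ρ) : m.Detour C σ A B k ρ := by
  obtain ⟨i, j, n, h1, h2, h3, h4, h5, h6⟩ := h
  refine ⟨-j, -i, n, by omega, by omega, by omega, by omega, h5, ?_⟩
  simp only [neg_neg] at h6
  exact h6.symm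

theorem NoDet.neg {C : ℤ} {σ : ℤ → X} {A B P Q r0 r1 : ℤ} (h : m.NoDet C σ A B P Q r0 r1) :
    m.NoDet C (fun i => σ (-i)) (-B) (-A) (-Q) (-P) r0 r1 := by
  intro k ρ hk hk' hρ hρ' hd
  refine h (-k) ρ (by omega) (by omega) hρ hρ' (Detour.neg ?_)
  rwa [neg_neg]

theorem Geo.neg {σ : ℤ → X} {A B : ℤ} (h : m.Geo σ A B) :
    m.Geo (fun i => σ (-i)) (-B) (-A) := by
  intro i j hi hij hj
  have := h (-j) (-i) (by omega) (by omega) (by omega)
  rw [m.symm] at this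
  simp only
  rw [this]
  omega

/-- A detour from two points of `σ` on different sides of the ball, in any order. -/
theorem Detour.of_conn {C : ℤ} {σ : ℤ → X} {A B k ρ i j n : ℤ}
    (hi : A ≤ i) (hi' : i ≤ B) (hj : A ≤ j) (hj' : j ≤ B)
    (h : (i ≤ k - ρ ∧ k + ρ ≤ j) ∨ (j ≤ k - ρ ∧ k + ρ ≤ i)) (hn : n ≤ C * ρ)
    (hc : m.Conn (σ k) ρ (σ i) (σ j) n) : m.Detour C σ A B k ρ := by
  rcases h with ⟨h1, h2⟩ | ⟨h1, h2⟩
  · exact ⟨i, j, n, hi, h1, h2, hj', hn, hc⟩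
  · exact ⟨j, i, n, hj, h1, h2, hi', hn, hc.symm⟩

end GMet

end Pool.Agent.H.MP_21aec1_al.Hy
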