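import Pool.Agent.H.MP_21aec1_al.Hy.NRs

set_option autoImplicit false

namespace Pool.Agent.H.MP_21aec1_al.Hy

variable {X : Type} {m : GMet X}

/-- Greatest element of a nonempty set of integers of `[0,L]`. -/
private theorem bigDvg_greatest (P : ℤ → Prop) (L : ℤ) (hL : 0 ≤ L) (hP : P 0) :
    ∃ n, 0 ≤ n ∧ n ≤ L ∧ P n ∧ ∀ i, n < i → i ≤ L → ¬ P i := by
  classical
  have hex : ∃ k : ℕ, 0 ≤ L - k ∧ P (L - (k : ℤ)) :=
    ⟨L.toNat, by rw [Int.toNat_of_nonneg hL]; omega, by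
      rw [Int.toNat_of_nonneg hL, sub_self]; exact hP⟩
  refine ⟨L - (Nat.find hex : ℤ), (Nat.find_spec hex).1, by omega, (Nat.find_spec hex).2, ?_⟩
  intro i hi hi' hPi
  have h0 := (Nat.find_spec hex).1
  have h1 : Nat.find hex ≤ (L - i).toNat :=
    Nat.find_min' hex ⟨by omega, by
      rw [Int.toNat_of_nonneg (by omega), sub_sub_cancel]; exact hPi⟩
  omega

/-- MICRO CASE: THE BIG SIDE DIVERGES FROM THE SMALL SIDE AFTER THE HUB `P`. -/
theorem Hub.bigdvg {r0 κ1 κ' ℓ' κ ℓ : ℤ} {γ C : ℤ → X} (h : LPair m r0 κ1 κ' ℓ' κ ℓ γ C)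
    {tL tR kQ kP : ℤ} (hh : Hub m r0 κ1 κ ℓ' γ C tL tR kQ kP)
    (hmR : 10 ^ 62 * tR ≤ κ') (hmL : -κ' ≤ 10 ^ 62 * tL)
    {w t : ℤ} (hw : kP ≤ w) (hw' : 10 ^ 50 * w ≤ κ') (ht : -κ' ≤ t) (ht' : t ≤ κ') :
    w - kP ≤ 32 * m.d (C w) (γ t) + 10 ^ 52 * r0 := by
  obtain ⟨hkP1, hkP2, hkP3⟩ := Hub.kP_bounds h hh
  have hhn := hh.neg h.small.cyc
  have hr0 := h.big.r0pos
  have hk' := h.small.kbig
  have hlo := h.small.lo
  have hh1 := h.h1
  have hh2 := h.h2
  have hh3 := h.h3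
  have htR1 := hh.tR1
  have htR4 := hh.tR4
  have htL1 := hh.tL1
  have htL4 := hh.tL4
  have hP := hh.hP
  have hcom0 : γ 0 = C 0 := h.com 0 (by omega) (by omega)
  have hgC := h.big.geo
  have hnn := m.nonneg (C w) (γ t)
  have hnr0 : m.Nr γ (-κ') κ' (2 * (10 ^ 22 * r0)) (C (kP + 0)) :=
    ⟨tR, by omega, by omega, by rw [add_zero, m.symm]; exact hP⟩
  obtain ⟨n, hn0, hnL, ⟨t', ht'a, ht'b, ht'd⟩, hmax⟩ :=
    bigDvg_greatest (fun n => m.Nr γ (-κ') κ' (2 * (10 ^ 22 * r0)) (C (kP + n))) (w - kP)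
      (by omega) hnr0
  have ht'd2 : m.d (γ t') (C (kP + n)) ≤ 2 * (10 ^ 22 * r0) := by
    rw [m.symm]; exact ht'd
  have htR : t' ≤ tR := by
    by_contra hcon
    exact hh.far t' (by omega) (by omega) ⟨kP + n, by omega, by omega, ht'd2⟩
  have htL : tL ≤ t' := by
    by_contra hcon
    refine hh.far (t' + ℓ') (by omega) (by omega) ⟨kP + n, by omega, by omega, ?_⟩
    rw [h.small.cyc.1]
    exact ht'd2
  have hn : n ≤ 10 ^ 51 * r0 := by
    rcases le_or_gt 0 t' with h0 | h0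
    · have := Hub.monob h hh (t := t') (t' := tR) (v := kP + n) (v' := kP) h0 htR (le_refl _)
        (by omega) (by omega) (by omega) (by omega) (by omega) (by omega)
      omega
    · have := Hub.monoa h.neg hhn (t := -t') (v := -(kP + n)) (by omega) (by omega) (by omega)
        (by omega) (by simp only [neg_neg]; omega)
      omega
  have hgeo' : m.Geo (fun i => C (kP + n + i)) 0 (w - kP - n) := by
    intro i j hi hij hj
    have := hgC (kP + n + i) (kP + n + j) (by omega) (by omega) (by omega)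
    simp only
    rw [this]
    omega
  have hd0 : 100 * m.d (C (kP + n + 0)) (γ 0) ≤ κ' := by
    rw [add_zero, hcom0, m.symm, hgC 0 (kP + n) (by omega) (by omega) (by omega)]
    omega
  have := h.small.dvg (K := 1) (le_refl _) (by norm_num) (f := fun i => C (kP + n + i))
    (s := 0) (t := w - kP - n) (by omega) (hgeo'.biLip (le_refl _))
    (by omega) hd0
    ⟨t', ht'a, ht'b, by simpa using ht'd⟩
    (fun i hi hi' hnr => hmax (n + i) (by omega) (by omega) (by
      simpa only [add_assoc] using hnr)) ht ht'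
  simp only [one_mul] at this
  rw [show kP + n + (w - kP - n) = w by omega] at this
  omega

end Pool.Agent.H.MP_21aec1_al.Hy
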