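import Pool.Agent.H.MP_21aec1_al.Defs

set_option autoImplicit false

namespace Pool.Agent.H.MP_21aec1_al.Hy

variable {G : Type} [Group G]

/-- start time of the block of the edge `k → k+1` -/
def bT (b : ℕ → ℕ) (k : ℕ) : ℕ := ∑ e ∈ Finset.range k, (1 + 2 * b e)

/-- first visit of the vertex `i` -/
def bV (b : ℕ → ℕ) (i : ℕ) : ℕ := if i = 0 then 0 else bT b (i - 1) + 1

/-- last visit of the vertex `i` -/
def bU (b : ℕ → ℕ) (n i : ℕ) : ℕ := if i < n then bT b i + 2 * b i else bT b n

/-- the block of one edge -/
private def blk {T : Type} (s s' : T) : ℕ → List T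
  | 0 => [s]
  | m + 1 => s :: s' :: blk s s' m

private theorem blk_length {T : Type} (s s' : T) (m : ℕ) : (blk s s' m).length = 2 * m + 1 := by
  induction m with
  | zero => rfl
  | succ m ih => simp only [blk, List.length_cons, ih]; omega

private theorem blk_take {S : Finset G} (s s' : S) (h : (s : G) * s' = 1) (m : ℕ) :
    ∀ r, r ≤ 2 * m + 1 → ev S ((blk s s' m).take r) = if r % 2 = 0 then 1 else (s : G) := by
  induction m with
  | zero =>
    intro r hr
    obtain rfl | rfl : r = 0 ∨ r = 1 := by omega
    · simp [ev]
    · simp [ev, blk]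
  | succ m ih =>
    intro r hr
    match r, hr with
    | 0, _ => simp [ev]
    | 1, _ => simp [ev, blk]
    | r + 2, hr =>
      have h1 := ih r (by omega)
      have h2 : (blk s s' (m + 1)).take (r + 2) = s :: s' :: (blk s s' m).take r := rfl
      rw [h2, ev_cons, ev_cons, h1, ← mul_assoc, h, one_mul]
      have h3 : (r + 2) % 2 = r % 2 := by omega
      rw [h3]

private theorem bT_succ (b : ℕ → ℕ) (n : ℕ) : bT b (n + 1) = bT b n + (1 + 2 * b n) := by
  simp only [bT, Finset.sum_range_succ]

private theorem bT_mono (b : ℕ → ℕ) {i n : ℕ} (h : i ≤ n) : bT b i ≤ bT b n := by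
  induction n, h using Nat.le_induction with
  | base => exact le_refl _
  | succ n _ ih => rw [bT_succ]; omega

private theorem bV_le (b : ℕ → ℕ) {i n : ℕ} (h : i ≤ n) : bV b i ≤ bT b n := by
  unfold bV
  split
  · exact Nat.zero_le _
  · rename_i h0
    obtain ⟨j, rfl⟩ : ∃ j, i = j + 1 := ⟨i - 1, by omega⟩
    have h1 := bT_mono b h
    rw [bT_succ] at h1
    rw [Nat.add_sub_cancel]
    omega

private theorem bU_lt (b : ℕ → ℕ) {i n : ℕ} (h : i < n) : bT b i + 2 * b i ≤ bT b n := by
  have h1 := bT_mono b (show i + 1 ≤ n from h)
  rw [bT_succ] at h1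
  omega

/-- BOUNCE WORDS. Follow the path `P 0, P 1, …, P n` (steps in `S`), the step `e → e+1` being
repeated back and forth `b e` times: the block of the edge `e` is `s (s⁻¹ s)^{b e}`,
`s = (P e)⁻¹ P (e+1)`. Positions `bT b e + r`, `0 ≤ r ≤ 2 b e + 1`, in this block are at the
vertex `e` for `r` even and `e + 1` for `r` odd.
Proof by induction on `n` (the word for `n+1` is the word for `n` followed by the block of the
edge `n`); the intermediate statement: for `t ≤ bT b n` there is `i ≤ n` with
`bV b i ≤ t`, and (`t ≤ bT b i + 2 * b i` if `i < n`), value `(P 0)⁻¹ P i`. -/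
theorem bounce {S : Finset G} (hS : ∀ s ∈ S, s⁻¹ ∈ S) (P : ℕ → G) (n : ℕ)
    (hP : ∀ i, i < n → (P i)⁻¹ * P (i + 1) ∈ S) (b : ℕ → ℕ) :
    ∃ w : List S, w.length = bT b n ∧
      (∀ t, t ≤ w.length → ∃ i, i ≤ n ∧ bV b i ≤ t ∧ t ≤ bU b n i ∧
        ev S (w.take t) = (P 0)⁻¹ * P i) ∧
      (∀ i, i ≤ n → ev S (w.take (bV b i)) = (P 0)⁻¹ * P i ∧
        ev S (w.take (bU b n i)) = (P 0)⁻¹ * P i) := by
  induction n with
  | zero =>
    refine ⟨[], rfl, ?_, ?_⟩
    · intro t ht
      have ht0 : t = 0 := by simpa using ht
      subst ht0
      refine ⟨0, le_refl _, ?_, ?_, ?_⟩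
      · simp [bV]
      · exact Nat.zero_le _
      · simp [ev]
    · intro i hi
      have hi0 : i = 0 := by omega
      subst hi0
      simp [ev]
  | succ n ih =>
    obtain ⟨w, hl, h1, h2⟩ := ih (fun i hi => hP i (by omega))
    have hs := hP n (by omega)
    let s : S := ⟨(P n)⁻¹ * P (n + 1), hs⟩
    let s' : S := ⟨((P n)⁻¹ * P (n + 1))⁻¹, hS _ hs⟩
    have hss : (s : G) * s' = 1 := mul_inv_cancel _
    have hsv : (s : G) = (P n)⁻¹ * P (n + 1) := rfl
    have hwn : ev S w = (P 0)⁻¹ * P n := by
      have h3 := (h2 n (le_refl _)).2
      have h4 : bU b n n = bT b n := by simp [bU]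
      rw [h4, ← hl, List.take_length] at h3
      exact h3
    have hL : (w ++ blk s s' (b n)).length = bT b (n + 1) := by
      rw [List.length_append, blk_length, hl, bT_succ]; omega
    -- times in the old part
    have old : ∀ t, t ≤ bT b n → (w ++ blk s s' (b n)).take t = w.take t := by
      intro t ht
      rw [List.take_append_of_le_length (by omega)]
    -- times in the new part
    have new : ∀ r, r ≤ 2 * b n + 1 → ev S ((w ++ blk s s' (b n)).take (bT b n + r)) =
        if r % 2 = 0 then (P 0)⁻¹ * P n else (P 0)⁻¹ * P (n + 1) := by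
      intro r hr
      have h3 : (w ++ blk s s' (b n)).take (bT b n + r) = w ++ (blk s s' (b n)).take r := by
        rw [← hl, List.take_length_add_append]
      rw [h3, ev_append, hwn, blk_take s s' hss (b n) r hr]
      split
      · rw [mul_one]
      · rw [hsv, mul_assoc, mul_inv_cancel_left]
    refine ⟨w ++ blk s s' (b n), hL, ?_, ?_⟩
    · intro t ht
      rw [hL] at ht
      rcases le_or_gt t (bT b n) with h3 | h3
      · obtain ⟨i, hi, h4, h5, h6⟩ := h1 t (by omega)
        refine ⟨i, by omega, h4, ?_, by rw [old t h3]; exact h6⟩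
        unfold bU at h5 ⊢
        by_cases h7 : i < n
        · rw [if_pos h7] at h5
          rw [if_pos (by omega)]
          exact h5
        · have h8 : i = n := by omega
          subst h8
          rw [if_pos (by omega)]
          omega
      · rw [bT_succ] at ht
        obtain ⟨r, rfl⟩ : ∃ r, t = bT b n + r := ⟨t - bT b n, by omega⟩
        have h4 := new r (by omega)
        by_cases h5 : r % 2 = 0
        · rw [if_pos h5] at h4
          refine ⟨n, by omega, ?_, ?_, h4⟩
          · have := bV_le b (le_refl n)
            omega
          · unfold bU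
            rw [if_pos (by omega)]
            omega
        · rw [if_neg h5] at h4
          refine ⟨n + 1, le_refl _, ?_, ?_, h4⟩
          · unfold bV
            rw [if_neg (by omega), Nat.add_sub_cancel]
            omega
          · unfold bU
            rw [if_neg (by omega), bT_succ]
            omega
    · intro i hi
      constructor
      · by_cases h3 : i ≤ n
        · rw [old _ (bV_le b h3)]
          exact (h2 i h3).1
        · have h4 : i = n + 1 := by omega
          subst h4
          have h5 : bV b (n + 1) = bT b n + 1 := by simp [bV]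
          rw [h5, new 1 (by omega)]
          simp
      · by_cases h3 : i < n
        · have h5 : bU b (n + 1) i = bU b n i := by
            unfold bU
            rw [if_pos h3, if_pos (by omega)]
          have h6 : bU b n i ≤ bT b n := by
            unfold bU
            rw [if_pos h3]
            exact bU_lt b h3
          rw [h5, old _ h6]
          exact (h2 i (by omega)).2
        · by_cases h4 : i = n
          · subst h4
            have h5 : bU b (i + 1) i = bT b i + 2 * b i := by
              unfold bU
              rw [if_pos (by omega)]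
            rw [h5, new (2 * b i) (by omega), if_pos (by omega)]
          · have h5 : i = n + 1 := by omega
            subst h5
            have h6 : bU b (n + 1) (n + 1) = bT b n + (2 * b n + 1) := by
              unfold bU
              rw [if_neg (by omega), bT_succ]
              omega
            rw [h6, new (2 * b n + 1) (by omega), if_neg (by omega)]

end Pool.Agent.H.MP_21aec1_al.Hy
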