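import Pool.Agent.H.MP_21aec1_al.Hy.Base

set_option autoImplicit false

namespace Pool.Agent.H.MP_21aec1_al.Hy

namespace GMet

variable {X : Type} {m : GMet X}

/-- Periodic extension of a closed path. -/
private theorem loopC_periodic {K ℓ : ℤ} {f : ℤ → X} (hℓ : 0 < ℓ) (h0 : f 0 = f ℓ)
    (hp : m.IsPath f 0 ℓ)
    (hf : ∀ i j, 0 ≤ i → i ≤ j → j ≤ ℓ → min (j - i) (i + ℓ - j) ≤ K * m.d (f i) (f j)) :
    m.Cyc K (fun i => f (i % ℓ)) ℓ ∧ ∀ r, 0 ≤ r → r ≤ ℓ → f (r % ℓ) = f r := by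
  have key : ∀ r q, 0 ≤ r → r ≤ ℓ → f ((r + ℓ * q) % ℓ) = f r := by
    intro r q hr hr'
    rw [Int.add_mul_emod_self_left]
    rcases hr'.lt_or_eq with h | h
    · rw [Int.emod_eq_of_lt hr h]
    · rw [h, Int.emod_self, h0]
  have rep : ∀ i : ℤ, ∃ r q, 0 ≤ r ∧ r < ℓ ∧ i = r + ℓ * q := fun i =>
    ⟨i % ℓ, i / ℓ, Int.emod_nonneg _ hℓ.ne', Int.emod_lt_of_pos _ hℓ,
      (Int.emod_add_mul_ediv i ℓ).symm⟩
  refine ⟨⟨fun i => ?_, fun i => ?_, fun i j hij hj => ?_⟩, fun r hr hr' => ?_⟩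
  · show f ((i + ℓ) % ℓ) = f (i % ℓ)
    rw [Int.add_emod_right]
  · obtain ⟨r, q, hr, hr', hi⟩ := rep i
    show m.d (f (i % ℓ)) (f ((i + 1) % ℓ)) ≤ 1
    have e1 : f (i % ℓ) = f r := by
      rw [hi]
      exact key r q hr hr'.le
    have e2 : f ((i + 1) % ℓ) = f (r + 1) := by
      rw [show i + 1 = r + 1 + ℓ * q by omega]
      exact key (r + 1) q (by omega) (by omega)
    rw [e1, e2]
    exact hp r hr hr'
  · obtain ⟨r, q, hr, hr', hi⟩ := rep i
    show min (j - i) (i + ℓ - j) ≤ K * m.d (f (i % ℓ)) (f (j % ℓ))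
    have e1 : f (i % ℓ) = f r := by
      rw [hi]
      exact key r q hr hr'.le
    obtain ⟨r', hj'⟩ : ∃ r', j = r' + ℓ * q := ⟨j - ℓ * q, by omega⟩
    by_cases hc : r' ≤ ℓ
    · have e2 : f (j % ℓ) = f r' := by
        rw [hj']
        exact key r' q (by omega) hc
      rw [e1, e2]
      have := hf r r' hr (by omega) hc
      rwa [show j - i = r' - r by omega, show i + ℓ - j = r + ℓ - r' by omega]
    · have e2 : f (j % ℓ) = f (r' - ℓ) := by
        have : j = r' - ℓ + ℓ * (q + 1) := by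
          rw [mul_add, mul_one]
          omega
        rw [this]
        exact key (r' - ℓ) (q + 1) (by omega) (by omega)
      rw [e1, e2]
      have := hf (r' - ℓ) r (by omega) (by omega) hr'.le
      rw [m.symm, min_comm] at this
      rwa [show j - i = r' - ℓ + ℓ - r by omega, show i + ℓ - j = r - (r' - ℓ) by omega]
  · have := key r 0 hr hr'
    rwa [mul_zero, add_zero] at this

/-- A tame handle `β` over the geodesic `σ[x,u]` closes up to a cyclically bi-Lipschitz loop.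

Proof. Put `ℓ = u - x + b > 0` and `f r = σ (x + r)` for `r ≤ u - x`, `f r = β (ℓ - r)` for
`r > u - x`; `c i = f (i % ℓ)` (integer `%`, in `[0,ℓ)`). Note `f 0 = σ x = β 0 = f ℓ` and
`β b = σ u`. Adjacent points: check inside each piece and at `r = u - x`, `r = ℓ - 1`.
Cyclic bi-Lipschitz: reduce to `0 ≤ i ≤ j ≤ ℓ` (representatives mod `ℓ`; the cyclic distance
`min (j-i) (i+ℓ-j)` is symmetric under `(i,j) ↦ (j, i+ℓ)`) and show
`min (j-i) (ℓ-(j-i)) ≤ (2K1+1) d(f i, f j)`: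
both on `σ`: `d = j - i`; both on `β`: `j - i ≤ K1 d`; one point `σ (x+i)`, the other `β s`
(`s = ℓ - j`): if `x + i ≤ k` then `s ≤ K1 d` and `i ≤ d(σ(x+i), σ x) ≤ d + s`, and the cyclic
distance is `≤ s + i ≤ (2K1+1) d`; if `x + i ≥ k` then `b - s ≤ K1 d` and
`(u-x) - i ≤ d + (b-s)`, `j - i = (u-x-i) + (b-s) ≤ (2K1+1)d`. -/
theorem handle_loop {K1 A B k x u b : ℤ} {σ β : ℤ → X} (hK1 : 1 ≤ K1) (hσ : m.Geo σ A B)
    (hx : A ≤ x) (hu : u ≤ B) (hxk : x < k) (hku : k < u) (hb : 0 ≤ b)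
    (h0 : β 0 = σ x) (h1 : β b = σ u) (hβ : m.BiLip K1 β 0 b)
    (hl : ∀ s i, 0 ≤ s → s ≤ b → A ≤ i → i ≤ k → s ≤ K1 * m.d (β s) (σ i))
    (hr : ∀ s i, 0 ≤ s → s ≤ b → k ≤ i → i ≤ B → b - s ≤ K1 * m.d (β s) (σ i)) :
    ∃ c : ℤ → X, m.Cyc (2 * K1 + 1) c (u - x + b) ∧
      (∀ i, 0 ≤ i → i ≤ u - x → c i = σ (x + i)) ∧
      (∀ j, 0 ≤ j → j ≤ b → c (u - x + j) = β (b - j)) := by
  have hub : u - x ≤ b := by
    have e1 := hσ x u hx (by omega) hu
    have e2 := hβ.1.le (le_refl 0) hb (le_refl b)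
    rw [h0, h1, e1] at e2
    omega
  obtain ⟨ℓ, hℓ⟩ : ∃ ℓ, ℓ = u - x + b := ⟨_, rfl⟩
  obtain ⟨f, hfd⟩ : ∃ f : ℤ → X, f = fun r => if r ≤ u - x then σ (x + r) else β (ℓ - r) :=
    ⟨_, rfl⟩
  have fσ : ∀ r, r ≤ u - x → f r = σ (x + r) := by
    intro r hr
    rw [hfd]
    simp only [hr, if_true]
  have fβ : ∀ r, u - x ≤ r → f r = β (ℓ - r) := by
    intro r hr
    rcases hr.lt_or_eq with h | h
    · rw [hfd]
      simp only [not_le.mpr h, if_false]
    · rw [fσ r (by omega), ← h, show x + (u - x) = u by omega, show ℓ - (u - x) = b by omega, h1]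
  have hP : ∀ D : ℤ, 0 ≤ D → D ≤ K1 * D := by
    intro D hD
    have : 0 ≤ (K1 - 1) * D := mul_nonneg (by omega) hD
    rw [sub_mul, one_mul] at this
    omega
  obtain ⟨hc, hcf⟩ := loopC_periodic (m := m) (K := 2 * K1 + 1) (ℓ := ℓ) (f := f) (by omega)
    (by
      rw [fσ 0 (by omega), fβ ℓ (by omega), add_zero, sub_self, h0])
    (by
      intro i hi hi'
      by_cases hc : i + 1 ≤ u - x
      · rw [fσ i (by omega), fσ (i + 1) hc, hσ (x + i) (x + (i + 1)) (by omega) (by omega)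
          (by omega)]
        omega
      · rw [fβ i (by omega), fβ (i + 1) (by omega), m.symm]
        have := hβ.1 (ℓ - (i + 1)) (by omega) (by omega)
        rwa [show ℓ - (i + 1) + 1 = ℓ - i by omega] at this)
    (by
      intro i j hi hij hj
      obtain ⟨D, hD⟩ : ∃ D, D = m.d (f i) (f j) := ⟨_, rfl⟩
      have hD0 : 0 ≤ D := hD ▸ m.nonneg _ _
      have hDP := hP D hD0
      rw [← hD, show (2 * K1 + 1) * D = 2 * (K1 * D) + D by ring]
      by_cases hju : j ≤ u - x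
      · rw [fσ i (by omega), fσ j hju, hσ (x + i) (x + j) (by omega) (by omega) (by omega)] at hD
        omega
      by_cases hiu : u - x ≤ i
      · rw [fβ i hiu, fβ j (by omega), m.symm] at hD
        have := hβ.2 (ℓ - j) (ℓ - i) (by omega) (by omega) (by omega)
        rw [← hD] at this
        omega
      rw [fσ i (by omega), fβ j (by omega)] at hD
      by_cases hik : x + i ≤ k
      · have e1 := hl (ℓ - j) (x + i) (by omega) (by omega) (by omega) hik
        rw [m.symm, ← hD] at e1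
        have e2 := hσ x (x + i) hx (by omega) (by omega)
        have e3 := hβ.1.le (le_refl 0) (show (0 : ℤ) ≤ ℓ - j by omega) (by omega)
        rw [h0] at e3
        have e4 := m.tri (σ x) (β (ℓ - j)) (σ (x + i))
        rw [m.symm (β (ℓ - j)), ← hD] at e4
        omega
      · have e1 := hr (ℓ - j) (x + i) (by omega) (by omega) (by omega) (by omega)
        rw [m.symm, ← hD] at e1
        have e2 := hσ (x + i) u (by omega) (by omega) hu
        have e3 := hβ.1.le (show (0 : ℤ) ≤ ℓ - j by omega) (show ℓ - j ≤ b by omega) (le_refl b)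
        rw [h1] at e3
        have e4 := m.tri (σ (x + i)) (β (ℓ - j)) (σ u)
        rw [← hD] at e4
        omega)
  rw [← hℓ]
  refine ⟨fun i => f (i % ℓ), hc, fun i hi hi' => ?_, fun j hj hj' => ?_⟩
  · show f (i % ℓ) = _
    rw [hcf i hi (by omega), fσ i hi']
  · show f ((u - x + j) % ℓ) = _
    rw [hcf (u - x + j) (by omega) (by omega), fβ _ (by omega)]
    congr 1
    omega

end GMet

end Pool.Agent.H.MP_21aec1_al.Hy
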