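import Pool.Agent.H.MP_21aec1_al.Hy.Base

set_option autoImplicit false

namespace Pool.Agent.H.MP_21aec1_al.Hy

namespace GMet

variable {X : Type} {m : GMet X}

/-- weighted connection; the end point is not counted. -/
def TameC (m : GMet X) (w : X → ℤ) (x y : X) (W : ℤ) : Prop :=
  ∃ (τ : ℕ → X) (n : ℕ), τ 0 = x ∧ τ n = y ∧ (∀ i < n, m.d (τ i) (τ (i + 1)) ≤ 1) ∧
    ∑ i ∈ Finset.range n, w (τ i) = W

theorem TameC.trans {w : X → ℤ} {x y z : X} {W W' : ℤ} (h : TameC m w x y W)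
    (h' : TameC m w y z W') : TameC m w x z (W + W') := by
  obtain ⟨τ, n, h0, h1, hp, hW⟩ := h
  obtain ⟨τ', n', h0', h1', hp', hW'⟩ := h'
  refine ⟨fun i => if i < n then τ i else τ' (i - n), n + n', ?_, ?_, ?_, ?_⟩
  · by_cases hn : 0 < n
    · simp only [hn, if_true, h0]
    · have hn0 : n = 0 := by omega
      subst hn0
      simp only [lt_irrefl, if_false, Nat.sub_zero, h0']
      rw [← h1, h0]
  · have : ¬ (n + n' < n) := by omega
    simp only [this, if_false, Nat.add_sub_cancel_left, h1']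
  · intro i hi
    by_cases h2 : i + 1 < n
    · have h3 : i < n := by omega
      simp only [h2, h3, if_true]
      exact hp i h3
    · by_cases h3 : i < n
      · have h4 : i + 1 = n := by omega
        simp only [h3, if_true, h2, if_false]
        rw [show i + 1 - n = 0 by omega, h0', ← h1, ← h4]
        exact hp i h3
      · simp only [h2, h3, if_false]
        rw [show i + 1 - n = (i - n) + 1 by omega]
        exact hp' (i - n) (by omega)
  · rw [Finset.sum_range_add, ← hW, ← hW']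
    congr 1
    · refine Finset.sum_congr rfl fun i hi => ?_
      have hi' := Finset.mem_range.1 hi
      simp only [hi', if_true]
    · refine Finset.sum_congr rfl fun i _ => ?_
      have hi' : ¬ (n + i < n) := by omega
      simp only [hi', if_false, Nat.add_sub_cancel_left]

theorem TameC.seg {w : X → ℤ} {τ : ℕ → X} {n : ℕ} (hp : ∀ i < n, m.d (τ i) (τ (i + 1)) ≤ 1)
    {s t : ℕ} (hst : s ≤ t) (ht : t ≤ n) :
    TameC m w (τ s) (τ t) (∑ i ∈ Finset.range (t - s), w (τ (s + i))) := by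
  refine ⟨fun i => τ (s + i), t - s, by simp, ?_, fun i hi => ?_, rfl⟩
  · simp only
    rw [show s + (t - s) = t by omega]
  · exact hp (s + i) (by omega)

theorem TameC.geo {w : X → ℤ} {Q : ℤ} (hw : ∀ x, w x ≤ Q) (x y : X) :
    ∃ W, TameC m w x y W ∧ W ≤ Q * m.d x y ∧ W + w y ≤ w x + Q * m.d x y := by
  obtain ⟨g, h0, h1, hg⟩ := m.geo x y
  have hd0 := m.nonneg x y
  have hd : ((m.d x y).toNat : ℤ) = m.d x y := Int.toNat_of_nonneg hd0
  refine ⟨∑ i ∈ Finset.range (m.d x y).toNat, w (g (i : ℤ)),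
    ⟨fun i => g (i : ℤ), (m.d x y).toNat, ?_, ?_, ?_, rfl⟩, ?_, ?_⟩
  · simpa using h0
  · simp only [hd, h1]
  · intro i hi
    have := hg (i : ℤ) ((i : ℤ) + 1) (by omega) (by omega) (by omega)
    simp only [Nat.cast_add, Nat.cast_one]
    rw [this]; omega
  · calc ∑ i ∈ Finset.range (m.d x y).toNat, w (g (i : ℤ))
        ≤ ∑ _i ∈ Finset.range (m.d x y).toNat, Q := Finset.sum_le_sum fun i _ => hw _
      _ = Q * m.d x y := by
        rw [Finset.sum_const, Finset.card_range, nsmul_eq_mul, hd, mul_comm]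
  · have h2 : ∑ i ∈ Finset.range (m.d x y).toNat, w (g (i : ℤ)) + w y =
        ∑ i ∈ Finset.range ((m.d x y).toNat + 1), w (g (i : ℤ)) := by
      rw [Finset.sum_range_succ, hd, h1]
    rw [h2, Finset.sum_range_succ']
    have h3 : ∑ i ∈ Finset.range (m.d x y).toNat, w (g ((i + 1 : ℕ) : ℤ)) ≤ Q * m.d x y := by
      calc ∑ i ∈ Finset.range (m.d x y).toNat, w (g ((i + 1 : ℕ) : ℤ))
          ≤ ∑ _i ∈ Finset.range (m.d x y).toNat, Q := Finset.sum_le_sum fun i _ => hw _
        _ = Q * m.d x y := by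
          rw [Finset.sum_const, Finset.card_range, nsmul_eq_mul, hd, mul_comm]
    have h4 : w (g ((0 : ℕ) : ℤ)) = w x := by rw [Nat.cast_zero, h0]
    rw [h4]
    omega

/-- splitting a sum over `range`. -/
theorem tame_split (f : ℕ → ℤ) {s t n : ℕ} (hst : s ≤ t) (ht : t ≤ n) :
    ∑ i ∈ Finset.range n, f i = ∑ i ∈ Finset.range s, f i +
      ∑ i ∈ Finset.range (t - s), f (s + i) + ∑ i ∈ Finset.range (n - t), f (t + i) := by
  have h1 : n = (s + (t - s)) + (n - t) := by omega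
  conv_lhs => rw [h1]
  rw [Finset.sum_range_add, Finset.sum_range_add]
  congr 1
  refine Finset.sum_congr rfl fun i _ => ?_
  rw [show s + (t - s) + i = t + i by omega]

theorem tame_card_le {f : ℕ → ℤ} (hf : ∀ i, 1 ≤ f i) (n : ℕ) : (n : ℤ) ≤ ∑ i ∈ Finset.range n, f i := by
  calc (n : ℤ) = ∑ _i ∈ Finset.range n, (1 : ℤ) := by simp
    _ ≤ _ := Finset.sum_le_sum fun i _ => hf i

/-- TAME LEMMA. A detour can be replaced by a tame one.

Proof. Put `Q = 100(C+2)`, `p = σ k`, weight `w x = 1` if `19 ρ ≤ 20 d(x,p)`, else `w x = Q`.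
Among all paths (finite sequences of points, consecutive distance `≤ 1`) from a point `σ i` with
`A ≤ i`, `2i ≤ 2k - ρ` to a point `σ j` with `j ≤ B`, `2k + ρ ≤ 2j`, choose one minimising the
total weight (sum of `w` over all its points); exists by well-ordering since the given detour is
such a path, all its points have weight 1, so its weight is `n + 1 ≤ Cρ + 1`.  Let
`β : [0,b] → X` be a minimiser, from `σ x` to `σ u`; its weight is `≤ Cρ + 1`, so `b ≤ Cρ`.
(1) All points satisfy `9ρ ≤ 10 d(β s, p)`: otherwise all points `β s'` with `20|s'-s| ≤ ρ` have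
weight `Q`; as `b ≥ u - x ≥ ρ`, there are at least `ρ/20` such `s' ∈ [0,b]` (at least
`⌊ρ/20⌋+1`), so the weight is `≥ Q ρ/20 = 5(C+2)ρ > Cρ + 1`. Hence `9ρ ≤ 10(k-x)`,
`9ρ ≤ 10(u-k)`.
(2) For `s < t` in `[0,b]`, `δ = d(β s, β t)`: replacing `β[s,t]` by a geodesic (`δ+1` points,
each of weight `≤ Q`) gives `t - s + 1 ≤ weight β[s,t] ≤ Q(δ+1)`; if `δ = 0` one can cut out the
loop, so `δ ≥ 1`; so `t - s ≤ 2Qδ`.
(3) For `i ≤ k`, `s ≥ 1`, `δ = d(β s, σ i)`: if `2i ≤ 2k - ρ` replace `β[0,s]` by a geodesic from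
`σ i` to `β s`: `s + 1 ≤ Q(δ+1)`, and `δ = 0` would contradict minimality (cut `β[0,s)` off), so
`s ≤ 2Qδ`. If `2i > 2k - ρ`: `δ ≥ d(β s,p) - (k - i) ≥ 9ρ/10 - ρ/2 = 2ρ/5` and `s ≤ b ≤ Cρ`, fine.
(4) symmetric for `i ≥ k`. -/
theorem tame {C A B k ρ : ℤ} {σ : ℤ → X} (hC : 1 ≤ C) (hρ : 1 ≤ ρ) (hσ : m.Geo σ A B)
    (hd : m.Detour C σ A B k ρ) :
    ∃ (β : ℤ → X) (b x u : ℤ), A ≤ x ∧ u ≤ B ∧ 9 * ρ ≤ 10 * (k - x) ∧ 9 * ρ ≤ 10 * (u - k) ∧
      0 ≤ b ∧ b ≤ C * ρ ∧ β 0 = σ x ∧ β b = σ u ∧ m.BiLip (200 * (C + 2)) β 0 b ∧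
      (∀ s i, 0 ≤ s → s ≤ b → A ≤ i → i ≤ k → s ≤ 200 * (C + 2) * m.d (β s) (σ i)) ∧
      (∀ s i, 0 ≤ s → s ≤ b → k ≤ i → i ≤ B → b - s ≤ 200 * (C + 2) * m.d (β s) (σ i)) := by
  classical
  obtain ⟨i0, j0, n0, hAi, hi0, hj0, hjB, hn0, hn00, τ0, hτ00, hτ0n, hτ0p, hτ0a⟩ := hd
  have hAk : A ≤ k := by omega
  have hkB : k ≤ B := by omega
  obtain ⟨Q, hQ⟩ : ∃ Q : ℤ, Q = 100 * (C + 2) := ⟨_, rfl⟩
  have hQ1 : 1 ≤ Q := by omega
  let w : X → ℤ := fun y => if 19 * ρ ≤ 20 * m.d y (σ k) then 1 else Q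
  have hw1 : ∀ y, 1 ≤ w y := by
    intro y; simp only [w]; split_ifs <;> omega
  have hwQ : ∀ y, w y ≤ Q := by
    intro y; simp only [w]; split_ifs <;> omega
  -- the minimiser
  obtain ⟨M, ⟨x, u, W, hAx, hxk, huB, huk, hCW, hWM⟩, hmin⟩ :=
    Int.exists_least_of_bdd (P := fun M => ∃ (x u W : ℤ), A ≤ x ∧ 2 * x ≤ 2 * k - ρ ∧ u ≤ B ∧
      2 * k + ρ ≤ 2 * u ∧ TameC m w (σ x) (σ u) W ∧ W + w (σ u) = M)
    ⟨0, by
      rintro z ⟨x, u, W, -, -, -, -, ⟨τ, n, -, -, -, hW⟩, hz⟩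
      have h1 := tame_card_le (f := fun i => w (τ i)) (fun i => hw1 _) n
      have h2 := hw1 (σ u)
      omega⟩
    ⟨_, i0, j0, _, hAi, by omega, hjB, by omega,
      ⟨fun i => τ0 (i : ℤ), n0.toNat, by simpa using hτ00, by
        simp only [Int.toNat_of_nonneg hn00, hτ0n], fun i hi => by
        have := hτ0p (i : ℤ) (by omega) (by omega)
        simpa only [Nat.cast_add, Nat.cast_one] using this, rfl⟩, rfl⟩
  have hM : M ≤ C * ρ + 1 := by
    have h1 := hmin (∑ i ∈ Finset.range n0.toNat, w (τ0 (i : ℤ)) + w (σ j0))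
      ⟨i0, j0, _, hAi, by omega, hjB, by omega,
      ⟨fun i => τ0 (i : ℤ), n0.toNat, by simpa using hτ00, by
        simp only [Int.toNat_of_nonneg hn00, hτ0n], fun i hi => by
        have := hτ0p (i : ℤ) (by omega) (by omega)
        simpa only [Nat.cast_add, Nat.cast_one] using this, rfl⟩, rfl⟩
    have h2 : ∑ i ∈ Finset.range n0.toNat, w (τ0 (i : ℤ)) = n0 := by
      have h3 : ∑ i ∈ Finset.range n0.toNat, w (τ0 (i : ℤ)) =
          ∑ _i ∈ Finset.range n0.toNat, (1 : ℤ) := by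
        refine Finset.sum_congr rfl fun i hi => ?_
        have h4 := Finset.mem_range.1 hi
        have h5 := hτ0a (i : ℤ) (by omega) (by omega)
        simp only [w]
        rw [if_pos (by omega)]
      rw [h3]
      simp
      exact hn00
    have h3 : w (σ j0) = 1 := by
      have h5 := hτ0a n0 hn00 le_rfl
      rw [hτ0n] at h5
      simp only [w]
      rw [if_pos (by omega)]
    omega
  obtain ⟨τ, n, hτ0, hτn, hτp, hτW⟩ := hCW
  have hpath : m.IsPath (fun i : ℤ => τ i.toNat) 0 (n : ℤ) := by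
    intro i hi hi'
    have := hτp i.toNat (by omega)
    simp only
    rw [show (i + 1).toNat = i.toNat + 1 by omega]
    exact this
  have hcost : ∑ i ∈ Finset.range (n + 1), w (τ i) = M := by
    rw [Finset.sum_range_succ, hτW, hτn, hWM]
  have hnM : (n : ℤ) ≤ C * ρ := by
    have h1 := tame_card_le (f := fun i => w (τ i)) (fun i => hw1 _) (n + 1)
    push_cast at h1
    omega
  -- (1)
  have hnρ : ρ ≤ n := by
    have h1 := hpath.le (i := 0) (j := (n : ℤ)) le_rfl (by omega) le_rfl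
    simp only [Int.toNat_zero, Int.toNat_natCast, hτ0, hτn] at h1
    rw [hσ x u hAx (by omega) huB] at h1
    omega
  have hfar : ∀ s : ℕ, s ≤ n → 9 * ρ ≤ 10 * m.d (τ s) (σ k) := by
    intro s hs
    by_contra hcon
    push Not at hcon
    obtain ⟨h, hh⟩ : ∃ h : ℕ, h = (ρ / 20).toNat := ⟨_, rfl⟩
    have hhρ : 20 * (h : ℤ) ≤ ρ ∧ ρ < 20 * (h : ℤ) + 20 := by omega
    obtain ⟨a, ha1, ha2, ha3⟩ : ∃ a : ℕ, a + h ≤ n ∧ a ≤ s ∧ s ≤ a + h := by
      by_cases h1 : s + h ≤ n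
      · exact ⟨s, h1, le_rfl, by omega⟩
      · exact ⟨s - h, by omega, by omega, by omega⟩
    have hQa : ∀ i ∈ Finset.range (h + 1), w (τ (a + i)) = Q := by
      intro i hi
      have hi' := Finset.mem_range.1 hi
      have h2 : m.d (τ (a + i)) (σ k) ≤ m.d (τ s) (σ k) + h := by
        rcases le_total s (a + i) with h3 | h3
        · have h4 := hpath.le (i := (s : ℤ)) (j := ((a + i : ℕ) : ℤ)) (by omega) (by omega) (by omega)
          simp only [Int.toNat_natCast] at h4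
          have h5 := m.tri (τ (a + i)) (τ s) (σ k)
          rw [m.symm (τ (a + i)) (τ s)] at h5
          omega
        · have h4 := hpath.le (i := ((a + i : ℕ) : ℤ)) (j := (s : ℤ)) (by omega) (by omega) (by omega)
          simp only [Int.toNat_natCast] at h4
          have h5 := m.tri (τ (a + i)) (τ s) (σ k)
          omega
      simp only [w]
      rw [if_neg (by omega)]
    have h3 := tame_split (fun i => w (τ i)) (s := a) (t := a + (h + 1)) (n := n + 1)
      (by omega) (by omega)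
    rw [hcost, Nat.add_sub_cancel_left, Finset.sum_congr rfl hQa, Finset.sum_const,
      Finset.card_range, nsmul_eq_mul] at h3
    have h4 := tame_card_le (f := fun i => w (τ i)) (fun i => hw1 _) a
    have h5 := tame_card_le (f := fun i => w (τ (a + (h + 1) + i))) (fun i => hw1 _)
      (n + 1 - (a + (h + 1)))
    have h6 : ((h + 1 : ℕ) : ℤ) * Q ≤ C * ρ + 1 := by
      have h7 : (0 : ℤ) ≤ (a : ℤ) := by omega
      have h8 : (0 : ℤ) ≤ ((n + 1 - (a + (h + 1)) : ℕ) : ℤ) := by omega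
      linarith
    rw [hQ] at h6
    push_cast at h6
    have h7 : ρ * (100 * (C + 2)) ≤ (20 * (h : ℤ) + 20) * (100 * (C + 2)) :=
      mul_le_mul_of_nonneg_right (by omega) (by omega)
    nlinarith
  -- (2)
  have hseg : ∀ s t : ℕ, s ≤ t → t ≤ n → (t : ℤ) - s ≤ Q * m.d (τ s) (τ t) := by
    intro s t hst ht
    obtain ⟨Wg, hg, hg1, -⟩ := TameC.geo (m := m) hwQ (τ s) (τ t)
    have h1 : TameC m w (τ 0) (τ s) _ := TameC.seg hτp (Nat.zero_le s) (hst.trans ht)
    have h2 : TameC m w (τ t) (τ n) _ := TameC.seg hτp ht le_rfl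
    have h3 := (h1.trans hg).trans h2
    rw [hτ0, hτn] at h3
    have h4 := hmin _ ⟨x, u, _, hAx, hxk, huB, huk, h3, rfl⟩
    have h5 := tame_split (fun i => w (τ i)) hst ht
    rw [hτW] at h5
    have h6 := tame_card_le (f := fun i => w (τ (s + i))) (fun i => hw1 _) (t - s)
    simp only [Nat.sub_zero, Nat.zero_add] at h4
    have h7 : ((t - s : ℕ) : ℤ) = (t : ℤ) - s := by omega
    rw [h7] at h6
    linarith
  have hleft : ∀ (s : ℕ) (i : ℤ), s ≤ n → A ≤ i → 2 * i ≤ 2 * k - ρ →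
      (s : ℤ) ≤ Q * m.d (τ s) (σ i) := by
    intro s i hs hi hik
    obtain ⟨Wg, hg, hg1, -⟩ := TameC.geo (m := m) hwQ (σ i) (τ s)
    have h2 : TameC m w (τ s) (τ n) _ := TameC.seg hτp hs le_rfl
    have h3 := hg.trans h2
    rw [hτn] at h3
    have h4 := hmin _ ⟨i, u, _, hi, hik, huB, huk, h3, rfl⟩
    have h5 := tame_split (fun i => w (τ i)) (Nat.zero_le s) hs
    rw [hτW] at h5
    simp only [Nat.sub_zero, Finset.range_zero, Finset.sum_empty, zero_add] at h5
    have h6 := tame_card_le (f := fun i => w (τ i)) (fun i => hw1 _) s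
    rw [m.symm] at hg1
    linarith
  have hright : ∀ (s : ℕ) (i : ℤ), s ≤ n → i ≤ B → 2 * k + ρ ≤ 2 * i →
      (n : ℤ) - s ≤ Q * m.d (τ s) (σ i) := by
    intro s i hs hi hik
    obtain ⟨Wg, hg, -, hg2⟩ := TameC.geo (m := m) hwQ (τ s) (σ i)
    have h2 : TameC m w (τ 0) (τ s) _ := TameC.seg hτp (Nat.zero_le s) hs
    have h3 := h2.trans hg
    rw [hτ0] at h3
    have h4 := hmin _ ⟨x, i, _, hAx, hxk, hi, hik, h3, rfl⟩
    have h5 := tame_split (fun i => w (τ i)) (s := s) (t := s + 1) (n := n + 1)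
      (by omega) (by omega)
    rw [hcost] at h5
    simp only [Nat.add_sub_cancel_left, Finset.sum_range_one, Nat.add_zero] at h5
    simp only [Nat.sub_zero, Nat.zero_add] at h4
    have h6 := tame_card_le (f := fun i => w (τ (s + 1 + i))) (fun i => hw1 _) (n + 1 - (s + 1))
    have h7 : ((n + 1 - (s + 1) : ℕ) : ℤ) = (n : ℤ) - s := by omega
    rw [h7] at h6
    linarith
  have hQQ : ∀ d : ℤ, 0 ≤ d → Q * d ≤ 200 * (C + 2) * d := by
    intro d hd0
    refine mul_le_mul_of_nonneg_right (by omega) hd0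
  have hmid : ∀ (s : ℕ) (i : ℤ), s ≤ n → A ≤ i → i ≤ B → 2 * |k - i| ≤ ρ →
      (n : ℤ) ≤ 200 * (C + 2) * m.d (τ s) (σ i) := by
    intro s i hs hAi' hiB hik
    have h1 := hfar s hs
    have h2 := m.tri (τ s) (σ i) (σ k)
    rw [hσ.abs hAi' hiB hAk hkB] at h2
    have h3 : 4 * ρ ≤ 10 * m.d (τ s) (σ i) := by omega
    have h4 : C * (4 * ρ) ≤ C * (10 * m.d (τ s) (σ i)) := mul_le_mul_of_nonneg_left h3 (by omega)
    have h5 := m.nonneg (τ s) (σ i)
    have h6 : 0 ≤ C * m.d (τ s) (σ i) := mul_nonneg (by omega) h5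
    have h7 : 200 * (C + 2) * m.d (τ s) (σ i) =
        200 * (C * m.d (τ s) (σ i)) + 400 * m.d (τ s) (σ i) := by ring
    rw [h7]
    nlinarith
  refine ⟨fun i => τ i.toNat, n, x, u, hAx, huB, ?_, ?_, by omega, hnM, ?_, ?_, ⟨hpath, ?_⟩,
    ?_, ?_⟩
  · have h1 := hfar 0 (Nat.zero_le n)
    rw [hτ0, hσ x k hAx (by omega) hkB] at h1
    exact h1
  · have h1 := hfar n le_rfl
    rw [hτn, m.symm, hσ k u hAk (by omega) huB] at h1
    exact h1
  · simp only [Int.toNat_zero, hτ0]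
  · simp only [Int.toNat_natCast, hτn]
  · intro i j hi hij hj
    have h1 := hseg i.toNat j.toNat (by omega) (by omega)
    have h2 := hQQ _ (m.nonneg (τ i.toNat) (τ j.toNat))
    simp only
    omega
  · intro s i hs hs' hAi' hik
    have h2 := hQQ _ (m.nonneg (τ s.toNat) (σ i))
    simp only
    by_cases h3 : 2 * i ≤ 2 * k - ρ
    · have h1 := hleft s.toNat i (by omega) hAi' h3
      omega
    · have h1 := hmid s.toNat i (by omega) hAi' (by omega) (by
        rw [abs_of_nonneg (by omega)]; omega)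
      omega
  · intro s i hs hs' hik hiB
    have h2 := hQQ _ (m.nonneg (τ s.toNat) (σ i))
    simp only
    by_cases h3 : 2 * k + ρ ≤ 2 * i
    · have h1 := hright s.toNat i (by omega) hiB h3
      omega
    · have h1 := hmid s.toNat i (by omega) (by omega) hiB (by
        rw [abs_of_nonpos (by omega)]; omega)
      omega

end GMet

end Pool.Agent.H.MP_21aec1_al.Hy
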