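import Pool.Agent.H.MP_21aec1_al.Hy.TLDef
import Pool.Agent.H.MP_21aec1_al.Hy.Tame
import Pool.Agent.H.MP_21aec1_al.Hy.LoopC

set_option autoImplicit false

namespace Pool.Agent.H.MP_21aec1_al.Hy

variable {X : Type} {m : GMet X}

/-- CASE (A): a loop `c` whose geodesic side `[0,κ]` has a detour of ratio `10^22` around a point
`c k` of its middle third, at a scale `ρ` small compared to `κ`, gives `TL` data with `H = 0`.
Proof. `tame` (`C = 10^22`, `σ = c` on `[0,κ]`): `β`, `b ≤ 10^22 ρ`, `x`, `u`; `K1 = 200(10^22+2)`.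
`handle_loop`: small loop `c'` with period `ℓ' = u - x + b`, `2 K1 + 1 ≤ 10^25`.
`C i = c (k + i)`, `γ t = c' (t + (k - x))`: `γ t = C t` for `x - k ≤ t ≤ u - k`,
`γ (u - k + j) = β (b - j)`; `tR = kP = u - k ≥ 9ρ/10`, `tL = kQ = x - k`, `R = κ/4`,
`N3 = ℓ' - tR + tL = b`. `u - x ≤ b` (`u - x = d(β 0, β b) ≤ b`), so `ℓ' ≤ 2 b ≤ 2*10^22 ρ`.
DV: `γ (tR + n) = β (b - n)`, tameness. NR1, NR2: geodesic. F1,F2,F3,GS: `γ (tL - n) = β n`
(`0 ≤ n ≤ b`; periodicity), `d(C kQ, β n) = d(β 0, β n) ≤ n` and `n ≤ ℓ'/10^95` is tiny compared to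
`ρ`, use the triangle inequality; for GS with `t > tR` also `γ t` is within `t - tR` of
`γ tR = C kP`. -/
theorem tl_of_detour {c : ℤ → X} {κ ℓ k ρ : ℤ} (hκℓ : κ ≤ ℓ) (hℓ : ℓ ≤ 10 ^ 8 * κ)
    (hg : m.Geo c 0 κ) (hc : m.Cyc (10 ^ 8) c ℓ) (hk : κ ≤ 3 * k) (hk' : 3 * k ≤ 2 * κ)
    (hρ : 10 ^ 131 ≤ ρ) (hρκ : 10 ^ 60 * ρ ≤ κ) (hd : m.Detour (10 ^ 22) c 0 κ k ρ) :
    ∃ (R ℓ' : ℤ) (C γ : ℤ → X) (tL tR kQ kP : ℤ), ρ ≤ 2 * tR ∧
      TL m 0 R ℓ ℓ' C γ tL tR kQ kP := by
  obtain ⟨β, b, x, u, hx0, huκ, hxk, huk, hb0, hbC, hβ0, hβb, hβ, hl, hr⟩ :=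
    GMet.tame (C := 10 ^ 22) (by norm_num) (by omega) hg hd
  have hK1 : (200 * (10 ^ 22 + 2) : ℤ) ≤ 10 ^ 25 := by norm_num
  obtain ⟨c', hc', hc1, hc2⟩ := GMet.handle_loop (K1 := 200 * (10 ^ 22 + 2)) (k := k)
    (by norm_num) hg hx0 huκ (by omega) (by omega) hb0 hβ0 hβb hβ hl hr
  have hux : m.d (c x) (c u) = u - x := hg x u hx0 (by omega) huκ
  have huxb : u - x ≤ b := by
    have h1 := hβ.1.le (le_refl 0) hb0 (le_refl b)
    rw [hβ0, hβb, hux] at h1
    omega
  have hR1 : κ / 4 * 4 ≤ κ := by omega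
  have hR2 : κ ≤ κ / 4 * 4 + 3 := by omega
  obtain ⟨R, hRdef⟩ : ∃ R, R = κ / 4 := ⟨_, rfl⟩
  rw [← hRdef] at hR1 hR2
  -- the big loop, distances
  have hgC : m.Geo (fun i => c (i + k)) (-R) R := by
    intro i j hi hij hj
    have := hg (i + k) (j + k) (by omega) (by omega) (by omega)
    simp only
    rw [this]
    omega
  have hcycγ : m.Cyc (10 ^ 25) (fun t => c' (t + (k - x))) (u - x + b) :=
    (hc'.mono (by norm_num)).shift _
  have hγ1 : ∀ t, x - k ≤ t → t ≤ u - k → (fun t => c' (t + (k - x))) t = c (t + k) := by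
    intro t ht ht'
    simp only
    rw [hc1 _ (by omega) (by omega)]
    congr 1
    omega
  have hγ2 : ∀ n, 0 ≤ n → n ≤ b → (fun t => c' (t + (k - x))) (u - k + n) = β (b - n) := by
    intro n hn hn'
    simp only
    rw [← hc2 n hn hn']
    congr 1
    omega
  have hγ3 : ∀ n, 0 ≤ n → n ≤ b → (fun t => c' (t + (k - x))) (x - k - n) = β n := by
    intro n hn hn'
    have h1 := hcycγ.1 (x - k - n)
    have h2 := hγ2 (b - n) (by omega) (by omega)
    rw [show x - k - n + (u - x + b) = u - k + (b - n) by omega, h2] at h1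
    rw [← h1]
    congr 1
    omega
  have hβn : ∀ n, 0 ≤ n → n ≤ b → m.d (c x) (β n) ≤ n := by
    intro n hn hn'
    have h1 := hβ.1.le (le_refl 0) hn hn'
    rw [hβ0] at h1
    omega
  have hℓρ : u - x + b ≤ 2 * (10 ^ 22 * ρ) := by omega
  refine ⟨R, u - x + b, fun i => c (i + k), fun t => c' (t + (k - x)), x - k, u - k, x - k, u - k,
    by omega, ?_⟩
  generalize hγdef : (fun t => c' (t + (k - x))) = γ at hcycγ hγ1 hγ2 hγ3
  generalize hCdef : (fun i => c (i + k)) = Cc at hgC
  have hCv : ∀ i, Cc i = c (i + k) := by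
    intro i
    rw [← hCdef]
  have hCQ : Cc (x - k) = c x := by
    rw [hCv]
    congr 1
    omega
  have hCP : Cc (u - k) = c u := by
    rw [hCv]
    congr 1
    omega
  have hγC : ∀ t, x - k ≤ t → t ≤ u - k → γ t = Cc t := by
    intro t ht ht'
    rw [hγ1 t ht ht', hCv]
  have hsmall : ∀ y, 0 ≤ y → 10 ^ 95 * y ≤ u - x + b → 1000 * y ≤ ρ := by
    intro y hy hy'
    omega
  have hρb : ρ ≤ b := by omega
  have hdQ : ∀ y, 0 ≤ y → 10 ^ 95 * y ≤ u - x + b →
      m.d (Cc (x - k)) (γ (x - k - y)) ≤ y := by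
    intro y hy hy'
    have h1 := hsmall y hy hy'
    rw [hCQ, hγ3 y hy (by omega)]
    exact hβn y hy (by omega)
  exact
    { cycC := by
        rw [← hCdef]
        exact (hc.mono (by norm_num)).shift k
      geoC := hgC
      lR := by omega
      lR' := by omega
      Rl := by omega
      cycg := hcycγ
      tL0 := by omega
      kQ0 := by omega
      kP0 := by omega
      kQl := by omega
      kPl := by omega
      g0 := hγC 0 (by omega) (by omega)
      hP := by
        rw [hγC _ (by omega) (by omega), m.self]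
      hQ := by
        rw [hγC _ (by omega) (by omega), m.self]
      H0 := le_refl 0
      half := by omega
      big := by omega
      al := by omega
      DV := by
        intro v n hv hv' hn hn'
        rw [show u - x + b - (u - k) + (x - k) = b by omega] at hn' ⊢
        rw [hγ2 n hn hn', hCv, m.symm]
        have hd0 := m.nonneg (β (b - n)) (c (v + k))
        have h2 : 200 * (10 ^ 22 + 2) * m.d (β (b - n)) (c (v + k)) ≤
          10 ^ 25 * m.d (β (b - n)) (c (v + k)) := mul_le_mul_of_nonneg_right hK1 hd0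
        rcases le_total v 0 with h | h
        · have h1 := hl (b - n) (v + k) (by omega) (by omega) (by omega) (by omega)
          exact (min_le_right _ _).trans (h1.trans h2)
        · have h1 := hr (b - n) (v + k) (by omega) (by omega) (by omega) (by omega)
          refine (min_le_left _ _).trans (le_trans ?_ (h1.trans h2))
          omega
      NR1 := by
        intro v t hv hv' ht ht'
        rw [hγC t (by omega) ht', hgC v t hv (by omega) (by omega)]
        omega
      NR2 := by
        intro v t hv hv' ht ht'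
        rw [hγC t (by omega) ht', m.symm, hgC t v (by omega) (by omega) hv']
        omega
      F1 := by
        intro v y hv hv' hy hy'
        have h1 := hdQ y hy hy'
        have h2 := hsmall y hy hy'
        have h3 := hgC (x - k) v (by omega) (by omega) hv'
        have h4 := m.tri (Cc (x - k)) (γ (x - k - y)) (Cc v)
        rw [m.symm (γ (x - k - y)) (Cc v)] at h4
        omega
      F2 := by
        intro z y hz hz' hy hy'
        have h1 := hdQ y hy hy'
        have h2 := hsmall y hy hy'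
        have h3 := hgC (x - k - z) (x - k) (by omega) (by omega) (by omega)
        have h4 := m.tri (Cc (x - k - z)) (γ (x - k - y)) (Cc (x - k))
        rw [m.symm (γ (x - k - y)) (Cc (x - k))] at h4
        omega
      F3 := by
        intro z y hz hz' hy hy'
        have h1 := hdQ y hy hy'
        have h2 := hsmall y hy hy'
        have h3 := hgC (x - k) (x - k + z) (by omega) (by omega) (by omega)
        have h4 := m.tri (Cc (x - k)) (γ (x - k - y)) (Cc (x - k + z))
        rw [m.symm (γ (x - k - y)) (Cc (x - k + z))] at h4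
        omega
      GS := by
        intro t y ht ht' ht2 hy hy'
        have h1 := hdQ y hy hy'
        have h2 := hsmall y hy hy'
        rcases le_total t (u - k) with h | h
        · rw [hγC t (by omega) h]
          have h3 := hgC (x - k) t (by omega) (by omega) (by omega)
          have h4 := m.tri (Cc (x - k)) (γ (x - k - y)) (Cc t)
          rw [m.symm (γ (x - k - y)) (Cc t)] at h4
          omega
        · have h5 := hsmall (t - (u - k)) (by omega) ht'
          have h3 := hgC (x - k) (u - k) (by omega) (by omega) (by omega)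
          have h6 := (hcycγ.isPath (u - k) t).le (le_refl _) h (le_refl _)
          rw [hγC (u - k) (by omega) (le_refl _)] at h6
          have h4 := m.tri (Cc (x - k)) (γ (x - k - y)) (Cc (u - k))
          have h7 := m.tri (γ (x - k - y)) (γ t) (Cc (u - k))
          rw [m.symm (γ t) (Cc (u - k)), m.symm (γ (x - k - y)) (γ t)] at h7
          omega }

end Pool.Agent.H.MP_21aec1_al.Hy
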