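import Pool.Agent.H.MP_21aec1_al.Hy.LemF

set_option autoImplicit false

namespace Pool.Agent.H.MP_21aec1_al.Hy

variable {X : Type} {m : GMet X}

/-- The properties F1, F2, F3, GS of `TL` (with `R = κ/10^62`).
Notation `H = 2*(10^22*r0)`, `z = γ (tL - x)`, `10^95 x ≤ ℓ' ≤ 10^9 κ'`, so `10^86 x ≤ κ'`.
MICRO (`10^62 tR ≤ κ'`, `-κ' ≤ 10^62 tL`): F1, F2, F3 from `Hub.lemF`: F1: `v - kQ = (v - kP) +
(kP - kQ)`, `kP - kQ ≥ 10^65 r0`. F2: `y ≥ (tR-kQ)/8` is large. F3 clear. (For F2, `y ≤ ℓ'`, so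
`10^62 |kQ - y| ≤ κ`.) GS: `γ` is geodesic on `[-κ',κ']`: `d(γ t, z) = t - tL + x ≥ x + H ≥
d(C kQ, z)`.
MACRO (otherwise): `tR - tL ≥ κ'/10^62`, and by `kP_bounds` (and its reflection)
`kP ≥ tR/10^8 - 10^33 r0`, `-kQ ≥ -tL/10^8 - 10^33 r0`; so `kP - kQ` and `a = tR - kQ` are
`≥ κ'/(2*10^70) ≥ 10^15 x`, also `≥ 10^100 r0`. Then everything follows from
`d(γ tL, z) ≤ x`, `d(C kQ, γ tL) ≤ H` and the triangle inequality (GS for `t ≤ tR`: `nr1` at
`v = kQ`: `d(C kQ, γ t) ≥ (t - kQ)/10^9 ≥ a/(8*10^9)`; for `t > tR`: compare with `γ tR`,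
`t - tR ≤ ℓ'/10^95`). -/
theorem Hub.fprops {r0 κ1 κ' ℓ' κ ℓ : ℤ} {γ C : ℤ → X} (h : LPair m r0 κ1 κ' ℓ' κ ℓ γ C)
    {tL tR kQ kP : ℤ} (hh : Hub m r0 κ1 κ ℓ' γ C tL tR kQ kP) :
    (∀ v x, kP ≤ v → v ≤ κ / 10 ^ 62 → 0 ≤ x → 10 ^ 95 * x ≤ ℓ' →
      (v - kP) + m.d (C kQ) (γ (tL - x)) ≤ m.d (C v) (γ (tL - x))) ∧
    (∀ y x, tR - kQ ≤ 8 * y → y ≤ ℓ' → 0 ≤ x → 10 ^ 95 * x ≤ ℓ' →
      2 * m.d (C kQ) (γ (tL - x)) + y ≤ 2 * m.d (C (kQ - y)) (γ (tL - x))) ∧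
    (∀ y x, tR - kQ ≤ 8 * y → kQ + y ≤ 0 → 0 ≤ x → 10 ^ 95 * x ≤ ℓ' →
      m.d (C kQ) (γ (tL - x)) ≤ m.d (C (kQ + y)) (γ (tL - x))) ∧
    (∀ t x, 0 ≤ t → 10 ^ 95 * (t - tR) ≤ ℓ' → tR - kQ ≤ 8 * (t - kQ) → 0 ≤ x →
      10 ^ 95 * x ≤ ℓ' → m.d (C kQ) (γ (tL - x)) ≤ m.d (γ t) (γ (tL - x))) := by
  have hb := hh.kP_bounds h
  have hb' := (hh.neg h.small.cyc).kP_bounds h.neg
  obtain ⟨b1, b2, b3⟩ := hb
  obtain ⟨b4, b5, b6⟩ := hb'
  have hr0 := h.big.r0pos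
  have hup := h.small.up
  have hκ1 := h.h1
  have hκ2 := h.h2
  have hκ3 := h.h3
  have c1 := hh.tR1
  have c2 := hh.tR4
  have c3 := hh.tL1
  have c4 := hh.tL4
  have c5 := hh.kP1
  have c6 := hh.kP2
  have c7 := hh.kQ1
  have c8 := hh.kQ2
  have c9 := hh.hP
  have c10 := hh.hQ
  have dQ : ∀ x, 0 ≤ x → m.d (C kQ) (γ (tL - x)) ≤ 2 * (10 ^ 22 * r0) + x := by
    intro x hx
    have h1 := m.tri (C kQ) (γ tL) (γ (tL - x))
    have h2 := (h.small.cyc.isPath (tL - x) tL).le (i := tL - x) (j := tL) (le_refl _)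
      (by omega) (le_refl _)
    have h3 := m.symm (C kQ) (γ tL)
    have h4 := m.symm (γ tL) (γ (tL - x))
    omega
  have tri2 : ∀ v x, m.d (C v) (C kQ) - m.d (C kQ) (γ (tL - x)) ≤ m.d (C v) (γ (tL - x)) := by
    intro v x
    have h1 := m.tri (C v) (γ (tL - x)) (C kQ)
    have h2 := m.symm (C kQ) (γ (tL - x))
    omega
  have tri3 : ∀ t x, m.d (C kQ) (γ t) - m.d (C kQ) (γ (tL - x)) ≤ m.d (γ t) (γ (tL - x)) := by
    intro t x
    have h1 := m.tri (C kQ) (γ (tL - x)) (γ t)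
    have h2 := m.symm (γ t) (γ (tL - x))
    omega
  by_cases hmic : 10 ^ 62 * tR ≤ κ' ∧ -κ' ≤ 10 ^ 62 * tL
  · obtain ⟨hmR, hmL⟩ := hmic
    refine ⟨?_, ?_, ?_, ?_⟩
    · intro v x hv hv' hx hx'
      have h1 : |v| = v := abs_of_nonneg (by omega)
      have h2 : |v - kQ| = v - kQ := abs_of_nonneg (by omega)
      have h3 := hh.lemF h hmR hmL (v := v) (x := x) (by rw [h1]; omega) hx (by omega)
      rw [h2] at h3
      omega
    · intro y x hy hy' hx hx'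
      have h1 : |kQ - y| = y - kQ := by rw [abs_of_nonpos (by omega)]; omega
      have h2 : |kQ - y - kQ| = y := by rw [abs_of_nonpos (by omega)]; omega
      have h3 := hh.lemF h hmR hmL (v := kQ - y) (x := x) (by rw [h1]; omega) hx (by omega)
      rw [h2] at h3
      omega
    · intro y x hy hy' hx hx'
      have h1 : |kQ + y| = -(kQ + y) := abs_of_nonpos (by omega)
      have h2 : |kQ + y - kQ| = y := by rw [abs_of_nonneg (by omega)]; omega
      have h3 := hh.lemF h hmR hmL (v := kQ + y) (x := x) (by rw [h1]; omega) hx (by omega)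
      rw [h2] at h3
      omega
    · intro t x ht ht' hta hx hx'
      have h1 := dQ x hx
      have h2 := h.small.geo (tL - x) t (by omega) (by omega) (by omega)
      rw [m.symm (γ t), h2]
      omega
  · have hmac : κ' ≤ 10 ^ 62 * (tR - tL) := by omega
    have hgeo := h.big.geo
    refine ⟨?_, ?_, ?_, ?_⟩
    · intro v x hv hv' hx hx'
      have h1 := dQ x hx
      have h2 := tri2 v x
      have h3 := hgeo kQ v c7 (by omega) (by omega)
      rw [m.symm] at h3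
      omega
    · intro y x hy hy' hx hx'
      have h1 := dQ x hx
      have h2 := tri2 (kQ - y) x
      have h3 := hgeo (kQ - y) kQ (by omega) (by omega) c8
      omega
    · intro y x hy hy' hx hx'
      have h1 := dQ x hx
      have h2 := tri2 (kQ + y) x
      have h3 := hgeo kQ (kQ + y) c7 (by omega) (by omega)
      rw [m.symm] at h3
      omega
    · intro t x ht ht' hta hx hx'
      have h1 := dQ x hx
      have h2 := tri3 t x
      by_cases htR : t ≤ tR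
      · have h3 := hh.nr1 h (v := kQ) (t := t) c7 (by omega) ht htR
        omega
      · have h3 := hh.nr1 h (v := kQ) (t := tR) c7 (by omega) (by omega) (le_refl _)
        have h4 := (h.small.cyc.isPath tR t).le (i := tR) (j := t) (le_refl _) (by omega)
          (le_refl _)
        have h5 := m.tri (C kQ) (γ t) (γ tR)
        have h6 := m.symm (γ t) (γ tR)
        omega

end Pool.Agent.H.MP_21aec1_al.Hy
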