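import Pool.Agent.H.MP_21aec1_al.Hy.MidFar

set_option autoImplicit false

namespace Pool.Agent.H.MP_21aec1_al.Hy

variable {X : Type} {m : GMet X}

/-- largest integer with a property in an interval -/
private theorem hubB_exists_max {P : ℤ → Prop} {a b : ℤ} (hab : a ≤ b) (ha : P a) :
    ∃ t, a ≤ t ∧ t ≤ b ∧ P t ∧ ∀ s, t < s → s ≤ b → ¬ P s := by
  classical
  obtain ⟨n, rfl⟩ : ∃ n : ℕ, b = a + n := ⟨(b - a).toNat, by omega⟩
  induction n with
  | zero => exact ⟨a, le_refl _, by simp, ha, fun s h1 h2 => by simp at h2; omega⟩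
  | succ n ih =>
    by_cases hP : P (a + (n + 1 : ℕ))
    · exact ⟨_, by omega, le_refl _, hP, fun s h1 h2 => by omega⟩
    · obtain ⟨t, h1, h2, h3, h4⟩ := ih (by omega)
      refine ⟨t, h1, by push_cast; omega, h3, fun s hs hs' => ?_⟩
      rcases lt_or_eq_of_le hs' with h5 | h5
      · exact h4 s hs (by push_cast at h5; omega)
      · rw [h5]; exact hP

/-- Existence of hubs: `tR` = the largest `t ≤ ℓ'/2` with `γ t` near (`t = κ1` is near; by
`midfar` `4 tR < ℓ'`), `tL` = the smallest `t ≥ -ℓ'/2` with `γ t` near. -/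
theorem LPair.exists_hub {r0 κ1 κ' ℓ' κ ℓ : ℤ} {γ C : ℤ → X}
    (h : LPair m r0 κ1 κ' ℓ' κ ℓ γ C) :
    ∃ tL tR kQ kP, Hub m r0 κ1 κ ℓ' γ C tL tR kQ kP := by
  have hr0 := h.big.r0pos
  have hkb := h.big.kbig
  have hup := h.small.up
  have hlo := h.small.lo
  have h1 := h.h1
  have h2 := h.h2
  have h3 := h.h3
  have hcyc := h.small.cyc
  set H : ℤ := 2 * (10 ^ 22 * r0) with hH
  have n1 : m.Nr C (-κ) κ H (γ κ1) :=
    ⟨κ1, by omega, by omega, by rw [h.com κ1 (by omega) (by omega), m.self]; omega⟩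
  have n2 : m.Nr C (-κ) κ H (γ (-κ1)) :=
    ⟨-κ1, by omega, by omega, by rw [h.com (-κ1) (by omega) (by omega), m.self]; omega⟩
  obtain ⟨tR, a1, a2, a3, a4⟩ := hubB_exists_max (P := fun t => m.Nr C (-κ) κ H (γ t))
    (a := κ1) (b := ℓ' / 2) (by omega) n1
  obtain ⟨s, b1, b2, b3, b4⟩ := hubB_exists_max (P := fun t => m.Nr C (-κ) κ H (γ (-t)))
    (a := κ1) (b := ℓ' / 2) (by omega) n2
  have a5 : 4 * tR ≤ ℓ' := by
    by_contra hcon
    exact h.midfar (t := tR) (by omega) (by omega) a3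
  have b5 : 4 * s ≤ ℓ' := by
    by_contra hcon
    refine h.midfar (t := ℓ' - s) (by omega) (by omega) ?_
    have : γ (ℓ' - s) = γ (-s) := by
      rw [← hcyc.1 (-s)]
      congr 1
      omega
    rw [this]
    exact b3
  obtain ⟨kP, p1, p2, p3⟩ := a3
  obtain ⟨kQ, q1, q2, q3⟩ := b3
  refine ⟨-s, tR, kQ, kP, ?_⟩
  refine ⟨a1, a5, by omega, by omega, p1, p2, q1, q2, p3, q3, ?_⟩
  intro t ht ht' hn
  rcases le_or_gt t (ℓ' / 2) with h5 | h5
  · exact a4 t ht h5 hn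
  · refine b4 (ℓ' - t) (by omega) (by omega) ?_
    have : γ (-(ℓ' - t)) = γ t := by
      rw [← hcyc.1 (-(ℓ' - t))]
      congr 1
      omega
    rw [this]
    exact hn

end Pool.Agent.H.MP_21aec1_al.Hy
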