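import Pool.Agent.H.MP_21aec1_al.Hy.FactB

set_option autoImplicit false

namespace Pool.Agent.H.MP_21aec1_al.Hy

variable {X : Type} {m : GMet X}

/-- DIVERGENCE OF THE SMALL LOOP. For `2n ≤ N3 = ℓ' - tR + tL`: `DFL.dvg` (base `C`,
`K = 10^8`) for `γ` on `[tR, tR+n]` (arc of length `≤ ℓ'/2`, `Cyc.biLip`; `Hub.far`). For
`2n > N3`: the path `j ↦ γ (tL - j)`, `0 ≤ j ≤ N3 - n`; note `γ (tR + n) = γ (tL - (N3 - n))`
by periodicity. -/
theorem Hub.dv {r0 κ1 κ' ℓ' κ ℓ : ℤ} {γ C : ℤ → X} (h : LPair m r0 κ1 κ' ℓ' κ ℓ γ C)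
    {tL tR kQ kP : ℤ} (hh : Hub m r0 κ1 κ ℓ' γ C tL tR kQ kP) {v n : ℤ} (hv : -κ ≤ v)
    (hv' : v ≤ κ) (hn : 0 ≤ n) (hn' : n ≤ ℓ' - tR + tL) :
    min n (ℓ' - tR + tL - n) ≤ 32 * (10 ^ 8 * m.d (γ (tR + n)) (C v)) := by
  have h1 := h.h1
  have h3 := h.h3
  have hr0 := h.big.r0pos
  have a1 := hh.tR1
  have a2 := hh.tR4
  have a3 := hh.tL1
  have a4 := hh.tL4
  have hcy := h.small.cyc
  have h00 : γ 0 = C 0 := h.com 0 (by omega) (by omega)
  by_cases hc : 2 * n ≤ ℓ' - tR + tL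
  · rw [min_eq_left (by omega)]
    have hd := (hcy.isPath 0 tR).le (le_refl 0) (show (0:ℤ) ≤ tR by omega) (le_refl _)
    rw [m.symm, h00] at hd
    have := h.big.dvg (K := 10 ^ 8) (f := γ) (s := tR) (t := tR + n) (by norm_num) (by norm_num)
      (by omega) (hcy.biLip (by omega)) (by omega) (by omega)
      ⟨kP, hh.kP1, hh.kP2, hh.hP⟩ (fun i hi hi' => hh.far i hi (by omega)) hv hv'
    omega
  · rw [min_eq_right (by omega)]
    have hd := (hcy.isPath tL 0).le (le_refl tL) (show tL ≤ 0 by omega) (le_refl _)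
    rw [h00] at hd
    have hbl : m.BiLip (10 ^ 8) (fun j => γ (tL - j)) 0 (ℓ' - tR + tL - n) := by
      have := (hcy.neg.shift (-tL)).biLip (s := 0) (t := ℓ' - tR + tL - n) (by omega)
      have e : (fun i => γ (-(i + -tL))) = fun j => γ (tL - j) := by
        funext j
        congr 1
        omega
      rwa [e] at this
    have := h.big.dvg (K := 10 ^ 8) (f := fun j => γ (tL - j)) (s := 0) (t := ℓ' - tR + tL - n)
      (by norm_num) (by norm_num) (by omega) hbl (by omega)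
      (by simp only [sub_zero]; omega)
      (by simp only [sub_zero]; exact ⟨kQ, hh.kQ1, hh.kQ2, hh.hQ⟩)
      (fun i hi hi' => by
        have := hh.far (tL - i + ℓ') (by omega) (by omega)
        rwa [hcy.1] at this) hv hv'
    rw [show tL - (ℓ' - tR + tL - n) = tR + n - ℓ' by omega, hcy.periodic] at this
    omega

end Pool.Agent.H.MP_21aec1_al.Hy
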