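import Pool.Agent.H.MP_21aec1_al.Hy.TLDef
import Pool.Agent.H.MP_21aec1_al.Hy.FProps
import Pool.Agent.H.MP_21aec1_al.Hy.HubB
import Pool.Agent.H.MP_21aec1_al.Hy.HubDv

set_option autoImplicit false

namespace Pool.Agent.H.MP_21aec1_al.Hy

variable {X : Type} {m : GMet X}

/-- CASE (B): a pair of loops gives `TL` data (`H = 2*(10^22*r0)`, `R = κ/10^62`).
Collect `exists_hub`, `Hub.dv`, `Hub.nr1`, `Hub.nr2`, `Hub.kP_bounds`, `Hub.fprops` and the
reflected `kP_bounds` for `kQ`. -/
theorem tl_of_pair {r0 κ1 κ' ℓ' κ ℓ : ℤ} {γ C : ℤ → X} (h : LPair m r0 κ1 κ' ℓ' κ ℓ γ C) :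
    ∃ (tL tR kQ kP : ℤ), κ1 ≤ tR ∧
      TL m (2 * (10 ^ 22 * r0)) (κ / 10 ^ 62) ℓ ℓ' C γ tL tR kQ kP := by
  obtain ⟨tL, tR, kQ, kP, hh⟩ := h.exists_hub
  have hr0 := h.big.r0pos
  have hkb := h.big.kbig
  have hks := h.small.kbig
  have hup := h.small.up
  have hlo := h.small.lo
  have hupb := h.big.up
  have hlob := h.big.lo
  have h1 := h.h1
  have h2 := h.h2
  have h3 := h.h3
  have t1 := hh.tR1
  have t2 := hh.tL1
  have t3 := hh.tR4
  have t4 := hh.tL4
  obtain ⟨p1, p2, p3⟩ := Hub.kP_bounds h hh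
  obtain ⟨q1, q2, q3⟩ := Hub.kP_bounds h.neg (hh.neg h.small.cyc)
  obtain ⟨f1, f2, f3, f4⟩ := Hub.fprops h hh
  refine ⟨tL, tR, kQ, kP, t1, ?_⟩
  refine
    { cycC := h.big.cyc.mono (by norm_num)
      geoC := h.big.geo.mono (by omega) (by omega)
      lR := by omega
      lR' := by omega
      Rl := by omega
      cycg := h.small.cyc.mono (by norm_num)
      tL0 := by omega
      kQ0 := by omega
      kP0 := by omega
      kQl := by omega
      kPl := by omega
      g0 := h.com 0 (by omega) (by omega)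
      hP := by rw [m.symm]; exact hh.hP
      hQ := by rw [m.symm]; exact hh.hQ
      H0 := by omega
      half := by omega
      big := by omega
      al := by omega
      DV := ?_
      NR1 := ?_
      NR2 := ?_
      F1 := f1
      F2 := f2
      F3 := f3
      GS := f4 }
  · intro v n hv hv' hn hn'
    have a1 := Hub.dv h hh (v := v) (n := n) (by omega) (by omega) hn hn'
    have a2 := m.nonneg (C v) (γ (tR + n))
    rw [m.symm] at a1
    omega
  · intro v t hv hv' ht ht'
    have a1 := Hub.nr1 h hh (v := v) (t := t) (by omega) (by omega) ht ht'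
    have a2 := m.nonneg (C v) (γ t)
    omega
  · intro v t hv hv' ht ht'
    have a1 := Hub.nr2 h hh (v := v) (t := t) hv (by omega) ht ht'
    have a2 := m.nonneg (C v) (γ t)
    omega

end Pool.Agent.H.MP_21aec1_al.Hy
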