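import Mathlib

set_option autoImplicit false

namespace Pool.Agent.H.MP_21aec1_al.Hy

/-- COUNTING. `f w t = (type, index)` for `w ≤ W`, `t ≤ K0`; the index is in `[a-1,b+1]`; equal
images have equal `w`; equal images with a middle index (`a + J < k < b - J`) have equal `t`.
Then `(W+1)(K0+1) ≤ r (b-a+3) + r (2J+4)(K0+1)`, `r = card ι`.
(Split the pairs `(w,t)` into those with a middle index — injective into `ι × [a-1,b+1]` — and the
others: `k ∈ [a-1, a+J] ∪ [b-J, b+1]`, `2J+4` values, where `(w,t) ↦ (f w t, t)` is injective.) -/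
theorem count {ι : Type} [Fintype ι] (W K0 : ℕ) (f : ℕ → ℕ → ι × ℤ) (a b J : ℤ)
    (hJ : 0 ≤ J) (hab : a + 2 * J + 2 ≤ b)
    (hr : ∀ w t, w ≤ W → t ≤ K0 → a - 1 ≤ (f w t).2 ∧ (f w t).2 ≤ b + 1)
    (h1 : ∀ w t w' t', w ≤ W → t ≤ K0 → w' ≤ W → t' ≤ K0 → f w t = f w' t' → w = w')
    (h2 : ∀ w t t', w ≤ W → t ≤ K0 → t' ≤ K0 → f w t = f w t' →
      a + J < (f w t).2 → (f w t).2 < b - J → t = t') :
    ((W : ℤ) + 1) * (K0 + 1) ≤
      Fintype.card ι * (b - a + 3) + Fintype.card ι * (2 * J + 4) * (K0 + 1) := by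
  classical
  set S : Finset (ℕ × ℕ) := Finset.range (W + 1) ×ˢ Finset.range (K0 + 1) with hS
  set p : ℕ × ℕ → Prop := fun q => a + J < (f q.1 q.2).2 ∧ (f q.1 q.2).2 < b - J with hp
  have hcard : S.card = (W + 1) * (K0 + 1) := by simp [hS]
  have hsplit := Finset.card_filter_add_card_filter_not (s := S) p
  have hmem : ∀ q ∈ S, q.1 ≤ W ∧ q.2 ≤ K0 := by
    intro q hq
    simp only [hS, Finset.mem_product, Finset.mem_range] at hq
    omega
  have hA : (S.filter p).card ≤ Fintype.card ι * (b - a + 3).toNat := by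
    have h : (S.filter p).card ≤
        ((Finset.univ : Finset ι) ×ˢ Finset.Icc (a - 1) (b + 1)).card := by
      refine Finset.card_le_card_of_injOn (fun q => f q.1 q.2) ?_ ?_
      · intro q hq
        have hq' := Finset.mem_filter.1 (Finset.mem_coe.1 hq)
        obtain ⟨h3, h4⟩ := hmem q hq'.1
        have h5 := hr q.1 q.2 h3 h4
        simp only [Finset.coe_product, Finset.coe_univ, Finset.coe_Icc, Set.mem_prod,
          Set.mem_univ, true_and, Set.mem_Icc]
        exact h5
      · intro q hq q' hq' he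
        have hq1 := Finset.mem_filter.1 (Finset.mem_coe.1 hq)
        have hq2 := Finset.mem_filter.1 (Finset.mem_coe.1 hq')
        obtain ⟨h3, h4⟩ := hmem q hq1.1
        obtain ⟨h5, h6⟩ := hmem q' hq2.1
        have e1 : q.1 = q'.1 := h1 q.1 q.2 q'.1 q'.2 h3 h4 h5 h6 he
        have he' : f q.1 q.2 = f q.1 q'.2 := by
          rw [show f q.1 q'.2 = f q'.1 q'.2 by rw [e1]]
          exact he
        have e2 : q.2 = q'.2 := h2 q.1 q.2 q'.2 h3 h4 h6 he' hq1.2.1 hq1.2.2
        exact Prod.ext e1 e2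
    refine h.trans (le_of_eq ?_)
    rw [Finset.card_product, Finset.card_univ, Int.card_Icc]
    congr 2
    omega
  have hB : (S.filter (fun q => ¬ p q)).card ≤
      Fintype.card ι * (2 * J + 4).toNat * (K0 + 1) := by
    have h : (S.filter (fun q => ¬ p q)).card ≤
        (((Finset.univ : Finset ι) ×ˢ (Finset.Icc (a - 1) (a + J) ∪ Finset.Icc (b - J) (b + 1)))
          ×ˢ Finset.range (K0 + 1)).card := by
      refine Finset.card_le_card_of_injOn (fun q => (f q.1 q.2, q.2)) ?_ ?_
      · intro q hq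
        have hq' := Finset.mem_filter.1 (Finset.mem_coe.1 hq)
        obtain ⟨h3, h4⟩ := hmem q hq'.1
        have h5 := hr q.1 q.2 h3 h4
        have h6 : ¬ (a + J < (f q.1 q.2).2 ∧ (f q.1 q.2).2 < b - J) := hq'.2
        simp only [Finset.coe_product, Finset.coe_univ, Finset.coe_union, Finset.coe_Icc,
          Finset.coe_range, Set.mem_prod, Set.mem_univ, true_and, Set.mem_union, Set.mem_Icc,
          Set.mem_Iio]
        omega
      · intro q hq q' hq' he
        have hq1 := Finset.mem_filter.1 (Finset.mem_coe.1 hq)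
        have hq2 := Finset.mem_filter.1 (Finset.mem_coe.1 hq')
        obtain ⟨h3, h4⟩ := hmem q hq1.1
        obtain ⟨h5, h6⟩ := hmem q' hq2.1
        have he' : (f q.1 q.2, q.2) = (f q'.1 q'.2, q'.2) := he
        have e2 : q.2 = q'.2 := (Prod.ext_iff.1 he').2
        have e3 : f q.1 q.2 = f q'.1 q'.2 := (Prod.ext_iff.1 he').1
        have e1 : q.1 = q'.1 := h1 q.1 q.2 q'.1 q'.2 h3 h4 h5 h6 e3
        exact Prod.ext e1 e2
    refine h.trans ?_
    rw [Finset.card_product, Finset.card_product, Finset.card_univ, Finset.card_range]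
    refine Nat.mul_le_mul_right _ (Nat.mul_le_mul_left _ ?_)
    refine (Finset.card_union_le _ _).trans ?_
    rw [Int.card_Icc, Int.card_Icc]
    omega
  have hfin : (W + 1) * (K0 + 1) ≤ Fintype.card ι * (b - a + 3).toNat +
      Fintype.card ι * (2 * J + 4).toNat * (K0 + 1) := by
    rw [← hcard, ← hsplit]
    exact Nat.add_le_add hA hB
  have e1 : (((b - a + 3).toNat : ℕ) : ℤ) = b - a + 3 := Int.toNat_of_nonneg (by omega)
  have e2 : (((2 * J + 4).toNat : ℕ) : ℤ) = 2 * J + 4 := Int.toNat_of_nonneg (by omega)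
  have := (Int.ofNat_le.2 hfin)
  push_cast at this
  rw [e1, e2] at this
  exact this

end Pool.Agent.H.MP_21aec1_al.Hy
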