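import Pool.Agent.H.MP_21aec1_al.Hy.Base

set_option autoImplicit false

namespace Pool.Agent.H.MP_21aec1_al.Hy

variable {X : Type} {m : GMet X}

/-- A loop `c` of period `ℓ`, geodesic on `[-κ,κ]`, without detours of ratio `10^22` around the
middle part of this side, at scales between `r0` and `κ/10^60`. -/
structure DFL (m : GMet X) (r0 κ ℓ : ℤ) (c : ℤ → X) : Prop where
  r0pos : 1 ≤ r0
  kbig : 10 ^ 70 * r0 ≤ κ
  cyc : m.Cyc (10 ^ 8) c ℓ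
  geo : m.Geo c (-κ) κ
  up : ℓ ≤ 10 ^ 9 * κ
  lo : 4 * κ ≤ ℓ
  nd : m.NoDet (10 ^ 22) c (-κ) κ (-(κ / 4)) (κ / 4) r0 (κ / 10 ^ 60)

theorem DFL.neg {r0 κ ℓ : ℤ} {c : ℤ → X} (h : DFL m r0 κ ℓ c) :
    DFL m r0 κ ℓ (fun i => c (-i)) := by
  refine ⟨h.r0pos, h.kbig, h.cyc.neg, ?_, h.up, h.lo, ?_⟩
  · have := h.geo.neg
    rwa [neg_neg] at this
  · have := h.nd.neg
    rwa [neg_neg, neg_neg] at this

/-- Two such loops of very different size which coincide on `[-κ1,κ1]`. -/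
structure LPair (m : GMet X) (r0 κ1 κ' ℓ' κ ℓ : ℤ) (γ C : ℤ → X) : Prop where
  big : DFL m r0 κ ℓ C
  small : DFL m r0 κ' ℓ' γ
  com : ∀ t, -κ1 ≤ t → t ≤ κ1 → γ t = C t
  h1 : 10 ^ 160 * r0 ≤ κ1
  h2 : 10 ^ 10 * κ1 ≤ κ'
  h3 : 10 ^ 100 * ℓ' ≤ κ

theorem LPair.neg {r0 κ1 κ' ℓ' κ ℓ : ℤ} {γ C : ℤ → X} (h : LPair m r0 κ1 κ' ℓ' κ ℓ γ C) :
    LPair m r0 κ1 κ' ℓ' κ ℓ (fun i => γ (-i)) (fun i => C (-i)) :=
  ⟨h.big.neg, h.small.neg, fun t ht ht' => h.com (-t) (by omega) (by omega), h.h1, h.h2, h.h3⟩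

/-- The hubs: `tR` is the last (first to the left: `tL`) time at which the small loop is within
`H = 2*(10^22*r0)` of the side of the big loop. -/
structure Hub (m : GMet X) (r0 κ1 κ ℓ' : ℤ) (γ C : ℤ → X) (tL tR kQ kP : ℤ) : Prop where
  tR1 : κ1 ≤ tR
  tR4 : 4 * tR ≤ ℓ'
  tL1 : tL ≤ -κ1
  tL4 : -ℓ' ≤ 4 * tL
  kP1 : -κ ≤ kP
  kP2 : kP ≤ κ
  kQ1 : -κ ≤ kQ
  kQ2 : kQ ≤ κ
  hP : m.d (γ tR) (C kP) ≤ 2 * (10 ^ 22 * r0)
  hQ : m.d (γ tL) (C kQ) ≤ 2 * (10 ^ 22 * r0)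
  far : ∀ t, tR < t → t < tL + ℓ' → ¬ m.Nr C (-κ) κ (2 * (10 ^ 22 * r0)) (γ t)

theorem Hub.neg {r0 κ1 κ ℓ' K : ℤ} {γ C : ℤ → X} {tL tR kQ kP : ℤ}
    (hc : m.Cyc K γ ℓ') (h : Hub m r0 κ1 κ ℓ' γ C tL tR kQ kP) :
    Hub m r0 κ1 κ ℓ' (fun i => γ (-i)) (fun i => C (-i)) (-tR) (-tL) (-kP) (-kQ) where
  tR1 := by have := h.tL1; omega
  tR4 := by have := h.tL4; omega
  tL1 := by have := h.tR1; omega
  tL4 := by have := h.tR4; omega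
  kP1 := by have := h.kQ2; omega
  kP2 := by have := h.kQ1; omega
  kQ1 := by have := h.kP2; omega
  kQ2 := by have := h.kP1; omega
  hP := by simpa only [neg_neg] using h.hQ
  hQ := by simpa only [neg_neg] using h.hP
  far := by
    intro t ht ht' hn
    obtain ⟨v, hv, hv', hd⟩ := hn
    refine h.far (-t + ℓ') (by omega) (by omega) ⟨-v, by omega, by omega, ?_⟩
    rw [hc.1]
    exact hd

end Pool.Agent.H.MP_21aec1_al.Hy
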