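import Pool.Agent.H.MP_21aec1_al.Hy.DFL

set_option autoImplicit false

namespace Pool.Agent.H.MP_21aec1_al.Hy

variable {X : Type} {m : GMet X}

/-- A loop whose geodesic side `[0,κ]` has no detours around its middle third, re-centred at
`κ/2`. `up`: `ℓ ≤ 10^8 κ ≤ 10^9 (κ/2)`. `lo`: `κ = d(c 0, c κ) = d(c κ, c ℓ) ≤ ℓ - κ`, so
`4 (κ/2) ≤ 2 κ ≤ ℓ`. `nd`: a detour for the re-centred loop on `[-κ/2,κ/2]` around `k`,
`|k| ≤ (κ/2)/4`, is a detour for `c` on `[0,κ]` around `κ/2 + k`, which is in the middle third. -/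
theorem dfl_of_loop {c : ℤ → X} {κ ℓ r0 : ℤ} (hr0 : 1 ≤ r0) (hκ : 10 ^ 71 * r0 ≤ κ)
    (hκℓ : κ ≤ ℓ) (hℓ : ℓ ≤ 10 ^ 8 * κ) (hg : m.Geo c 0 κ) (hc : m.Cyc (10 ^ 8) c ℓ)
    (hnd : ∀ k ρ, κ ≤ 3 * k → 3 * k ≤ 2 * κ → r0 ≤ ρ → 10 ^ 60 * ρ ≤ κ →
      ¬ m.Detour (10 ^ 22) c 0 κ k ρ) :
    DFL m r0 (κ / 2) ℓ (fun i => c (κ / 2 + i)) := by
  have hc0 : c ℓ = c 0 := by
    have := hc.1 0
    rwa [zero_add] at this
  have hlo : κ ≤ ℓ - κ := by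
    have h1 := (hc.isPath κ ℓ).le (le_refl _) hκℓ (le_refl _)
    have h2 := hg 0 κ (le_refl _) (by omega) (le_refl _)
    rw [hc0, m.symm, h2] at h1
    omega
  refine ⟨hr0, by omega, ?_, ?_, by omega, by omega, ?_⟩
  · have := hc.shift (κ / 2)
    simpa only [add_comm] using this
  · intro i j hi hij hj
    have := hg (κ / 2 + i) (κ / 2 + j) (by omega) (by omega) (by omega)
    simp only
    rw [this]
    omega
  · intro k ρ hk hk' hρ hρ' hd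
    obtain ⟨i, j, n, hi, hi', hj, hj', hn, hcn⟩ := hd
    refine hnd (κ / 2 + k) ρ (by omega) (by omega) hρ (by omega)
      ⟨κ / 2 + i, κ / 2 + j, n, by omega, by omega, by omega, by omega, hn, hcn⟩

end Pool.Agent.H.MP_21aec1_al.Hy
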