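import Pool.Agent.H.MP_21aec1_al.Hy.FactOne

set_option autoImplicit false

namespace Pool.Agent.H.MP_21aec1_al.Hy

namespace GMet

variable {X : Type} {m : GMet X}

/-- LINEAR DIVERGENCE. If `γ s` is within `H = 2 C r0` of `σ` and no later point is, then
`t - s ≤ 32 K d(γ t, σ v)` for all `v`.
Proof: suppose `32 K d(γ t, σ v) < T`. If `T ≥ 16 K H`, both endpoints satisfy the hypothesis of
`fact1`, so the midpoint `s + (T+1)/2 > s` is within `H` of `σ`: contradiction. If `T < 16 K H`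
then `32 K d(γ t, σ v) < 16 K H`, so `d(γ t, σ v) ≤ H` and `t > s` (`T > 0`): contradiction. -/
theorem diverge {K C r0 r1 A B P Q : ℤ} {σ : ℤ → X} (hK : 1 ≤ K) (hC : 10000 * (K * K) ≤ C)
    (hr0 : 1 ≤ r0) (hσ : m.Geo σ A B) (nd : m.NoDet C σ A B P Q r0 r1)
    {γ : ℤ → X} {s t : ℤ} (hst : s ≤ t) (hγ : m.BiLip K γ s t)
    (hr1 : 2 * (t - s) ≤ C * r1)
    (hc : ∀ v, A ≤ v → v ≤ B → m.d (γ s) (σ v) ≤ 2 * (t - s) + 2 * (C * r0) →
      P ≤ v ∧ v ≤ Q)
    (hs : m.Nr σ A B (2 * (C * r0)) (γ s))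
    (hfar : ∀ i, s < i → i ≤ t → ¬ m.Nr σ A B (2 * (C * r0)) (γ i))
    {v : ℤ} (hv : A ≤ v) (hv' : v ≤ B) :
    t - s ≤ 32 * (K * m.d (γ t) (σ v)) := by
  have hKd : ∀ x y : X, 0 ≤ K * m.d x y := fun x y => mul_nonneg (by omega) (m.nonneg x y)
  have hKK : 1 ≤ K * K := by nlinarith
  have hCr : 1 ≤ C * r0 := by nlinarith
  have hKH : 2 * (C * r0) ≤ K * (2 * (C * r0)) := by nlinarith
  by_contra hcon
  by_cases hT : 16 * (K * (2 * (C * r0))) ≤ t - s
  · have hmid : m.Nr σ A B (2 * (C * r0)) (γ (s + (t - s) / 2)) := by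
      refine fact1 hK hC hr0 hσ nd hst hγ hr1 (fun v hv hv' hd => hc v hv hv' (by omega))
        ?_ ⟨v, hv, hv', by omega⟩ (by omega) (by omega)
      obtain ⟨w, hw, hw', hd⟩ := hs
      refine ⟨w, hw, hw', ?_⟩
      have : K * m.d (γ s) (σ w) ≤ K * (2 * (C * r0)) :=
        mul_le_mul_of_nonneg_left hd (by omega)
      omega
    exact hfar _ (by omega) (by omega) hmid
  · have hd0 := hKd (γ t) (σ v)
    refine hfar t (by omega) (le_refl t) ⟨v, hv, hv', ?_⟩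
    by_contra hc2
    have : K * (2 * (C * r0)) ≤ K * m.d (γ t) (σ v) :=
      mul_le_mul_of_nonneg_left (by omega) (by omega)
    omega

end GMet

end Pool.Agent.H.MP_21aec1_al.Hy
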