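import Pool.Agent.H.MP_21aec1_al.Hy.Base

set_option autoImplicit false

namespace Pool.Agent.H.MP_21aec1_al.Hy

namespace GMet

variable {X : Type} {m : GMet X}

/-- Discrete connectedness. -/
theorem adj_exists (P1 P2 : ℤ → Prop) {a b : ℤ} (hab : a ≤ b) (ha : P1 a) (hb : P2 b)
    (hall : ∀ k, a ≤ k → k ≤ b → P1 k ∨ P2 k) :
    ∃ k k', a ≤ k ∧ k ≤ b ∧ a ≤ k' ∧ k' ≤ b ∧ P1 k ∧ P2 k' ∧ k ≤ k' + 1 ∧ k' ≤ k + 1 := by
  by_contra hcon
  push Not at hcon
  have key : ∀ n : ℕ, a + n ≤ b → P1 (a + n) := by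
    intro n
    induction n with
    | zero => intro _; simpa using ha
    | succ n ih =>
      intro hn
      push_cast at hn
      have h1 := ih (by omega)
      push_cast
      rcases hall (a + (n + 1)) (by omega) (by omega) with h2 | h2
      · exact h2
      · exact absurd (hcon (a + n) (a + (n + 1)) (by omega) (by omega) (by omega) (by omega)
          h1 h2 (by omega)) (by omega)
  have h1 := key (b - a).toNat (by omega)
  rw [show a + ((b - a).toNat : ℤ) = b by omega] at h1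
  exact absurd (hcon b b hab (le_refl _) hab (le_refl _) h1 hb (by omega)) (by omega)

/-- ONE SCALE STEP. Let `γ` be a `K`-bi-Lipschitz path on `[s,t]`, `T = t - s` large, with both
endpoints within `T/(16K)` of the geodesic `σ`, which has no detours of ratio `C ≥ 10000 K²` at
the scale `T`.  Then every point `γ j` with `j` at distance at least `T/8` from both ends is
within `T/(136 K)` of `σ`.

Proof. Suppose not: some such `j` with `136 K d(γ j, σ v) > T` for all `v ∈ [A,B]`.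
Let `ρ = (2T + C - 1)/C` (least integer with `C ρ ≥ 2T`). Then `r0 ≤ ρ ≤ r1` and `C ρ ≤ 3T`
(because `T ≥ C`), so `10000 K² ρ ≤ 3 T`. Choose `ks`, `kt` with `16K d(γ s, σ ks) ≤ T`,
`16K d(γ t, σ kt) ≤ T`; by (hc) `ks, kt ∈ [P,Q]`. Since `K d(γ s, γ t) ≥ T`, `ks ≠ kt`.
Extended path: geodesic from `σ ks` to `γ s`, then `γ`, then geodesic from `γ t` to `σ kt`;
length `≤ T + 2T/(16K) ≤ 2T ≤ Cρ`.
Let `P1` = set of `k` between `ks` and `kt` such that some point `z` of the BEFORE part (first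
geodesic, or `γ i` with `i ≤ j`) has `d(z, σ k) < ρ`, `P2` = same with the AFTER part.
`ks ∈ P1`, `kt ∈ P2`. If some `k` between `ks` and `kt` is in neither set, then the extended path
avoids the open ball of radius `ρ` around `σ k` (in particular `|k - ks| ≥ ρ`, `|k - kt| ≥ ρ`),
which is a `Detour C σ A B k ρ`, contradiction with `nd`. Otherwise there are `k ∈ P1`, `k' ∈ P2`
with `|k - k'| ≤ 1` (discrete connectedness), hence `z` BEFORE and `z'` AFTER with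
`d(z, z') ≤ 2(ρ-1)+1 < 2ρ`.  But:
* `z = γ i`, `z' = γ i'` with `i ≤ j ≤ i'`: `j - i ≥ d(γ i, γ j) ≥ d(γ j, σ k) - ρ > T/(136K) - ρ`,
  same for `i' - j`; so `K d(z,z') ≥ i' - i > 2(T/(136K) - ρ)`, and `T/(136 K²) ≥ 2ρ`:
  contradiction.
* `z` on the first geodesic, `z' = γ i'`: `d(z,z') ≥ d(γ s, γ i') - T/(16K) ≥ T/(8K) - T/(16K)
  = T/(16K) ≥ 2ρ`; same for the other end; both on geodesics: `≥ T/K - 2T/(16K)`. -/
theorem fact1_step {K C r0 r1 A B P Q : ℤ} {σ : ℤ → X} (hK : 1 ≤ K) (hC : 10000 * (K * K) ≤ C)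
    (hr0 : 1 ≤ r0) (hσ : m.Geo σ A B) (nd : m.NoDet C σ A B P Q r0 r1)
    {γ : ℤ → X} {s t : ℤ} (hγ : m.BiLip K γ s t) (hT : C * r0 < t - s)
    (hr1 : 2 * (t - s) ≤ C * r1)
    (hcs : ∀ v, A ≤ v → v ≤ B → 16 * (K * m.d (γ s) (σ v)) ≤ t - s → P ≤ v ∧ v ≤ Q)
    (hct : ∀ v, A ≤ v → v ≤ B → 16 * (K * m.d (γ t) (σ v)) ≤ t - s → P ≤ v ∧ v ≤ Q)
    (hs : ∃ v, A ≤ v ∧ v ≤ B ∧ 16 * (K * m.d (γ s) (σ v)) ≤ t - s)
    (ht : ∃ v, A ≤ v ∧ v ≤ B ∧ 16 * (K * m.d (γ t) (σ v)) ≤ t - s)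
    {j : ℤ} (hj : t - s ≤ 8 * (j - s)) (hj' : t - s ≤ 8 * (t - j)) :
    ∃ v, A ≤ v ∧ v ≤ B ∧ 136 * (K * m.d (γ j) (σ v)) ≤ t - s := by
  by_contra hcon
  push Not at hcon
  obtain ⟨ks, hks1, hks2, hks⟩ := hs
  obtain ⟨kt, hkt1, hkt2, hkt⟩ := ht
  obtain ⟨hksP, hksQ⟩ := hcs ks hks1 hks2 hks
  obtain ⟨hktP, hktQ⟩ := hct kt hkt1 hkt2 hkt
  obtain ⟨T, hTdef⟩ : ∃ T, T = t - s := ⟨_, rfl⟩
  rw [← hTdef] at hT hr1 hks hkt hj hj'
  have hKK : 1 ≤ K * K := by nlinarith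
  have hC1 : 10000 ≤ C := by nlinarith
  have hCr0 : C ≤ C * r0 := by nlinarith
  have hT0 : C < T := by omega
  obtain ⟨ρ, hρdef⟩ : ∃ ρ, ρ = (2 * T + C - 1) / C := ⟨_, rfl⟩
  have hρ1 : 2 * T ≤ C * ρ := by
    have h1 := Int.emod_add_mul_ediv (2 * T + C - 1) C
    have h2 := Int.emod_lt_of_pos (2 * T + C - 1) (show 0 < C by omega)
    rw [← hρdef] at h1
    omega
  have hρ2 : C * ρ ≤ 2 * T + C - 1 := by
    have h1 := Int.emod_add_mul_ediv (2 * T + C - 1) C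
    have h2 := Int.emod_nonneg (2 * T + C - 1) (show C ≠ 0 by omega)
    rw [← hρdef] at h1
    omega
  have hρ0 : r0 ≤ ρ := by
    by_contra h
    have : C * ρ ≤ C * r0 := mul_le_mul_of_nonneg_left (by omega) (by omega)
    omega
  have hρr1 : ρ ≤ r1 := by
    by_contra h
    have : C * (r1 + 1) ≤ C * ρ := mul_le_mul_of_nonneg_left (by omega) (by omega)
    rw [mul_add, mul_one] at this
    omega
  have hKρ : 10000 * (K * K * ρ) ≤ 3 * T := by
    have h1 : 10000 * (K * K) * ρ ≤ C * ρ := mul_le_mul_of_nonneg_right hC (by omega)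
    have h2 : 10000 * (K * K) * ρ = 10000 * (K * K * ρ) := by ring
    omega
  have hKρ1 : K * ρ ≤ K * K * ρ := by
    have : K * 1 ≤ K * K := mul_le_mul_of_nonneg_left hK (by omega)
    rw [mul_one] at this
    exact mul_le_mul_of_nonneg_right this (by omega)
  obtain ⟨g1, hg10, hg11, hg1⟩ := m.geo (σ ks) (γ s)
  obtain ⟨g2, hg20, hg21, hg2⟩ := m.geo (γ t) (σ kt)
  obtain ⟨a, ha⟩ : ∃ a, a = m.d (σ ks) (γ s) := ⟨_, rfl⟩
  obtain ⟨b, hb⟩ : ∃ b, b = m.d (γ t) (σ kt) := ⟨_, rfl⟩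
  have ha0 : 0 ≤ a := by rw [ha]; exact m.nonneg _ _
  have hb0 : 0 ≤ b := by rw [hb]; exact m.nonneg _ _
  rw [← ha] at hg11 hg1
  rw [← hb] at hg21 hg2
  rw [m.symm, ← ha] at hks
  rw [← hb] at hkt
  have haK : a ≤ K * a := by nlinarith
  have hbK : b ≤ K * b := by nlinarith
  have hP1 : m.IsPath g1 0 a := Geo.isPath (m := m) hg1
  have hP2 : m.IsPath g2 0 b := Geo.isPath (m := m) hg2
  let P1 : ℤ → Prop := fun k => (∃ i, 0 ≤ i ∧ i ≤ a ∧ m.d (g1 i) (σ k) < ρ) ∨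
    (∃ i, s ≤ i ∧ i ≤ j ∧ m.d (γ i) (σ k) < ρ)
  let P2 : ℤ → Prop := fun k => (∃ i, 0 ≤ i ∧ i ≤ b ∧ m.d (g2 i) (σ k) < ρ) ∨
    (∃ i, j ≤ i ∧ i ≤ t ∧ m.d (γ i) (σ k) < ρ)
  have hP1ks : P1 ks := Or.inl ⟨0, le_refl _, ha0, by rw [hg10, m.self]; omega⟩
  have hP2kt : P2 kt := Or.inl ⟨b, hb0, le_refl _, by rw [hg21, m.self]; omega⟩
  have hall : ∀ k, (ks ≤ k ∧ k ≤ kt) ∨ (kt ≤ k ∧ k ≤ ks) → P1 k ∨ P2 k := by
    intro k hk
    by_contra hnot
    have hn1 : ¬ P1 k := fun h => hnot (Or.inl h)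
    have hn2 : ¬ P2 k := fun h => hnot (Or.inr h)
    have e1 : ∀ i, 0 ≤ i → i ≤ a → ρ ≤ m.d (g1 i) (σ k) := fun i hi hi' => by
      by_contra h
      exact hn1 (Or.inl ⟨i, hi, hi', by omega⟩)
    have e2 : ∀ i, s ≤ i → i ≤ t → ρ ≤ m.d (γ i) (σ k) := fun i hi hi' => by
      by_contra h
      rcases le_total i j with h1 | h1
      · exact hn1 (Or.inr ⟨i, hi, h1, by omega⟩)
      · exact hn2 (Or.inr ⟨i, h1, hi', by omega⟩)
    have e3 : ∀ i, 0 ≤ i → i ≤ b → ρ ≤ m.d (g2 i) (σ k) := fun i hi hi' => by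
      by_contra h
      exact hn2 (Or.inl ⟨i, hi, hi', by omega⟩)
    have c1 := Conn.of_path hP1 ha0 e1
    have c2 := Conn.of_path hγ.1 (by omega) e2
    have c3 := Conn.of_path hP2 hb0 e3
    rw [hg10, hg11] at c1
    rw [hg20, hg21] at c3
    have c := (c1.trans c2).trans c3
    have f1 := e1 0 (le_refl _) ha0
    rw [hg10, hσ.abs hks1 hks2 (by omega) (by omega)] at f1
    have f2 := e3 b hb0 (le_refl _)
    rw [hg21, hσ.abs hkt1 hkt2 (by omega) (by omega)] at f2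
    refine nd k ρ (by omega) (by omega) hρ0 hρr1
      (Detour.of_conn hks1 hks2 hkt1 hkt2 ?_ ?_ c)
    · rcases hk with hk | hk
      · left
        rw [abs_of_nonneg (by omega)] at f1
        rw [abs_of_nonpos (by omega)] at f2
        omega
      · right
        rw [abs_of_nonpos (by omega)] at f1
        rw [abs_of_nonneg (by omega)] at f2
        omega
    · omega
  obtain ⟨k, k', hk1, hk2, hk1', hk2', hPk, hPk', hkk, hkk'⟩ : ∃ k k', A ≤ k ∧ k ≤ B ∧ A ≤ k' ∧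
      k' ≤ B ∧ P1 k ∧ P2 k' ∧ k ≤ k' + 1 ∧ k' ≤ k + 1 := by
    rcases le_total ks kt with h | h
    · obtain ⟨k, k', h1, h2, h3, h4, h5, h6, h7, h8⟩ := adj_exists P1 P2 h hP1ks hP2kt
        (fun k hk hk' => hall k (Or.inl ⟨hk, hk'⟩))
      exact ⟨k, k', by omega, by omega, by omega, by omega, h5, h6, h7, h8⟩
    · obtain ⟨k, k', h1, h2, h3, h4, h5, h6, h7, h8⟩ := adj_exists P2 P1 h hP2kt hP1ks
        (fun k hk hk' => (hall k (Or.inr ⟨hk, hk'⟩)).symm)
      exact ⟨k', k, by omega, by omega, by omega, by omega, h6, h5, h8, h7⟩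
  have hσkk : m.d (σ k) (σ k') ≤ 1 := by
    rw [hσ.abs hk1 hk2 hk1' hk2', abs_le]
    omega
  have hzz : ∀ z z' : X, m.d z (σ k) < ρ → m.d z' (σ k') < ρ → m.d z z' ≤ 2 * ρ - 1 := by
    intro z z' hz hz'
    have h1 := m.tri z (σ k) z'
    have h2 := m.tri (σ k) (σ k') z'
    have h3 := m.symm z' (σ k')
    omega
  rcases hPk with ⟨i, hi1, hi2, hi3⟩ | ⟨i, hi1, hi2, hi3⟩
  · have hz1 : m.d (γ s) (g1 i) ≤ a := by
      have := hP1.le hi1 hi2 (le_refl _)
      rw [hg11, m.symm] at this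
      omega
    rcases hPk' with ⟨i', hi1', hi2', hi3'⟩ | ⟨i', hi1', hi2', hi3'⟩
    · have hz2 : m.d (g2 i') (γ t) ≤ b := by
        have := hP2.le (le_refl _) hi1' hi2'
        rw [hg20, m.symm] at this
        omega
      have h1 := hzz _ _ hi3 hi3'
      have h2 := m.tri (γ s) (g1 i) (γ t)
      have h3 := m.tri (g1 i) (g2 i') (γ t)
      have h4 := hγ.2 s t (le_refl _) (by omega) (le_refl _)
      have h5 : K * m.d (γ s) (γ t) ≤ K * (a + b + 2 * ρ) :=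
        mul_le_mul_of_nonneg_left (by omega) (by omega)
      have h6 : K * (a + b + 2 * ρ) = K * a + K * b + 2 * (K * ρ) := by ring
      omega
    · have h1 := hzz _ _ hi3 hi3'
      have h2 := m.tri (γ s) (g1 i) (γ i')
      have h4 := hγ.2 s i' (le_refl _) (by omega) hi2'
      have h5 : K * m.d (γ s) (γ i') ≤ K * (a + 2 * ρ) :=
        mul_le_mul_of_nonneg_left (by omega) (by omega)
      have h6 : K * (a + 2 * ρ) = K * a + 2 * (K * ρ) := by ring
      omega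
  · rcases hPk' with ⟨i', hi1', hi2', hi3'⟩ | ⟨i', hi1', hi2', hi3'⟩
    · have hz2 : m.d (g2 i') (γ t) ≤ b := by
        have := hP2.le (le_refl _) hi1' hi2'
        rw [hg20, m.symm] at this
        omega
      have h1 := hzz _ _ hi3 hi3'
      have h2 := m.tri (γ i) (g2 i') (γ t)
      have h4 := hγ.2 i t hi1 (by omega) (le_refl _)
      have h5 : K * m.d (γ i) (γ t) ≤ K * (b + 2 * ρ) :=
        mul_le_mul_of_nonneg_left (by omega) (by omega)
      have h6 : K * (b + 2 * ρ) = K * b + 2 * (K * ρ) := by ring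
      omega
    · have h1 := hzz _ _ hi3 hi3'
      have h2 := hγ.1.le hi1 hi2 (by omega : j ≤ t)
      have h3 := hγ.1.le (by omega : s ≤ j) hi1' hi2'
      have h4 := m.tri (γ j) (γ i) (σ k)
      rw [m.symm (γ j) (γ i)] at h4
      have h5 := m.tri (γ j) (γ i') (σ k')
      have h6 := hcon k hk1 hk2
      have h7 := hcon k' hk1' hk2'
      have h8 := hγ.2 i i' hi1 (by omega) hi2'
      have h9 : K * m.d (γ i) (γ i') ≤ K * (2 * ρ) :=
        mul_le_mul_of_nonneg_left (by omega) (by omega)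
      have h10 : K * (i' - i) ≤ K * (K * (2 * ρ)) :=
        mul_le_mul_of_nonneg_left (by omega) (by omega)
      have h11 : K * m.d (γ j) (σ k) ≤ K * (j - i + ρ) :=
        mul_le_mul_of_nonneg_left (by omega) (by omega)
      have h12 : K * m.d (γ j) (σ k') ≤ K * (i' - j + ρ) :=
        mul_le_mul_of_nonneg_left (by omega) (by omega)
      have h13 : K * (j - i + ρ) + K * (i' - j + ρ) = K * (i' - i) + 2 * (K * ρ) := by ring
      have h14 : K * (K * (2 * ρ)) = 2 * (K * K * ρ) := by ring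
      omega

end GMet

end Pool.Agent.H.MP_21aec1_al.Hy
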