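import Pool.Agent.H.MP_21aec1_al.Hy.DFL
import Pool.Agent.H.MP_21aec1_al.Hy.Fact

set_option autoImplicit false

namespace Pool.Agent.H.MP_21aec1_al.Hy

variable {X : Type} {m : GMet X}

/-- points close to the start are in the middle part -/
private theorem mid_range {r0 κ ℓ : ℤ} {c : ℤ → X} (h : DFL m r0 κ ℓ c) {x : X} {T : ℤ}
    (hlen : 10 ^ 40 * T ≤ κ) (hd : 100 * m.d x (c 0) ≤ κ) :
    ∀ v, -κ ≤ v → v ≤ κ → m.d x (c v) ≤ 2 * T + 2 * (10 ^ 22 * r0) →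
      -(κ / 4) ≤ v ∧ v ≤ κ / 4 := by
  intro v hv hv' hdv
  have h1 := h.kbig
  have h2 := h.r0pos
  have h3 := m.tri (c 0) x (c v)
  rw [m.symm (c 0) x] at h3
  have h4 := h.geo.abs (show -κ ≤ 0 by omega) (show (0:ℤ) ≤ κ by omega) hv hv'
  rw [sub_zero] at h4
  rcases le_total 0 v with h5 | h5
  · rw [abs_of_nonneg h5] at h4
    omega
  · rw [abs_of_nonpos h5] at h4
    omega

private theorem kk_le {K : ℤ} (hK : 1 ≤ K) (hK' : K ≤ 3 * 10 ^ 8) :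
    10000 * (K * K) ≤ 10 ^ 22 := by nlinarith

/-- `fact1'` for the side of a `DFL` loop (`C = 10^22`, `A = -κ`, `B = κ`, `[P,Q] = ±κ/4`,
`r1 = κ/10^60`); `17 K H ≤ 10^24 K r0`. -/
theorem DFL.close {r0 κ ℓ K : ℤ} {c : ℤ → X} (h : DFL m r0 κ ℓ c) (hK : 1 ≤ K)
    (hK' : K ≤ 3 * 10 ^ 8) {f : ℤ → X} {s t : ℤ} (hst : s ≤ t) (hf : m.BiLip K f s t)
    (hlen : 10 ^ 40 * (t - s) ≤ κ) (hd : 100 * m.d (f s) (c 0) ≤ κ)
    (hs : m.Nr c (-κ) κ (2 * (10 ^ 22 * r0)) (f s))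
    (ht : m.Nr c (-κ) κ (2 * (10 ^ 22 * r0)) (f t)) {i : ℤ} (hi : s ≤ i) (hi' : i ≤ t) :
    m.Nr c (-κ) κ (10 ^ 24 * (K * r0)) (f i) := by
  have h1 := h.kbig
  have h2 := h.r0pos
  have hr := mid_range h hlen hd
  obtain ⟨v, hv, hv', hdv⟩ := GMet.fact1' hK (kk_le hK hK') h2 h.geo h.nd hst hf (by omega)
    hr hs ht hi hi'
  refine ⟨v, hv, hv', hdv.trans ?_⟩
  have h3 : 0 ≤ K * r0 := mul_nonneg (by omega) (by omega)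
  have h4 : 17 * (K * (2 * (10 ^ 22 * r0))) = 34 * 10 ^ 22 * (K * r0) := by ring
  rw [h4]
  omega

/-- `diverge` for the side of a `DFL` loop. -/
theorem DFL.dvg {r0 κ ℓ K : ℤ} {c : ℤ → X} (h : DFL m r0 κ ℓ c) (hK : 1 ≤ K)
    (hK' : K ≤ 3 * 10 ^ 8) {f : ℤ → X} {s t : ℤ} (hst : s ≤ t) (hf : m.BiLip K f s t)
    (hlen : 10 ^ 40 * (t - s) ≤ κ) (hd : 100 * m.d (f s) (c 0) ≤ κ)
    (hs : m.Nr c (-κ) κ (2 * (10 ^ 22 * r0)) (f s))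
    (hfar : ∀ i, s < i → i ≤ t → ¬ m.Nr c (-κ) κ (2 * (10 ^ 22 * r0)) (f i))
    {v : ℤ} (hv : -κ ≤ v) (hv' : v ≤ κ) : t - s ≤ 32 * (K * m.d (f t) (c v)) := by
  have h1 := h.kbig
  have h2 := h.r0pos
  have hr := mid_range h hlen hd
  exact GMet.diverge hK (kk_le hK hK') h2 h.geo h.nd hst hf (by omega) hr hs hfar hv hv'

end Pool.Agent.H.MP_21aec1_al.Hy
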