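import Pool.Agent.H.MP_21aec1_al.Hy.Fact1

set_option autoImplicit false

namespace Pool.Agent.H.MP_21aec1_al.Hy

namespace GMet

variable {X : Type} {m : GMet X}

/-- FACT 1.  Strong induction on `T = t - s` using `fact1_step`.
If `T ≤ C r0`: `d(γ i, σ v) ≤ d(γ s, σ v) + (i - s) ≤ 2T ≤ 2 C r0` with `v` from `hs`.
If `T > C r0 (≥ 10000)`: put `h = T/16` (integer division), `s' = i - h`, `t' = i + h`,
`T' = 2h`. `fact1_step` gives `136 K d(γ s', σ v) ≤ T`, hence `16 K d(γ s', σ v) ≤ T'`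
(`T' ≥ T/8 - 2` and `T ≥ 272`), the same at `t'`.  The hypothesis `hc` is inherited:
`d(γ s', σ v) ≤ 2T'` implies `d(γ s, σ v) ≤ 2T' + (s' - s) ≤ 2T`. Apply the induction hypothesis
on `[s',t']` to the point `i`. (For `fact1_step` at the ends note `d(γ t, σ v) ≤ T/16` gives
`d(γ s, σ v) ≤ 2 T`.) -/
theorem fact1 {K C r0 r1 A B P Q : ℤ} {σ : ℤ → X} (hK : 1 ≤ K) (hC : 10000 * (K * K) ≤ C)
    (hr0 : 1 ≤ r0) (hσ : m.Geo σ A B) (nd : m.NoDet C σ A B P Q r0 r1)
    {γ : ℤ → X} {s t : ℤ} (hst : s ≤ t) (hγ : m.BiLip K γ s t)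
    (hr1 : 2 * (t - s) ≤ C * r1)
    (hc : ∀ v, A ≤ v → v ≤ B → m.d (γ s) (σ v) ≤ 2 * (t - s) → P ≤ v ∧ v ≤ Q)
    (hs : ∃ v, A ≤ v ∧ v ≤ B ∧ 16 * (K * m.d (γ s) (σ v)) ≤ t - s)
    (ht : ∃ v, A ≤ v ∧ v ≤ B ∧ 16 * (K * m.d (γ t) (σ v)) ≤ t - s)
    {i : ℤ} (hi : t - s ≤ 4 * (i - s)) (hi' : t - s ≤ 4 * (t - i)) :
    m.Nr σ A B (2 * (C * r0)) (γ i) := by
  have key : ∀ n : ℕ, ∀ s t i : ℤ, t - s ≤ n → s ≤ t → m.BiLip K γ s t →
      2 * (t - s) ≤ C * r1 →
      (∀ v, A ≤ v → v ≤ B → m.d (γ s) (σ v) ≤ 2 * (t - s) → P ≤ v ∧ v ≤ Q) →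
      (∃ v, A ≤ v ∧ v ≤ B ∧ 16 * (K * m.d (γ s) (σ v)) ≤ t - s) →
      (∃ v, A ≤ v ∧ v ≤ B ∧ 16 * (K * m.d (γ t) (σ v)) ≤ t - s) →
      t - s ≤ 4 * (i - s) → t - s ≤ 4 * (t - i) → m.Nr σ A B (2 * (C * r0)) (γ i) := by
    intro n
    induction n with
    | zero =>
      intro s t i hn hst hγ hr1 hc hs ht hi hi'
      obtain ⟨v, hv, hv', hd⟩ := hs
      refine ⟨v, hv, hv', ?_⟩
      have h1 := hγ.1.le (i := s) (j := i) (le_refl _) (by omega) (by omega)
      have h2 := m.tri (γ i) (γ s) (σ v)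
      have h3 := m.symm (γ i) (γ s)
      have h4 : m.d (γ s) (σ v) ≤ K * m.d (γ s) (σ v) := le_mul_of_one_le_left (m.nonneg _ _) hK
      have h5 : 0 ≤ C * r0 := by
        have : 0 ≤ K * K := mul_self_nonneg K
        exact mul_nonneg (by omega) (by omega)
      omega
    | succ n ih =>
      intro s t i hn hst hγ hr1 hc hs ht hi hi'
      by_cases hT : t - s ≤ C * r0
      · obtain ⟨v, hv, hv', hd⟩ := hs
        refine ⟨v, hv, hv', ?_⟩
        have h1 := hγ.1.le (i := s) (j := i) (le_refl _) (by omega) (by omega)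
        have h2 := m.tri (γ i) (γ s) (σ v)
        have h3 := m.symm (γ i) (γ s)
        have h4 : m.d (γ s) (σ v) ≤ K * m.d (γ s) (σ v) :=
          le_mul_of_one_le_left (m.nonneg _ _) hK
        omega
      · have hT' : C * r0 < t - s := by omega
        have hKK : 1 ≤ K * K := by nlinarith
        have hC' : C ≤ C * r0 := le_mul_of_one_le_right (by omega) hr0
        have hTb : 10000 < t - s := by omega
        have hcs : ∀ v, A ≤ v → v ≤ B → 16 * (K * m.d (γ s) (σ v)) ≤ t - s → P ≤ v ∧ v ≤ Q := by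
          intro v hv hv' hd
          have h4 : m.d (γ s) (σ v) ≤ K * m.d (γ s) (σ v) :=
            le_mul_of_one_le_left (m.nonneg _ _) hK
          exact hc v hv hv' (by omega)
        have hct : ∀ v, A ≤ v → v ≤ B → 16 * (K * m.d (γ t) (σ v)) ≤ t - s → P ≤ v ∧ v ≤ Q := by
          intro v hv hv' hd
          have h4 : m.d (γ t) (σ v) ≤ K * m.d (γ t) (σ v) :=
            le_mul_of_one_le_left (m.nonneg _ _) hK
          have h1 := hγ.1.le (i := s) (j := t) (le_refl _) hst (le_refl _)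
          have h2 := m.tri (γ s) (γ t) (σ v)
          exact hc v hv hv' (by omega)
        have step : ∀ j, t - s ≤ 8 * (j - s) → t - s ≤ 8 * (t - j) →
            ∃ v, A ≤ v ∧ v ≤ B ∧ 136 * (K * m.d (γ j) (σ v)) ≤ t - s := fun j hj hj' =>
          fact1_step hK hC hr0 hσ nd hγ hT' hr1 hcs hct hs ht hj hj'
        obtain ⟨v1, a1, b1, c1⟩ := step (i - (t - s) / 16) (by omega) (by omega)
        obtain ⟨v2, a2, b2, c2⟩ := step (i + (t - s) / 16) (by omega) (by omega)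
        refine ih (i - (t - s) / 16) (i + (t - s) / 16) i (by omega) (by omega)
          (hγ.mono (by omega) (by omega)) (by omega) ?_ ⟨v1, a1, b1, by omega⟩
          ⟨v2, a2, b2, by omega⟩ (by omega) (by omega)
        intro v hv hv' hd
        have h1 := hγ.1.le (i := s) (j := i - (t - s) / 16) (le_refl _) (by omega) (by omega)
        have h2 := m.tri (γ s) (γ (i - (t - s) / 16)) (σ v)
        exact hc v hv hv' (by omega)
  exact key (t - s).toNat s t i (by omega) hst hγ hr1 hc hs ht hi hi'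

end GMet

end Pool.Agent.H.MP_21aec1_al.Hy
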