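import Pool.Agent.H.MP_21aec1_al.Hy.FactOne

set_option autoImplicit false

namespace Pool.Agent.H.MP_21aec1_al.Hy

namespace GMet

variable {X : Type} {m : GMet X}

/-- FACT 1'. Strong induction on `T = t - s`. If `T ≤ 16 K H` where `H = 2 C r0`, then `γ i` is
within `T/2 + H ≤ 9KH` of `σ`.  If `T > 16 K H` then `fact1` applies (`16 K d(γ s, σ v) ≤ 16 K H
≤ T`), so the midpoint is within `H` of `σ`, and one applies the induction hypothesis to the two
halves (hypothesis `hc` is inherited as in `fact1`). -/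
theorem fact1' {K C r0 r1 A B P Q : ℤ} {σ : ℤ → X} (hK : 1 ≤ K) (hC : 10000 * (K * K) ≤ C)
    (hr0 : 1 ≤ r0) (hσ : m.Geo σ A B) (nd : m.NoDet C σ A B P Q r0 r1)
    {γ : ℤ → X} {s t : ℤ} (hst : s ≤ t) (hγ : m.BiLip K γ s t)
    (hr1 : 2 * (t - s) ≤ C * r1)
    (hc : ∀ v, A ≤ v → v ≤ B → m.d (γ s) (σ v) ≤ 2 * (t - s) + 2 * (C * r0) →
      P ≤ v ∧ v ≤ Q)
    (hs : m.Nr σ A B (2 * (C * r0)) (γ s)) (ht : m.Nr σ A B (2 * (C * r0)) (γ t))
    {i : ℤ} (hi : s ≤ i) (hi' : i ≤ t) :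
    m.Nr σ A B (17 * (K * (2 * (C * r0)))) (γ i) := by
  have hKK : 1 ≤ K * K := by nlinarith
  have hC' : C ≤ C * r0 := le_mul_of_one_le_right (by omega) hr0
  obtain ⟨H, hH⟩ : ∃ H, H = 2 * (C * r0) := ⟨_, rfl⟩
  rw [← hH] at hc hs ht ⊢
  have hHb : 0 < H := by omega
  have hKH : H ≤ K * H := le_mul_of_one_le_left (by omega) hK
  have key : ∀ n : ℕ, ∀ s t : ℤ, t - s ≤ n → s ≤ i → i ≤ t → m.BiLip K γ s t →
      2 * (t - s) ≤ C * r1 →
      (∀ v, A ≤ v → v ≤ B → m.d (γ s) (σ v) ≤ 2 * (t - s) + H → P ≤ v ∧ v ≤ Q) →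
      m.Nr σ A B H (γ s) → m.Nr σ A B H (γ t) →
      m.Nr σ A B (17 * (K * H)) (γ i) := by
    intro n
    induction n with
    | zero =>
      intro s t hn hi hi' hγ hr1 hc hs ht
      obtain ⟨v, hv, hv', hd⟩ := hs
      refine ⟨v, hv, hv', ?_⟩
      have h1 := hγ.1.le (i := s) (j := i) (le_refl _) (by omega) (by omega)
      have h2 := m.tri (γ i) (γ s) (σ v)
      have h3 := m.symm (γ i) (γ s)
      omega
    | succ n ih =>
      intro s t hn hi hi' hγ hr1 hc hs ht
      by_cases hT : t - s ≤ 16 * (K * H)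
      · obtain ⟨v, hv, hv', hd⟩ := hs
        refine ⟨v, hv, hv', ?_⟩
        have h1 := hγ.1.le (i := s) (j := i) (le_refl _) (by omega) (by omega)
        have h2 := m.tri (γ i) (γ s) (σ v)
        have h3 := m.symm (γ i) (γ s)
        omega
      · have hs' : ∃ v, A ≤ v ∧ v ≤ B ∧ 16 * (K * m.d (γ s) (σ v)) ≤ t - s := by
          obtain ⟨v, hv, hv', hd⟩ := hs
          have := mul_le_mul_of_nonneg_left hd (by omega : 0 ≤ K)
          exact ⟨v, hv, hv', by omega⟩
        have ht' : ∃ v, A ≤ v ∧ v ≤ B ∧ 16 * (K * m.d (γ t) (σ v)) ≤ t - s := by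
          obtain ⟨v, hv, hv', hd⟩ := ht
          have := mul_le_mul_of_nonneg_left hd (by omega : 0 ≤ K)
          exact ⟨v, hv, hv', by omega⟩
        have hmid : m.Nr σ A B H (γ (s + (t - s) / 2)) := by
          rw [hH]
          exact fact1 hK hC hr0 hσ nd (by omega) hγ hr1
            (fun v hv hv' hd => hc v hv hv' (by omega)) hs' ht' (by omega) (by omega)
        by_cases hm : i ≤ s + (t - s) / 2
        · exact ih s (s + (t - s) / 2) (by omega) hi hm (hγ.mono (by omega) (by omega)) (by omega)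
            (fun v hv hv' hd => hc v hv hv' (by omega)) hs hmid
        · refine ih (s + (t - s) / 2) t (by omega) (by omega) hi' (hγ.mono (by omega) (by omega))
            (by omega) ?_ hmid ht
          intro v hv hv' hd
          have h1 := hγ.1.le (i := s) (j := s + (t - s) / 2) (le_refl _) (by omega) (by omega)
          have h2 := m.tri (γ s) (γ (s + (t - s) / 2)) (σ v)
          exact hc v hv hv' (by omega)
  exact key (t - s).toNat s t (by omega) hi hi' hγ hr1 hc hs ht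

end GMet

end Pool.Agent.H.MP_21aec1_al.Hy
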