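import Pool.Agent.H.MP_21aec1_al.Hy.SDef

set_option autoImplicit false

namespace Pool.Agent.H.MP_21aec1_al.Hy

/-- clamp: number of integers in `(0, min x len]`. -/
def cl (x len : ℤ) : ℤ := max 0 (min x len)

/-- Parameters of the family of bounce profiles. -/
structure FamPar where
  u0 : ℤ
  l0 : ℤ
  s2 : ℤ
  e1 : ℤ
  r0 : ℤ
  u1 : ℤ
  K0 : ℤ
  g1 : ℤ
  g2 : ℤ

/-- cumulative modification of the bounces: remove `4w + 6K0 - g1` bounces after `l0`, add `6t`
after `s2`, add `4w` after `s2 + 6K0`, add `6(K0-t)` after `e1 - 6K0`, remove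
`4w + 6K0 - g2` after `r0 + 1`. -/
def FamPar.Del (F : FamPar) (w t i : ℤ) : ℤ :=
  - cl (i - F.l0) (4 * w + 6 * F.K0 - F.g1) + cl (i - F.s2) (6 * t)
    + cl (i - (F.s2 + 6 * F.K0)) (4 * w) + cl (i - (F.e1 - 6 * F.K0)) (6 * (F.K0 - t))
    - cl (i - (F.r0 + 1)) (4 * w + 6 * F.K0 - F.g2)

/-- number of bounces on the edge from `e - 1` to `e`. -/
def FamPar.bnc (F : FamPar) (w t e : ℤ) : ℤ := 1 + F.Del w t e - F.Del w t (e - 1)

/-- the time at which the block of the edge from `i` to `i+1` starts. -/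
def FamPar.Tm (F : FamPar) (w t i : ℤ) : ℤ := 3 * (i - F.u0) + 2 * F.Del w t i

/-- first visit of the index `i`. -/
def FamPar.V (F : FamPar) (w t i : ℤ) : ℤ := if i ≤ F.u0 then 0 else F.Tm w t (i - 1) + 1

/-- last visit of the index `j`. -/
def FamPar.U (F : FamPar) (w t j : ℤ) : ℤ :=
  if F.u1 ≤ j then F.Tm w t F.u1 else F.Tm w t (j + 1) - 1

end Pool.Agent.H.MP_21aec1_al.Hy
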