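import Pool.Agent.H.MP_21aec1_al.Hy.FamDef

set_option autoImplicit false

namespace Pool.Agent.H.MP_21aec1_al.Hy

/-- Position of the first visit of a middle index `k`, and spread of the visits. -/
theorem family_mid {F : FamPar} {W w t k : ℤ} (hw : 0 ≤ w) (hwW : w ≤ W) (ht : 0 ≤ t)
    (ht' : t ≤ F.K0) (hu : F.u0 < F.l0) (hl : F.l0 + 4 * W + 6 * F.K0 + 2 ≤ F.s2)
    (hg : 0 ≤ F.g1) (hg2 : 0 ≤ F.g2) (hgw : F.g1 ≤ 6 * F.K0) (hgw2 : F.g2 ≤ 6 * F.K0)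
    (hc3 : 4 * W + 12 * F.K0 ≤ F.e1 - F.s2) (her : F.e1 ≤ F.r0) (hr : F.r0 < F.u1)
    (hk : F.s2 + 6 * F.K0 < k) (hk' : k < F.e1 - 6 * F.K0) :
    F.V w t k - F.V w t F.s2 = 3 * (k - F.s2) + 12 * t + 2 * cl (k - 1 - (F.s2 + 6 * F.K0)) (4 * w) ∧
    F.U w t k - F.V w t k ≤ 8 := by
  unfold FamPar.V FamPar.U FamPar.Tm FamPar.Del cl
  rw [if_neg (by omega), if_neg (by omega), if_neg (by omega)]
  constructor <;> omega

end Pool.Agent.H.MP_21aec1_al.Hy
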