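import Pool.Agent.H.MP_21aec1_al.Hy.FamDef

set_option autoImplicit false

namespace Pool.Agent.H.MP_21aec1_al.Hy

private theorem fam_cl_zero {x len : ℤ} (h : x ≤ 0) : cl x len = 0 := by
  unfold cl; omega

private theorem fam_cl_full {x len : ℤ} (h0 : 0 ≤ len) (h : len ≤ x) : cl x len = len := by
  unfold cl; omega

private theorem fam_cl_nonneg (x len : ℤ) : 0 ≤ cl x len := by
  unfold cl; omega

private theorem fam_cl_le {x len : ℤ} (h0 : 0 ≤ len) : cl x len ≤ len := by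
  unfold cl; omega

private theorem fam_cl_step (x len : ℤ) : cl x len ≤ cl (x + 1) len ∧
    cl (x + 1) len ≤ cl x len + 1 := by
  unfold cl; omega

/-- The hypotheses under which the pieces of `Del` are disjoint. -/
private structure FamOK (F : FamPar) (w t : ℤ) : Prop where
  w0 : 0 ≤ w
  t0 : 0 ≤ t
  tK : t ≤ F.K0
  a : 0 ≤ 4 * w + 6 * F.K0 - F.g1
  a' : F.l0 + (4 * w + 6 * F.K0 - F.g1) ≤ F.s2 - 1
  b : F.s2 + 6 * F.K0 + 4 * w ≤ F.e1 - 6 * F.K0
  c : F.e1 ≤ F.r0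
  d : 0 ≤ 4 * w + 6 * F.K0 - F.g2
  g1 : 0 ≤ F.g1
  g2 : 0 ≤ F.g2

section

variable {F : FamPar} {w t : ℤ}

private theorem fam_r1 (h : FamOK F w t) {x : ℤ} (hx : x ≤ F.s2) :
    F.Del w t x = - cl (x - F.l0) (4 * w + 6 * F.K0 - F.g1) := by
  obtain ⟨w0, t0, tK, a, a', b, c, d, g1, g2⟩ := h
  unfold FamPar.Del
  rw [fam_cl_zero (x := x - F.s2) (by omega),
    fam_cl_zero (x := x - (F.s2 + 6 * F.K0)) (by omega),
    fam_cl_zero (x := x - (F.e1 - 6 * F.K0)) (by omega),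
    fam_cl_zero (x := x - (F.r0 + 1)) (by omega)]
  omega

private theorem fam_r2 (h : FamOK F w t) {x : ℤ} (hx : F.s2 - 1 ≤ x) (hx' : x ≤ F.s2 + 6 * F.K0) :
    F.Del w t x = - (4 * w + 6 * F.K0 - F.g1) + cl (x - F.s2) (6 * t) := by
  obtain ⟨w0, t0, tK, a, a', b, c, d, g1, g2⟩ := h
  unfold FamPar.Del
  rw [fam_cl_full (x := x - F.l0) a (by omega),
    fam_cl_zero (x := x - (F.s2 + 6 * F.K0)) (by omega),
    fam_cl_zero (x := x - (F.e1 - 6 * F.K0)) (by omega),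
    fam_cl_zero (x := x - (F.r0 + 1)) (by omega)]
  omega

private theorem fam_r3 (h : FamOK F w t) {x : ℤ} (hx : F.s2 + 6 * F.K0 ≤ x)
    (hx' : x ≤ F.e1 - 6 * F.K0) :
    F.Del w t x = - (4 * w + 6 * F.K0 - F.g1) + 6 * t + cl (x - (F.s2 + 6 * F.K0)) (4 * w) := by
  obtain ⟨w0, t0, tK, a, a', b, c, d, g1, g2⟩ := h
  unfold FamPar.Del
  rw [fam_cl_full (x := x - F.l0) a (by omega),
    fam_cl_full (x := x - F.s2) (by omega) (by omega),
    fam_cl_zero (x := x - (F.e1 - 6 * F.K0)) (by omega),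
    fam_cl_zero (x := x - (F.r0 + 1)) (by omega)]
  omega

private theorem fam_r4 (h : FamOK F w t) {x : ℤ} (hx : F.e1 - 6 * F.K0 ≤ x)
    (hx' : x ≤ F.r0 + 1) :
    F.Del w t x = - (4 * w + 6 * F.K0 - F.g1) + 6 * t + 4 * w +
      cl (x - (F.e1 - 6 * F.K0)) (6 * (F.K0 - t)) := by
  obtain ⟨w0, t0, tK, a, a', b, c, d, g1, g2⟩ := h
  unfold FamPar.Del
  rw [fam_cl_full (x := x - F.l0) a (by omega),
    fam_cl_full (x := x - F.s2) (by omega) (by omega),
    fam_cl_full (x := x - (F.s2 + 6 * F.K0)) (by omega) (by omega),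
    fam_cl_zero (x := x - (F.r0 + 1)) (by omega)]
  omega

private theorem fam_r5 (h : FamOK F w t) {x : ℤ} (hx : F.r0 + 1 ≤ x) :
    F.Del w t x = F.g1 - cl (x - (F.r0 + 1)) (4 * w + 6 * F.K0 - F.g2) := by
  obtain ⟨w0, t0, tK, a, a', b, c, d, g1, g2⟩ := h
  unfold FamPar.Del
  rw [fam_cl_full (x := x - F.l0) a (by omega),
    fam_cl_full (x := x - F.s2) (by omega) (by omega),
    fam_cl_full (x := x - (F.s2 + 6 * F.K0)) (by omega) (by omega),
    fam_cl_full (x := x - (F.e1 - 6 * F.K0)) (by omega) (by omega)]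
  omega

private theorem fam_step (h : FamOK F w t) (x : ℤ) :
    F.Del w t x - 1 ≤ F.Del w t (x + 1) ∧ F.Del w t (x + 1) ≤ F.Del w t x + 1 := by
  have hh := h
  obtain ⟨w0, t0, tK, a, a', b, c, d, g1, g2⟩ := hh
  by_cases h1 : x + 1 ≤ F.s2
  · rw [fam_r1 h (x := x) (by omega), fam_r1 h h1]
    have := fam_cl_step (x - F.l0) (4 * w + 6 * F.K0 - F.g1)
    rw [show x - F.l0 + 1 = x + 1 - F.l0 by omega] at this
    omega
  by_cases h2 : x + 1 ≤ F.s2 + 6 * F.K0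
  · rw [fam_r2 h (x := x) (by omega) (by omega), fam_r2 h (by omega) h2]
    have := fam_cl_step (x - F.s2) (6 * t)
    rw [show x - F.s2 + 1 = x + 1 - F.s2 by omega] at this
    omega
  by_cases h3 : x + 1 ≤ F.e1 - 6 * F.K0
  · rw [fam_r3 h (x := x) (by omega) (by omega), fam_r3 h (by omega) h3]
    have := fam_cl_step (x - (F.s2 + 6 * F.K0)) (4 * w)
    rw [show x - (F.s2 + 6 * F.K0) + 1 = x + 1 - (F.s2 + 6 * F.K0) by omega] at this
    omega
  by_cases h4 : x + 1 ≤ F.r0 + 1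
  · rw [fam_r4 h (x := x) (by omega) (by omega), fam_r4 h (by omega) h4]
    have := fam_cl_step (x - (F.e1 - 6 * F.K0)) (6 * (F.K0 - t))
    rw [show x - (F.e1 - 6 * F.K0) + 1 = x + 1 - (F.e1 - 6 * F.K0) by omega] at this
    omega
  · rw [fam_r5 h (x := x) (by omega), fam_r5 h (by omega)]
    have := fam_cl_step (x - (F.r0 + 1)) (4 * w + 6 * F.K0 - F.g2)
    rw [show x - (F.r0 + 1) + 1 = x + 1 - (F.r0 + 1) by omega] at this
    omega

private theorem fam_lip (h : FamOK F w t) {x y : ℤ} (hxy : x ≤ y) :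
    F.Del w t y ≤ F.Del w t x + (y - x) := by
  obtain ⟨n, rfl⟩ : ∃ n : ℕ, y = x + n := ⟨(y - x).toNat, by omega⟩
  induction n with
  | zero => simp
  | succ n ih =>
    have h1 := ih (by omega)
    have h2 := (fam_step h (x + n)).2
    push_cast
    rw [← add_assoc]
    omega

private theorem fam_le_g1 (h : FamOK F w t) (x : ℤ) : F.Del w t x ≤ F.g1 := by
  have hh := h
  obtain ⟨w0, t0, tK, a, a', b, c, d, g1, g2⟩ := hh
  by_cases h1 : x ≤ F.s2
  · rw [fam_r1 h h1]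
    have := fam_cl_nonneg (x - F.l0) (4 * w + 6 * F.K0 - F.g1)
    omega
  by_cases h2 : x ≤ F.s2 + 6 * F.K0
  · rw [fam_r2 h (by omega) h2]
    have := fam_cl_le (x := x - F.s2) (len := 6 * t) (by omega)
    omega
  by_cases h3 : x ≤ F.e1 - 6 * F.K0
  · rw [fam_r3 h (by omega) h3]
    have := fam_cl_le (x := x - (F.s2 + 6 * F.K0)) (len := 4 * w) (by omega)
    omega
  by_cases h4 : x ≤ F.r0 + 1
  · rw [fam_r4 h (by omega) h4]
    have := fam_cl_le (x := x - (F.e1 - 6 * F.K0)) (len := 6 * (F.K0 - t)) (by omega)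
    omega
  · rw [fam_r5 h (by omega)]
    have := fam_cl_nonneg (x - (F.r0 + 1)) (4 * w + 6 * F.K0 - F.g2)
    omega

/-- lower bound: `Del ≥ final value - g2`. -/
private theorem fam_ge (h : FamOK F w t) (x : ℤ) :
    F.g1 - (4 * w + 6 * F.K0) ≤ F.Del w t x := by
  have hh := h
  obtain ⟨w0, t0, tK, a, a', b, c, d, g1, g2⟩ := hh
  by_cases h1 : x ≤ F.s2
  · rw [fam_r1 h h1]
    have := fam_cl_le (x := x - F.l0) a
    omega
  by_cases h2 : x ≤ F.s2 + 6 * F.K0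
  · rw [fam_r2 h (by omega) h2]
    have := fam_cl_nonneg (x - F.s2) (6 * t)
    omega
  by_cases h3 : x ≤ F.e1 - 6 * F.K0
  · rw [fam_r3 h (by omega) h3]
    have := fam_cl_nonneg (x - (F.s2 + 6 * F.K0)) (4 * w)
    omega
  by_cases h4 : x ≤ F.r0 + 1
  · rw [fam_r4 h (by omega) h4]
    have := fam_cl_nonneg (x - (F.e1 - 6 * F.K0)) (6 * (F.K0 - t))
    omega
  · rw [fam_r5 h (by omega)]
    have := fam_cl_le (x := x - (F.r0 + 1)) d
    omega

private theorem fam_zero (h : FamOK F w t) {x : ℤ} (hx : x ≤ F.l0) : F.Del w t x = 0 := by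
  have hh := h
  obtain ⟨w0, t0, tK, a, a', b, c, d, g1, g2⟩ := hh
  rw [fam_r1 h (by omega), fam_cl_zero (by omega), neg_zero]

private theorem fam_end (h : FamOK F w t) {x : ℤ}
    (hx : F.r0 + 1 + (4 * w + 6 * F.K0 - F.g2) ≤ x) :
    F.Del w t x = F.g1 + F.g2 - (4 * w + 6 * F.K0) := by
  have hh := h
  obtain ⟨w0, t0, tK, a, a', b, c, d, g1, g2⟩ := hh
  rw [fam_r5 h (by omega), fam_cl_full d (by omega)]
  omega

private theorem fam_s2 (h : FamOK F w t) :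
    F.Del w t (F.s2 - 1) = F.g1 - (4 * w + 6 * F.K0) := by
  have hh := h
  obtain ⟨w0, t0, tK, a, a', b, c, d, g1, g2⟩ := hh
  rw [fam_r1 h (by omega), fam_cl_full a (by omega)]
  omega

private theorem fam_e1 (h : FamOK F w t) : F.Del w t (F.e1 + 1) = F.g1 := by
  have hh := h
  obtain ⟨w0, t0, tK, a, a', b, c, d, g1, g2⟩ := hh
  rw [fam_r4 h (by omega) (by omega), fam_cl_full (by omega) (by omega)]
  omega

end

/-- THE FAMILY. -/
theorem family {X : Type} {m : GMet X} {K a1 : ℤ} {ζ : ℤ → X}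
    {u0 l0 l1 s2 e1 r0 r1 u1 : ℤ} (hK : 1 ≤ K)
    (h : Tight m K (5 * K) a1 ζ u0 l0 l1 s2 e1 r0 r1 u1)
    {W K0 : ℤ} (hW : 0 ≤ W) (hK0 : 2 * (5 * K) + 20 ≤ 6 * K0)
    (hc1 : 4 * W + 6 * K0 + 2 ≤ l1 - l0) (hc2 : 4 * W + 6 * K0 + 2 ≤ r1 - r0)
    (hc3 : 4 * W + 12 * K0 ≤ e1 - s2) :
    ∃ F : FamPar, F.u0 = u0 ∧ F.s2 = s2 ∧ F.e1 = e1 ∧ F.u1 = u1 ∧ F.K0 = K0 ∧
      F.l0 = l0 ∧ F.r0 = r0 ∧ 0 ≤ F.g1 ∧ F.g1 ≤ 6 * K0 ∧ 0 ≤ F.g2 ∧ F.g2 ≤ 6 * K0 ∧
      ∀ w t, 0 ≤ w → w ≤ W → 0 ≤ t → t ≤ K0 →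
        (∀ e, 0 ≤ F.bnc w t e ∧ F.bnc w t e ≤ 2) ∧
        F.Del w t u0 = 0 ∧
        (∀ i j, u0 ≤ i → i ≤ j → j ≤ u1 →
          F.U w t j - F.V w t i ≤ 5 * K * m.d (ζ i) (ζ j) + (5 * K + 8)) ∧
        5 * K * m.d (ζ u0) (ζ e1) + (5 * K + 8) ≤ F.U w t e1 - F.V w t u0 + 3 ∧
        5 * K * m.d (ζ s2) (ζ u1) + (5 * K + 8) ≤ F.U w t u1 - F.V w t s2 + 3 ∧
        F.U w t e1 - F.V w t s2 = 3 * (e1 - s2) + 4 + 12 * K0 + 8 * w := by
  obtain ⟨_, h0, h1, h2, h3, _, h4, h5, h6, _, _, s1, f1, f2, f2a, f2b, f3, f3a, f3b, f4, f5⟩ := h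
  obtain ⟨g1, hg1⟩ : ∃ g1, g1 = (5 * K + 4 - (3 * (e1 - u0) - 5 * K * m.d (ζ u0) (ζ e1))) / 2 :=
    ⟨_, rfl⟩
  obtain ⟨g2, hg2⟩ : ∃ g2, g2 = (5 * K + 4 - (3 * (u1 - s2) - 5 * K * m.d (ζ s2) (ζ u1))) / 2 :=
    ⟨_, rfl⟩
  refine ⟨⟨u0, l0, s2, e1, r0, u1, K0, g1, g2⟩, rfl, rfl, rfl, rfl, rfl, rfl, rfl,
    by simp only; omega, by simp only; omega, by simp only; omega, by simp only; omega, ?_⟩
  intro w t hw hwW ht htK
  obtain ⟨F, hF⟩ : ∃ F : FamPar, F = ⟨u0, l0, s2, e1, r0, u1, K0, g1, g2⟩ := ⟨_, rfl⟩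
  rw [← hF]
  have hu0 : F.u0 = u0 := by rw [hF]
  have hl0 : F.l0 = l0 := by rw [hF]
  have hs2 : F.s2 = s2 := by rw [hF]
  have he1 : F.e1 = e1 := by rw [hF]
  have hr0 : F.r0 = r0 := by rw [hF]
  have hu1 : F.u1 = u1 := by rw [hF]
  have hKK : F.K0 = K0 := by rw [hF]
  have hG1 : F.g1 = g1 := by rw [hF]
  have hG2 : F.g2 = g2 := by rw [hF]
  have ok : FamOK F w t := by
    constructor <;> omega
  have hV : ∀ i, i ≤ u0 → F.V w t i = 0 := by
    intro i hi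
    unfold FamPar.V
    rw [if_pos (by omega)]
  have hV' : ∀ i, u0 < i → F.V w t i = 3 * (i - 1 - u0) + 2 * F.Del w t (i - 1) + 1 := by
    intro i hi
    unfold FamPar.V FamPar.Tm
    rw [if_neg (by omega), hu0]
  have hU : F.U w t u1 = 3 * (u1 - u0) + 2 * F.Del w t u1 := by
    unfold FamPar.U FamPar.Tm
    rw [if_pos (by omega), hu0, hu1]
  have hU' : ∀ j, j < u1 → F.U w t j = 3 * (j + 1 - u0) + 2 * F.Del w t (j + 1) - 1 := by
    intro j hj
    unfold FamPar.U FamPar.Tm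
    rw [if_neg (by omega), hu0]
  have hends := fam_end ok (x := u1) (by omega)
  have hs2' := fam_s2 ok
  have he1' := fam_e1 ok
  rw [hs2] at hs2'
  rw [he1] at he1'
  refine ⟨?_, fam_zero ok (by omega), ?_, ?_, ?_, ?_⟩
  · intro e
    have := fam_step ok (e - 1)
    rw [show e - 1 + 1 = e by omega] at this
    unfold FamPar.bnc
    omega
  · intro i j hi hij hj
    have hring : 5 * K * m.d (ζ i) (ζ j) = 5 * (K * m.d (ζ i) (ζ j)) := by ring
    by_cases hjr : j ≤ r1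
    · by_cases hil : l0 ≤ i
      · -- bi-Lipschitz zone
        have e1 := s1 i j hil hij hjr
        have e2 := fam_lip ok (x := i - 1) (y := j + 1) (by omega)
        rw [hU' j (by omega), hV' i (by omega)]
        omega
      · have e2 := fam_le_g1 ok (j + 1)
        rw [hU' j (by omega)]
        rcases eq_or_lt_of_le hi with hi' | hi'
        · rw [← hi', hV u0 (le_refl _)]
          have e3 := f2 j (by omega) (by omega)
          omega
        · have e3 := f1 i j hi' hij (by omega)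
          have e4 := fam_zero ok (x := i - 1) (by omega)
          rw [hV' i hi']
          omega
    · rcases eq_or_lt_of_le hj with hj' | hj'
      · rw [hj', hU]
        rcases eq_or_lt_of_le hi with hi' | hi'
        · rw [← hi', hV u0 (le_refl _)]
          omega
        · rw [hV' i hi']
          by_cases hil : l0 ≤ i
          · have e3 := f3 i hil (by omega)
            have e4 := fam_ge ok (i - 1)
            omega
          · have e3 := f4 i hi' (by omega)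
            have e4 := fam_zero ok (x := i - 1) (by omega)
            omega
      · rw [hU' j hj']
        have e2 := fam_end ok (x := j + 1) (by omega)
        rcases eq_or_lt_of_le hi with hi' | hi'
        · rw [← hi', hV u0 (le_refl _)]
          have e3 := f2 j (by omega) (by omega)
          omega
        · have e3 := f1 i j hi' hij (by omega)
          have e4 := fam_ge ok (i - 1)
          rw [hV' i hi']
          omega
  · rw [hU' e1 (by omega), hV u0 (le_refl _), he1']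
    omega
  · rw [hU, hV' s2 (by omega), hs2']
    omega
  · rw [hU' e1 (by omega), hV' s2 (by omega), he1', hs2']
    omega

end Pool.Agent.H.MP_21aec1_al.Hy
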