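import Pool.Agent.H.MP_21aec1_al.Hy.Slim
import Pool.Agent.H.MP_21aec1_al.Hy.Tame
import Pool.Agent.H.MP_21aec1_al.Hy.LoopC

set_option autoImplicit false

namespace Pool.Agent.H.MP_21aec1_al.Hy

namespace GMet

variable {X : Type} {m : GMet X}

/-- If `m` is not hyperbolic there are arbitrarily long cyclically bi-Lipschitz loops with a
geodesic side of proportional length.
Proof. `slim_of_nd` with `r0 = max n 1` fails, so there is a geodesic `σ` on `[A,B]` with a detour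
of ratio `10^5` and radius `ρ ≥ max n 1`. `tame` (`C = 10^5`, `K1 = 200 (10^5+2)`), `handle_loop`:
`κ = u - x ≥ 9ρ/5`, `ℓ = κ + b ≤ κ + 10^5 ρ ≤ 10^8 κ`, `2 K1 + 1 ≤ 10^8`. -/
theorem loops (hn : ¬ ∃ δ, m.Slim δ) (n : ℤ) : ∃ (c : ℤ → X) (κ ℓ : ℤ), n ≤ κ ∧ 1 ≤ κ ∧ κ ≤ ℓ ∧
    ℓ ≤ 10 ^ 8 * κ ∧ m.Geo c 0 κ ∧ m.Cyc (10 ^ 8) c ℓ := by
  by_contra hcon
  apply hn
  refine ⟨_, slim_of_nd (m := m) (r0 := max n 1) (le_max_right _ _) ?_⟩
  intro σ A B hσ k ρ hρ hd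
  have hρ1 : 1 ≤ ρ := (le_max_right _ _).trans hρ
  have hρn : n ≤ ρ := (le_max_left _ _).trans hρ
  obtain ⟨β, b, x, u, hx, hu, hxk, huk, hb, hb', h0, h1, hβ, hl, hr⟩ :=
    tame (by norm_num) hρ1 hσ hd
  obtain ⟨c, hc, hc1, hc2⟩ := handle_loop (K1 := 200 * (10 ^ 5 + 2)) (by norm_num) hσ hx hu
    (by omega) (by omega) hb h0 h1 hβ hl hr
  refine hcon ⟨c, u - x, u - x + b, by omega, by omega, by omega, by omega, ?_,
    hc.mono (by norm_num)⟩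
  intro i j hi hij hj
  rw [hc1 i hi (by omega), hc1 j (by omega) hj, hσ (x + i) (x + j) (by omega) (by omega)
    (by omega)]
  omega

end GMet

end Pool.Agent.H.MP_21aec1_al.Hy
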