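import Pool.Agent.H.MP_21aec1_al.Hy.Transl

set_option autoImplicit false

namespace Pool.Agent.H.MP_21aec1_al.Hy

variable {G : Type} [Group G]

/-- PIGEONHOLE. Translate all loops so that `c 0 = 1`; the restriction of `c` to `[-κ1,κ1]` takes
values in the ball of radius `κ1` (`ball_finite`), so it is one of finitely many functions; hence
some restriction occurs for arbitrarily large `κ` (for all `n` there is such a loop with
`κ ≥ n`). Take a first loop with this restriction and `κ' ≥ 10^10 κ1`, and a second one with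
`κ ≥ 10^100 ℓ'`. -/
theorem exists_pair {S : Finset G} {hS : SymmGenerates S ⊤} {r0 : ℤ}
    (hD : ∀ n : ℤ, ∃ (c : ℤ → G) (κ ℓ : ℤ), n ≤ κ ∧ DFL (wordMet S hS) r0 κ ℓ c) (κ1 : ℤ)
    (h : 10 ^ 160 * r0 ≤ κ1) :
    ∃ (κ' ℓ' κ ℓ : ℤ) (γ C : ℤ → G), LPair (wordMet S hS) r0 κ1 κ' ℓ' κ ℓ γ C := by
  classical
  have h1 : ∀ n : ℕ, ∃ (c : ℤ → G) (κ ℓ : ℤ), (n : ℤ) ≤ κ ∧ DFL (wordMet S hS) r0 κ ℓ c ∧
      c 0 = 1 := by
    intro n
    obtain ⟨c, κ, ℓ, h1, h2⟩ := hD n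
    exact ⟨_, κ, ℓ, h1, h2.translate (c 0)⁻¹, inv_mul_cancel _⟩
  choose c κ ℓ hκ hc h0 using h1
  have hmem : ∀ (n : ℕ) (t : ℤ), -κ1 ≤ t → t ≤ κ1 → wordLength S (c n t) ≤ κ1.toNat := by
    intro n t ht ht'
    have h2 : (wordMet S hS).d (c n 0) (c n t) = (wordLength S (c n t) : ℤ) := by
      rw [wordMet_d, h0, inv_one, one_mul]
    rcases le_total 0 t with h3 | h3
    · have h4 := ((hc n).cyc.isPath 0 t).le (le_refl 0) h3 (le_refl t)
      rw [h2] at h4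
      omega
    · have h4 := ((hc n).cyc.isPath t 0).le (le_refl t) h3 (le_refl 0)
      rw [(wordMet S hS).symm, h2] at h4
      omega
  haveI : Finite {g : G | wordLength S g ≤ κ1.toNat} := (ball_finite hS κ1.toNat).to_subtype
  haveI : Finite (Set.Icc (-κ1) κ1) := (Set.finite_Icc (-κ1) κ1).to_subtype
  let F : ℕ → (Set.Icc (-κ1) κ1 → {g : G | wordLength S g ≤ κ1.toNat}) :=
    fun n t => ⟨c n t, hmem n t t.2.1 t.2.2⟩
  obtain ⟨y, hy⟩ := Finite.exists_infinite_fiber F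
  have hinf : (F ⁻¹' {y}).Infinite := Set.infinite_coe_iff.1 hy
  obtain ⟨n1, hn1, hN1⟩ := hinf.exists_gt (10 ^ 10 * κ1).toNat
  obtain ⟨n2, hn2, hN2⟩ := hinf.exists_gt (10 ^ 100 * ℓ n1).toNat
  have hk1 := hκ n1
  have hk2 := hκ n2
  refine ⟨κ n1, ℓ n1, κ n2, ℓ n2, c n1, c n2, ⟨hc n2, hc n1, ?_, h, by omega, by omega⟩⟩
  intro t ht ht'
  have h5 : F n1 = F n2 := by
    have e1 : F n1 = y := hn1
    have e2 : F n2 = y := hn2
    rw [e1, e2]
  exact congrArg Subtype.val (congrFun h5 ⟨t, ht, ht'⟩)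

end Pool.Agent.H.MP_21aec1_al.Hy
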