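import Pool.Agent.H.MP_21aec1_al.Hy.TLS0

set_option autoImplicit false

namespace Pool.Agent.H.MP_21aec1_al.Hy

variable {X : Type} {m : GMet X} {H R ℓ ℓ' : ℤ} {C γ : ℤ → X} {tL tR kQ kP : ℤ}

/-- (s1): the bi-Lipschitz zone `[l0,r1]`, `l0 = q - ℓ'`, `r1 = N - ℓ'/(2*10^95)`.
Both on `C` (`i, j ≤ ℓ - kP`; `ζ i = C v`, `v = kP + i - ℓ ≥ kQ - ℓ' ≥ -R`): `d = j - i`.
`C v` (`v ≤ 0`), `γ t` with `0 ≤ t ≤ tR`: NR1. `C v`, `γ (tR + n)`, `0 ≤ n ≤ N3 - ℓ'/(2*10^95)`,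
`N3 = ℓ' - tR + tL`: `j - i = tR - v + n`; NR1 at `tR` and the triangle inequality
(`d(γ tR, γ (tR+n)) ≤ n`): `tR - v ≤ 10^25 (d + n)`; DV: `min n (ℓ'/(2*10^95)) ≤ 10^25 d`; all of
`-v, tR, n` are `≤ 2 ℓ'`. If `n ≤ ℓ'/(2*10^95)`: `n ≤ 10^25 d`, so everything `≤ 10^51 d`.
Else `ℓ' ≤ 10^96 * 10^25 d` roughly. Both on `γ` (`t ≤ t' ≤ ℓ' + tL - ℓ'/(2*10^95)`): Cyc:
`min (t'-t) (ℓ'-(t'-t)) ≤ 10^25 d` and `ℓ' - (t'-t) ≥ ℓ'/(2*10^95)`. -/
theorem tls_s1 (h : TL m H R ℓ ℓ' C γ tL tR kQ kP) :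
    ∀ i j, ℓ + kQ - kP - ℓ' ≤ i → i ≤ j → j ≤ ℓ - kP + ℓ' + tL - ℓ' / (2 * 10 ^ 95) →
      j - i ≤ 10 ^ 125 * m.d (zet C γ kP ℓ i) (zet C γ kP ℓ j) := by
  intro i j hi hij hj
  have hkQ := h.kQl
  have hkQ0 := h.kQ0
  have hkP := h.kPl
  have hkP0 := h.kP0
  have hRl := h.Rl
  have htL := h.tL0
  have hbig := h.big
  have hH := h.H0
  have hal := h.al
  have hhalf := h.half
  have hlR := h.lR'
  by_cases hj1 : j ≤ ℓ - kP
  · rw [zet_neg h (by omega : i ≤ ℓ - kP), zet_neg h hj1]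
    have h1 := h.geoC (kP + i - ℓ) (kP + j - ℓ) (by omega) (by omega) (by omega)
    rw [h1]
    omega
  · obtain ⟨t, rfl⟩ : ∃ t, j = ℓ - kP + t := ⟨j - (ℓ - kP), by omega⟩
    rw [zet_small h (by omega : (0:ℤ) ≤ t)]
    by_cases hi1 : i ≤ ℓ - kP
    · obtain ⟨v, rfl⟩ : ∃ v, i = ℓ - kP + v := ⟨i - (ℓ - kP), by omega⟩
      rw [zet_q h (by omega : v ≤ 0)]
      by_cases ht1 : t ≤ tR
      · have h1 := h.NR1 v t (by omega) (by omega) (by omega) ht1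
        have h0 := m.nonneg (C v) (γ t)
        omega
      · obtain ⟨n, rfl⟩ : ∃ n, t = tR + n := ⟨t - tR, by omega⟩
        have h1 := h.DV v n (by omega) (by omega) (by omega) (by omega)
        have h2 := h.NR1 v tR (by omega) (by omega) (by omega) (le_refl _)
        have h3 := (h.cycg.isPath tR (tR + n)).le (le_refl _) (by omega) (le_refl _)
        have h4 := m.tri (C v) (γ (tR + n)) (γ tR)
        rw [m.symm (γ (tR + n)) (γ tR)] at h4
        have h0 := m.nonneg (C v) (γ (tR + n))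
        generalize m.d (C v) (γ (tR + n)) = D at *
        generalize m.d (C v) (γ tR) = D1 at *
        generalize m.d (γ tR) (γ (tR + n)) = D2 at *
        rcases le_total n (ℓ' - tR + tL - n) with h5 | h5
        · rw [min_eq_left h5] at h1
          omega
        · rw [min_eq_right h5] at h1
          omega
    · obtain ⟨u, rfl⟩ : ∃ u, i = ℓ - kP + u := ⟨i - (ℓ - kP), by omega⟩
      rw [zet_small h (by omega : (0:ℤ) ≤ u)]
      have h1 := h.cycg.2.2 u t (by omega) (by omega)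
      have h0 := m.nonneg (γ u) (γ t)
      generalize m.d (γ u) (γ t) = D at *
      rcases le_total (t - u) (u + ℓ' - t) with h5 | h5
      · rw [min_eq_left h5] at h1
        omega
      · rw [min_eq_right h5] at h1
        omega

end Pool.Agent.H.MP_21aec1_al.Hy
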