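import Pool.Agent.H.MP_21aec1_al.Hy.TLS0

set_option autoImplicit false

namespace Pool.Agent.H.MP_21aec1_al.Hy

variable {X : Type} {m : GMet X} {H R ℓ ℓ' : ℤ} {C γ : ℤ → X} {tL tR kQ kP : ℤ}

/-- (s4), zone Z2: `R < 4 i` and `R < 4 (q - i)`: bi-Lipschitz with any later point.
`j ≤ ℓ - kP`: Cyc for `C` at `kP + i`, `kP + j`: `min (j-i) (ℓ-(j-i)) ≤ 10^25 d` with
`ℓ - (j - i) ≥ kP + i ≥ R/4` and `j - i ≤ ℓ ≤ 10^75 R`.
`j = ℓ - kP + t`, `0 ≤ t ≤ ℓ' + tL`: Cyc for `C` at `kP + i` and `ℓ` (`C ℓ = C 0`):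
`min (ℓ - kP - i) (kP + i) ≤ 10^25 d(ζ i, C 0)`, both `≥ R/4`; `d(C 0, γ t) ≤ t ≤ ℓ'`. -/
theorem tls_z2 (h : TL m H R ℓ ℓ' C γ tL tR kQ kP) :
    ∀ i j, R < 4 * i → R < 4 * (ℓ + kQ - kP - i) → i ≤ j → j ≤ ℓ - kP + ℓ' + tL →
      j - i ≤ 10 ^ 125 * m.d (zet C γ kP ℓ i) (zet C γ kP ℓ j) := by
  intro i j hi hi' hij hj
  obtain ⟨z1, z2, z3, z4, z5, z6⟩ := h.sizes
  have hQ0 := h.kQ0
  have hP0 := h.kP0
  have hL0 := h.tL0
  have hlR := h.lR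
  have hlR' := h.lR'
  have hRl := h.Rl
  have hkQl := h.kQl
  have hkPl := h.kPl
  by_cases c1 : j ≤ ℓ - kP
  · rw [zet_big (by omega), zet_big c1]
    have h1 := h.cycC.2.2 (kP + i) (kP + j) (by omega) (by omega)
    generalize m.d (C (kP + i)) (C (kP + j)) = d at h1 ⊢
    rcases le_total (kP + j - (kP + i)) (kP + i + ℓ - (kP + j)) with h2 | h2
    · rw [min_eq_left h2] at h1
      omega
    · rw [min_eq_right h2] at h1
      omega
  · obtain ⟨t, ht⟩ : ∃ t, t = j - (ℓ - kP) := ⟨_, rfl⟩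
    rw [zet_big (by omega), show j = ℓ - kP + t by omega, zet_small h (by omega)]
    have h1 := h.cycC.2.2 (kP + i) ℓ (by omega) (by omega)
    have h3 : C ℓ = C 0 := by
      have := h.cycC.1 0
      rwa [zero_add] at this
    rw [h3] at h1
    have h4 := (h.cycg.isPath 0 t).le (le_refl 0) (by omega) (le_refl t)
    rw [h.g0] at h4
    have h5 := m.tri (C (kP + i)) (γ t) (C 0)
    rw [m.symm (γ t) (C 0)] at h5
    generalize m.d (C (kP + i)) (C 0) = d1 at h1 h5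
    generalize m.d (C 0) (γ t) = d2 at h4 h5
    generalize m.d (C (kP + i)) (γ t) = d at h5 ⊢
    rcases le_total (ℓ - (kP + i)) (kP + i + ℓ - ℓ) with h2 | h2
    · rw [min_eq_left h2] at h1
      omega
    · rw [min_eq_right h2] at h1
      omega

/-- (s4), zone Z3: `4 (q - i) ≤ R`, `i < l0 = q - ℓ'`: bi-Lipschitz with any later point.
`ζ i = C v`, `v = kP + i - ℓ = kQ - (q - i) ∈ [-R,0]`. `ζ j = C w`: geodesic. `ζ j = γ t`,
`t ≤ tR`: NR1. `t > tR`: `d(γ 0, γ t) ≤ min t (ℓ' - t)` (`γ ℓ' = γ 0`), so `2 d(C 0, γ t) ≤ ℓ'`;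
`d(C v, C 0) = -v ≥ q - i > ℓ'`; so `2 d(ζ i, ζ j) ≥ q - i` and `j - i ≤ 3 (q - i)`. -/
theorem tls_z3 (h : TL m H R ℓ ℓ' C γ tL tR kQ kP) :
    ∀ i j, 4 * (ℓ + kQ - kP - i) ≤ R → i < ℓ + kQ - kP - ℓ' → i ≤ j →
      j ≤ ℓ - kP + ℓ' + tL →
      j - i ≤ 10 ^ 125 * m.d (zet C γ kP ℓ i) (zet C γ kP ℓ j) := by
  intro i j hi hi' hij hj
  obtain ⟨z1, z2, z3, z4, z5, z6⟩ := h.sizes
  have hQ0 := h.kQ0
  have hP0 := h.kP0
  have hL0 := h.tL0
  have hlR := h.lR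
  have hlR' := h.lR'
  have hRl := h.Rl
  have hkQl := h.kQl
  have hkPl := h.kPl
  obtain ⟨v, hv⟩ : ∃ v, v = kP + i - ℓ := ⟨_, rfl⟩
  have ei : zet C γ kP ℓ i = C v := by
    rw [show i = ℓ - kP + v by omega, zet_q h (by omega)]
  rw [ei]
  by_cases c1 : j ≤ ℓ - kP
  · obtain ⟨w, hw⟩ : ∃ w, w = kP + j - ℓ := ⟨_, rfl⟩
    rw [show j = ℓ - kP + w by omega, zet_q h (by omega),
      h.geoC v w (by omega) (by omega) (by omega)]
    omega
  · obtain ⟨t, ht⟩ : ∃ t, t = j - (ℓ - kP) := ⟨_, rfl⟩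
    rw [show j = ℓ - kP + t by omega, zet_small h (by omega)]
    by_cases c2 : t ≤ tR
    · have h1 := h.NR1 v t (by omega) (by omega) (by omega) c2
      have h2 := m.nonneg (C v) (γ t)
      generalize m.d (C v) (γ t) = d at h1 h2 ⊢
      omega
    · have h3 : γ ℓ' = γ 0 := by
        have := h.cycg.1 0
        rwa [zero_add] at this
      have h4 := (h.cycg.isPath 0 t).le (le_refl 0) (by omega) (le_refl t)
      have h5 := (h.cycg.isPath t ℓ').le (le_refl t) (by omega) (le_refl ℓ')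
      rw [h3, m.symm (γ t) (γ 0), h.g0] at h5
      rw [h.g0] at h4
      have h6 := m.tri (C v) (γ t) (C 0)
      rw [m.symm (γ t) (C 0), h.geoC v 0 (by omega) (by omega) (by omega)] at h6
      generalize m.d (C 0) (γ t) = d2 at h4 h5 h6
      generalize m.d (C v) (γ t) = d at h6 ⊢
      omega

end Pool.Agent.H.MP_21aec1_al.Hy
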