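import Pool.Agent.H.MP_21aec1_al.Hy.TLS0

set_option autoImplicit false

namespace Pool.Agent.H.MP_21aec1_al.Hy

variable {X : Type} {m : GMet X} {H R ℓ ℓ' : ℤ} {C γ : ℤ → X} {tL tR kQ kP : ℤ}

/-- (s4), zone Z1: `0 ≤ i`, `4 i ≤ R`. `ζ i = C (kP + i)`, `q = ℓ + kQ - kP`, `p = ℓ - kP + tR`,
`a = p - q = tR - kQ`, `N = ℓ - kP + ℓ' + tL`, `r0 = N - ℓ'/10^95`.
`4 (q - j) ≥ R`: Cyc: `min (j-i) (ℓ-(j-i)) ≤ 10^25 d`, `ℓ - (j - i) ≥ ℓ - j ≥ R/4`: first.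
`4 (q - j) < R`, `j ≤ ℓ - kP`, `ζ j = C w`, `w = kP + j - ℓ ∈ [-R,0]`: if `8j ≤ 8p - a`: second,
`d(ζ i, ζ j) = kP + i - w ≥ i + H ≥ d(C (kP+i), γ tR) = d(ζ i, ζ p)` (`H ≤ kP` by `TL.sizes`);
else third. `ζ j = γ t`, `0 ≤ t ≤ tR`: if `8j ≤ 8p - a` second by NR2 (`8 (tR - t) ≥ a ≥
10^130 (H+1)`), else third. `p ≤ j ≤ r0`: third. `j > r0`: `x = N - j`, `10^95 x ≤ ℓ'`, fourth by
F1 (`v = kP + i`): `d(q,j) + i ≤ d(i,j)`, `d(i,p) ≤ i + H`, `5*10^125 H ≤ a`. -/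
theorem tls_z1 (h : TL m H R ℓ ℓ' C γ tL tR kQ kP) :
    ∀ i j, 0 ≤ i → 4 * i ≤ R → i ≤ j → j ≤ ℓ - kP + ℓ' + tL →
    (j - i ≤ 10 ^ 125 * m.d (zet C γ kP ℓ i) (zet C γ kP ℓ j)) ∨
    (8 * j ≤ 8 * (ℓ - kP + tR) - ((ℓ - kP + tR) - (ℓ + kQ - kP)) ∧
      m.d (zet C γ kP ℓ i) (zet C γ kP ℓ (ℓ - kP + tR)) ≤
        m.d (zet C γ kP ℓ i) (zet C γ kP ℓ j)) ∨
    (8 * (ℓ - kP + tR) - ((ℓ - kP + tR) - (ℓ + kQ - kP)) ≤ 8 * j ∧
      j ≤ ℓ - kP + ℓ' + tL - ℓ' / 10 ^ 95) ∨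
    (ℓ - kP + ℓ' + tL - ℓ' / 10 ^ 95 ≤ j ∧
      5 * 10 ^ 125 * (m.d (zet C γ kP ℓ i) (zet C γ kP ℓ (ℓ - kP + tR)) +
        m.d (zet C γ kP ℓ (ℓ + kQ - kP)) (zet C γ kP ℓ j) -
        m.d (zet C γ kP ℓ i) (zet C γ kP ℓ j)) ≤ (ℓ - kP + tR) - (ℓ + kQ - kP)) := by
  intro i j hi hiR hij hj
  have hkQ := h.kQl
  have hkQ0 := h.kQ0
  have hkP := h.kPl
  have hkP0 := h.kP0
  have hRl := h.Rl
  have htL := h.tL0
  have hbig := h.big
  have hH := h.H0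
  have hal := h.al
  have hhalf := h.half
  have hlR := h.lR
  have hlR' := h.lR'
  obtain ⟨hs1, hs2, hs3, hs4, hs5, hs6⟩ := h.sizes
  -- the distance from `ζ i` to `ζ p`
  have hzi : zet C γ kP ℓ i = C (kP + i) := zet_big (by omega)
  have hzp : zet C γ kP ℓ (ℓ - kP + tR) = γ tR := zet_small h (by omega)
  have hip : m.d (C (kP + i)) (γ tR) ≤ i + H := by
    have h1 := m.tri (C (kP + i)) (C kP) (γ tR)
    have h2 := h.geoC kP (kP + i) (by omega) (by omega) (by omega)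
    rw [m.symm] at h2
    have h3 := h.hP
    omega
  rw [hzi, hzp]
  by_cases hc1 : R ≤ 4 * (ℓ + kQ - kP - j)
  · left
    rw [zet_big (by omega : j ≤ ℓ - kP)]
    have h1 := h.cycC.2.2 (kP + i) (kP + j) (by omega) (by omega)
    have h0 := m.nonneg (C (kP + i)) (C (kP + j))
    generalize m.d (C (kP + i)) (C (kP + j)) = D at *
    rcases le_total (kP + j - (kP + i)) (kP + i + ℓ - (kP + j)) with h5 | h5
    · rw [min_eq_left h5] at h1
      omega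
    · rw [min_eq_right h5] at h1
      omega
  · right
    by_cases hc2 : j ≤ ℓ - kP
    · by_cases hc3 : 8 * j ≤ 8 * (ℓ - kP + tR) - ((ℓ - kP + tR) - (ℓ + kQ - kP))
      · left
        refine ⟨hc3, ?_⟩
        rw [zet_neg h hc2]
        have h1 := h.geoC (kP + j - ℓ) (kP + i) (by omega) (by omega) (by omega)
        rw [m.symm] at h1
        rw [h1]
        omega
      · right; left
        exact ⟨by omega, by omega⟩
    · obtain ⟨t, rfl⟩ : ∃ t, j = ℓ - kP + t := ⟨j - (ℓ - kP), by omega⟩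
      by_cases hc4 : t ≤ tR
      · by_cases hc3 : 8 * (ℓ - kP + t) ≤
            8 * (ℓ - kP + tR) - ((ℓ - kP + tR) - (ℓ + kQ - kP))
        · left
          refine ⟨hc3, ?_⟩
          rw [zet_small h (by omega : (0:ℤ) ≤ t)]
          have h1 := h.NR2 (kP + i) t (by omega) (by omega) (by omega) hc4
          generalize m.d (C (kP + i)) (γ t) = D at *
          generalize m.d (C (kP + i)) (γ tR) = D1 at *
          omega
        · right; left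
          exact ⟨by omega, by omega⟩
      · by_cases hc5 : ℓ - kP + t ≤ ℓ - kP + ℓ' + tL - ℓ' / 10 ^ 95
        · right; left
          exact ⟨by omega, hc5⟩
        · right; right
          refine ⟨by omega, ?_⟩
          obtain ⟨x, rfl⟩ : ∃ x, t = ℓ' + tL - x := ⟨ℓ' + tL - t, by omega⟩
          have hx : 10 ^ 95 * x ≤ ℓ' := by omega
          have h1 := h.F1 (kP + i) x (by omega) (by omega) (by omega) hx
          rw [show ℓ - kP + (ℓ' + tL - x) = ℓ - kP + ℓ' + tL - x by omega,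
            zet_end h (by omega), show ℓ + kQ - kP = ℓ - kP + kQ by omega, zet_q h hkQ0]
          generalize m.d (C (kP + i)) (γ tR) = D1 at *
          generalize m.d (C kQ) (γ (tL - x)) = D2 at *
          generalize m.d (C (kP + i)) (γ (tL - x)) = D3 at *
          omega

end Pool.Agent.H.MP_21aec1_al.Hy
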