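import Pool.Agent.H.MP_21aec1_al.Hy.TLS0

set_option autoImplicit false

namespace Pool.Agent.H.MP_21aec1_al.Hy

variable {X : Type} {m : GMet X} {H R ℓ ℓ' : ℤ} {C γ : ℤ → X} {tL tR kQ kP : ℤ}

/-- (s5). `q = ℓ + kQ - kP`, `a = tR - kQ`, `l0 = q - ℓ'`, `l1 = q - (a+7)/8`,
`N = ℓ - kP + ℓ' + tL`, `r1 = N - ℓ'/(2*10^95)`, `x = N - j`, `10^95 x ≤ ℓ'`,
`ζ j = γ (tL - x)`.
`i ≤ l1`: `ζ i = C (kQ - y)`, `y = q - i`, `a ≤ 8y`, `y ≤ ℓ'`: F2, fourth alternative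
(`2 (d(i,j) - d(q,j)) ≥ y`, `y > 0`). `l1 ≤ i`, `8i ≤ 8q + a`: third. `8i ≥ 8q + a`: `ζ i = C
(kQ + y)`, `kQ + y ≤ 0`: F3, second; `ζ i = γ t`, `t ≥ 0`, `10^95 (t - tR) ≤ ℓ'`: GS, second;
`ζ i = γ t`, `10^95 (t - tR) > ℓ'`: `j = ℓ - kP + t'`, Cyc: `min (t'-t) (ℓ'-(t'-t)) ≤ 10^25 d`,
`t' ≤ ℓ' + tL`, so `ℓ' - (t' - t) ≥ t - tL ≥ t - tR ≥ ℓ'/10^95`: first. -/
theorem tls_s5 (h : TL m H R ℓ ℓ' C γ tL tR kQ kP) :
    ∀ i j, ℓ + kQ - kP - ℓ' ≤ i → i ≤ j → ℓ - kP + ℓ' + tL - ℓ' / (2 * 10 ^ 95) < j →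
      j ≤ ℓ - kP + ℓ' + tL →
    (j - i ≤ 10 ^ 125 * m.d (zet C γ kP ℓ i) (zet C γ kP ℓ j)) ∨
    (8 * (ℓ + kQ - kP) + ((ℓ - kP + tR) - (ℓ + kQ - kP)) ≤ 8 * i ∧
      m.d (zet C γ kP ℓ (ℓ + kQ - kP)) (zet C γ kP ℓ j) ≤
        m.d (zet C γ kP ℓ i) (zet C γ kP ℓ j)) ∨
    (ℓ + kQ - kP - (tR - kQ + 7) / 8 ≤ i ∧
      8 * i ≤ 8 * (ℓ + kQ - kP) + ((ℓ - kP + tR) - (ℓ + kQ - kP))) ∨
    (i ≤ ℓ + kQ - kP - (tR - kQ + 7) / 8 ∧
      3 * ((ℓ + kQ - kP) - i) < 5 * 10 ^ 125 * (m.d (zet C γ kP ℓ i) (zet C γ kP ℓ j) -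
        m.d (zet C γ kP ℓ (ℓ + kQ - kP)) (zet C γ kP ℓ j))) := by
  intro i j hi hij hj hj'
  obtain ⟨z1, z2, z3, z4, z5, z6⟩ := h.sizes
  have hQ0 := h.kQ0
  have hP0 := h.kP0
  have hL0 := h.tL0
  have hal := h.al
  have hH := h.H0
  have hb := h.big
  have hhalf := h.half
  obtain ⟨x, hxe⟩ : ∃ x, x = ℓ - kP + ℓ' + tL - j := ⟨_, rfl⟩
  have hx0 : 0 ≤ x := by omega
  have hx : 10 ^ 95 * x ≤ ℓ' := by omega
  have ej : zet C γ kP ℓ j = γ (tL - x) := by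
    rw [show j = ℓ - kP + ℓ' + tL - x by omega, zet_end h (by omega)]
  have eq : zet C γ kP ℓ (ℓ + kQ - kP) = C kQ := by
    rw [show ℓ + kQ - kP = ℓ - kP + kQ by omega, zet_q h hQ0]
  rw [eq]
  by_cases c1 : i ≤ ℓ + kQ - kP - (tR - kQ + 7) / 8
  · refine Or.inr (Or.inr (Or.inr ⟨c1, ?_⟩))
    obtain ⟨y, hy⟩ : ∃ y, y = ℓ + kQ - kP - i := ⟨_, rfl⟩
    have ei : zet C γ kP ℓ i = C (kQ - y) := by
      rw [show i = ℓ - kP + (kQ - y) by omega, zet_q h (by omega)]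
    have h1 := h.F2 y x (by omega) (by omega) hx0 hx
    rw [ei, ej, ← hy]
    have h2 : 0 < y := by omega
    generalize m.d (C (kQ - y)) (γ (tL - x)) = d1 at h1 ⊢
    generalize m.d (C kQ) (γ (tL - x)) = d2 at h1 ⊢
    omega
  · by_cases c2 : 8 * i ≤ 8 * (ℓ + kQ - kP) + ((ℓ - kP + tR) - (ℓ + kQ - kP))
    · exact Or.inr (Or.inr (Or.inl ⟨by omega, c2⟩))
    · by_cases c3 : i ≤ ℓ - kP
      · refine Or.inr (Or.inl ⟨by omega, ?_⟩)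
        obtain ⟨y, hy⟩ : ∃ y, y = i - (ℓ + kQ - kP) := ⟨_, rfl⟩
        have ei : zet C γ kP ℓ i = C (kQ + y) := by
          rw [show i = ℓ - kP + (kQ + y) by omega, zet_q h (by omega)]
        rw [ei, ej]
        exact h.F3 y x (by omega) (by omega) hx0 hx
      · obtain ⟨t, ht⟩ : ∃ t, t = i - (ℓ - kP) := ⟨_, rfl⟩
        have ei : zet C γ kP ℓ i = γ t := by
          rw [show i = ℓ - kP + t by omega, zet_small h (by omega)]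
        by_cases c4 : 10 ^ 95 * (t - tR) ≤ ℓ'
        · refine Or.inr (Or.inl ⟨by omega, ?_⟩)
          rw [ei, ej]
          exact h.GS t x (by omega) c4 (by omega) hx0 hx
        · refine Or.inl ?_
          obtain ⟨t', ht'⟩ : ∃ t', t' = j - (ℓ - kP) := ⟨_, rfl⟩
          have ej' : zet C γ kP ℓ j = γ t' := by
            rw [show j = ℓ - kP + t' by omega, zet_small h (by omega)]
          rw [ei, ej']
          have h1 := h.cycg.2.2 t t' (by omega) (by omega)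
          generalize m.d (γ t) (γ t') = d at h1 ⊢
          rcases le_total (t' - t) (t + ℓ' - t') with h2 | h2
          · rw [min_eq_left h2] at h1
            omega
          · rw [min_eq_right h2] at h1
            omega

end Pool.Agent.H.MP_21aec1_al.Hy
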