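import Pool.Agent.H.MP_21aec1_al.Hy.TLSa
import Pool.Agent.H.MP_21aec1_al.Hy.TLSb
import Pool.Agent.H.MP_21aec1_al.Hy.TLSc
import Pool.Agent.H.MP_21aec1_al.Hy.TLSd
import Pool.Agent.H.MP_21aec1_al.Hy.TLSe

set_option autoImplicit false

namespace Pool.Agent.H.MP_21aec1_al.Hy

variable {X : Type} {m : GMet X}

/-- TL DATA GIVE S DATA, with `K = 10^125`, `lam = 5 K`. -/
theorem sdata_of_tl {H R ℓ ℓ' : ℤ} {C γ : ℤ → X} {tL tR kQ kP : ℤ}
    (h : TL m H R ℓ ℓ' C γ tL tR kQ kP) {a0 : ℤ} (ha : a0 ≤ tR) :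
    SData m (10 ^ 125) (5 * 10 ^ 125) a0 (zet C γ kP ℓ) (ℓ - kP + ℓ' + tL)
      (ℓ + kQ - kP - ℓ') (ℓ + kQ - kP - (tR - kQ + 7) / 8) (ℓ + kQ - kP) (ℓ - kP + tR)
      (ℓ - kP + ℓ' + tL - ℓ' / 10 ^ 95) (ℓ - kP + ℓ' + tL - ℓ' / (2 * 10 ^ 95)) := by
  obtain ⟨z1, z2, z3, z4, z5, z6⟩ := h.sizes
  have hb := h.big
  have hH := h.H0
  have hQ0 := h.kQ0
  have hP0 := h.kP0
  have hL0 := h.tL0
  have hal := h.al
  have hlR := h.lR'
  have hRl := h.Rl
  have hkQl := h.kQl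
  have hkPl := h.kPl
  constructor
  · exact tls_path h
  · omega
  · omega
  · omega
  · omega
  · omega
  · omega
  · omega
  · omega
  · omega
  · omega
  · exact tls_s1 h
  · rw [zet_big (by omega), zet_small h (by omega), add_zero]
    have := h.hP
    omega
  · rw [show ℓ + kQ - kP = ℓ - kP + kQ by omega, zet_q h hQ0,
      show ℓ - kP + ℓ' + tL = ℓ - kP + ℓ' + tL - 0 by omega, zet_end h (by omega), sub_zero]
    have := h.hQ
    omega
  · intro i j hi hi' hij hj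
    by_cases hz1 : 4 * i ≤ R
    · exact tls_z1 h i j hi hz1 hij hj
    · by_cases hz3 : 4 * (ℓ + kQ - kP - i) ≤ R
      · exact Or.inl (tls_z3 h i j hz3 hi' hij hj)
      · exact Or.inl (tls_z2 h i j (by omega) (by omega) hij hj)
  · intro i j hi hij hj hj'
    exact tls_s5 h i j hi hij hj hj'

end Pool.Agent.H.MP_21aec1_al.Hy
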