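import Pool.Agent.H.MP_21aec1_al.Hy.NotCF
import Pool.Agent.H.MP_21aec1_al.Hy.TLS
import Pool.Agent.H.MP_21aec1_al.Hy.Loops
import Pool.Agent.H.MP_21aec1_al.Hy.CaseA
import Pool.Agent.H.MP_21aec1_al.Hy.CaseB
import Pool.Agent.H.MP_21aec1_al.Hy.DflLoop
import Pool.Agent.H.MP_21aec1_al.Hy.PairB

set_option autoImplicit false

namespace Pool.Agent.H.MP_21aec1_al.Hy

variable {G : Type} [Group G]

/-- If the `(5*10^125, 5*10^125+8)`-quasigeodesic words form a context-free language then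
geodesic triangles are uniformly slim. -/
theorem slim_of_contextFree {S : Finset G} (hS : SymmGenerates S ⊤)
    (h : (quasigeodesics S ((5 * 10 ^ 125 : ℤ) : ℝ)
      ((5 * 10 ^ 125 + 8 : ℤ) : ℝ)).IsContextFree) :
    ∃ δ, (wordMet S hS).Slim δ := by
  by_contra hns
  have hl := GMet.loops hns
  refine not_cf hS (K := 10 ^ 125) (by norm_num) ?_ h
  intro a0
  by_cases hA : ∀ H : ℤ, ∃ (c : ℤ → G) (κ ℓ k ρ : ℤ), κ ≤ ℓ ∧ ℓ ≤ 10 ^ 8 * κ ∧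
      (wordMet S hS).Geo c 0 κ ∧ (wordMet S hS).Cyc (10 ^ 8) c ℓ ∧ κ ≤ 3 * k ∧
      3 * k ≤ 2 * κ ∧ H ≤ ρ ∧ 10 ^ 60 * ρ ≤ κ ∧
      (wordMet S hS).Detour (10 ^ 22) c 0 κ k ρ
  · obtain ⟨c, κ, ℓ, k, ρ, h1, h2, h3, h4, h5, h6, h7, h8, h9⟩ := hA (max (10 ^ 131) (2 * a0))
    obtain ⟨R, ℓ', C, γ, tL, tR, kQ, kP, hρ, htl⟩ :=
      tl_of_detour h1 h2 h3 h4 h5 h6 ((le_max_left _ _).trans h7) h8 h9
    have h10 := (le_max_right _ _).trans h7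
    exact ⟨_, _, _, _, _, _, _, _, sdata_of_tl htl (a0 := a0) (by omega)⟩
  · push Not at hA
    obtain ⟨H, hH⟩ := hA
    set r0 : ℤ := max H 1 with hr0
    have hr1 : 1 ≤ r0 := le_max_right _ _
    have hr2 : H ≤ r0 := le_max_left _ _
    have hD : ∀ n : ℤ, ∃ (c : ℤ → G) (κ ℓ : ℤ), n ≤ κ ∧ DFL (wordMet S hS) r0 κ ℓ c := by
      intro n
      obtain ⟨c, κ, ℓ, hn, _, h1, h2, h3, h4⟩ := hl (max (2 * n + 2) (10 ^ 71 * r0))
      have hn1 := (le_max_left _ _).trans hn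
      have hn2 := (le_max_right _ _).trans hn
      refine ⟨_, κ / 2, ℓ, by omega, dfl_of_loop hr1 hn2 h1 h2 h3 h4 ?_⟩
      intro k ρ hk hk' hρ hρ'
      exact hH c κ ℓ k ρ h1 h2 h3 h4 hk hk' (by omega) hρ'
    obtain ⟨κ', ℓ', κ, ℓ, γ, C, hp⟩ := exists_pair hD (max (10 ^ 160 * r0) a0) (le_max_left _ _)
    obtain ⟨tL, tR, kQ, kP, h1, htl⟩ := tl_of_pair hp
    have h2 := (le_max_right _ _).trans h1
    exact ⟨_, _, _, _, _, _, _, _, sdata_of_tl htl h2⟩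

end Pool.Agent.H.MP_21aec1_al.Hy
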