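import Pool.Agent.H.MP_21aec1_al.Hy.Base

set_option autoImplicit false

namespace Pool.Agent.H.MP_21aec1_al.Hy

namespace GMet

variable {X : Type} {m : GMet X}

private theorem ivt_aux {σ f : ℤ → X} {A B s t E a b v : ℤ} (hσ : m.Geo σ A B) (hst : s ≤ t)
    (hf : m.IsPath f s t) (hn : ∀ i, s ≤ i → i ≤ t → m.Nr σ A B E (f i))
    (ha : A ≤ a) (hfa : m.d (f s) (σ a) ≤ E)
    (hb' : b ≤ B) (hfb : m.d (f t) (σ b) ≤ E)
    (hv : a ≤ v) (hv' : v ≤ b) :
    ∃ i, s ≤ i ∧ i ≤ t ∧ m.d (f i) (σ v) ≤ 3 * E + 1 := by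
  have hE : 0 ≤ E := (m.nonneg _ _).trans hfa
  obtain ⟨i, ⟨hi, hi', w, hw, hwv, hd⟩, him⟩ := Int.exists_greatest_of_bdd
    (P := fun i => s ≤ i ∧ i ≤ t ∧ ∃ w, A ≤ w ∧ w ≤ v ∧ m.d (f i) (σ w) ≤ E)
    ⟨t, fun z hz => hz.2.1⟩ ⟨s, le_refl _, hst, a, ha, hv, hfa⟩
  refine ⟨i, hi, hi', ?_⟩
  rcases eq_or_lt_of_le hi' with hit | hit
  · subst hit
    have h1 := m.tri (σ w) (f i) (σ b)
    rw [m.symm (σ w) (f i), hσ w b hw (by omega) hb'] at h1
    have h2 := m.tri (f i) (σ w) (σ v)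
    rw [hσ w v hw hwv (by omega)] at h2
    omega
  · obtain ⟨w', hw', hw'', hd'⟩ := hn (i + 1) (by omega) (by omega)
    have h3 : v < w' := by
      by_contra hc
      have := him (i + 1) ⟨by omega, by omega, w', hw', by omega, hd'⟩
      omega
    have h1 := m.tri (σ w) (f i) (σ w')
    have h1' := m.tri (f i) (f (i + 1)) (σ w')
    have h1'' := hf i hi hit
    rw [m.symm (σ w) (f i), hσ w w' hw (by omega) hw''] at h1
    have h2 := m.tri (f i) (σ w) (σ v)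
    rw [hσ w v hw hwv (by omega)] at h2
    omega

/-- DISCRETE INTERMEDIATE VALUES. A path all of whose points are within `E` of the geodesic `σ`
and which goes from (near) `σ a` to (near) `σ b` passes within `3E+1` of `σ v` for every `v`
between `a` and `b`.
Proof (case `a ≤ v ≤ b`, the other one by reflection `σ' i = σ (-i)` or the same argument).
Let `i ∈ [s,t]` be the largest index such that there is `w ∈ [A,v]` with `d(f i, σ w) ≤ E`
(`i = s`, `w = a` works). If `i = t`: `|w - b| = d(σ w, σ b) ≤ 2E`, `w ≤ v ≤ b`, so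
`d(f t, σ v) ≤ E + 2E`. If `i < t`: `f (i+1)` is within `E` of `σ w'`, necessarily `w' > v`;
`w' - w ≤ 2E + 1`, so `v - w ≤ 2E+1` and `d(f i, σ v) ≤ 3E + 1`. -/
theorem ivt_near {σ f : ℤ → X} {A B s t E a b v : ℤ} (hσ : m.Geo σ A B) (hst : s ≤ t)
    (hf : m.IsPath f s t) (hn : ∀ i, s ≤ i → i ≤ t → m.Nr σ A B E (f i))
    (ha : A ≤ a) (ha' : a ≤ B) (hfa : m.d (f s) (σ a) ≤ E)
    (hb : A ≤ b) (hb' : b ≤ B) (hfb : m.d (f t) (σ b) ≤ E)
    (hv : (a ≤ v ∧ v ≤ b) ∨ (b ≤ v ∧ v ≤ a)) :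
    ∃ i, s ≤ i ∧ i ≤ t ∧ m.d (f i) (σ v) ≤ 3 * E + 1 := by
  rcases hv with ⟨h1, h2⟩ | ⟨h1, h2⟩
  · exact ivt_aux hσ hst hf hn ha hfa hb' hfb h1 h2
  · have h3 := ivt_aux (σ := fun i => σ (-i)) (A := -B) (B := -A) (a := -a) (b := -b) (v := -v)
      hσ.neg hst hf (fun i hi hi' => by
        obtain ⟨w, hw, hw', hd⟩ := hn i hi hi'
        refine ⟨-w, by omega, by omega, ?_⟩
        simpa only [neg_neg] using hd) (by omega) (by simpa only [neg_neg] using hfa)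
      (by omega) (by simpa only [neg_neg] using hfb) (by omega) (by omega)
    simpa only [neg_neg] using h3

end GMet

end Pool.Agent.H.MP_21aec1_al.Hy
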