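import Pool.Agent.H.MP_21aec1_al.Hy.Fact
import Pool.Agent.H.MP_21aec1_al.Hy.Ivt

set_option autoImplicit false

namespace Pool.Agent.H.MP_21aec1_al.Hy

namespace GMet

variable {X : Type} {m : GMet X}

/-- GATES (K = 1). `σ` geodesic from `x` to `y`, `g` geodesic from `x` to `z`, `H = 2*(10^5*r0)`.
There are `n0 ∈ [0, d x z]` and `k ∈ [0, d x y]` with `d(g n0, σ k) ≤ H`, linear divergence after
`n0`, and every `σ v`, `0 ≤ v ≤ k`, is within `52 H + 1` of `g [0,n0]`.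
Proof. `n0` = last `n` such that `g n` is within `H` of `σ` (`n = 0` works, `g 0 = σ 0`).
Divergence: `diverge` with `K = 1`, `C = 10^5`, `[A,B] = [P,Q] = [0,d x y]`, `r1` huge.
Before `n0` all points are within `17 H` of `σ` (`fact1'`), then `ivt_near`. -/
theorem gate {r0 : ℤ} (hr0 : 1 ≤ r0)
    (nd : ∀ (σ : ℤ → X) (A B : ℤ), m.Geo σ A B → ∀ k ρ, r0 ≤ ρ → ¬ m.Detour (10 ^ 5) σ A B k ρ)
    {x y z : X} {σ g : ℤ → X} (hσ : m.IsGeo σ x y) (hg : m.IsGeo g x z) :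
    ∃ n0 k, 0 ≤ n0 ∧ n0 ≤ m.d x z ∧ 0 ≤ k ∧ k ≤ m.d x y ∧
      m.d (g n0) (σ k) ≤ 2 * (10 ^ 5 * r0) ∧
      (∀ n v, n0 ≤ n → n ≤ m.d x z → 0 ≤ v → v ≤ m.d x y → n - n0 ≤ 32 * m.d (g n) (σ v)) ∧
      (∀ v, 0 ≤ v → v ≤ k → m.Nr g 0 (m.d x z) (52 * (2 * (10 ^ 5 * r0)) + 1) (σ v)) := by
  obtain ⟨hσ0, hσ1, hσg⟩ := hσ
  obtain ⟨hg0, hg1, hgg⟩ := hg
  have hxy := m.nonneg x y
  have hxz := m.nonneg x z
  have hnd : ∀ r1, m.NoDet (10 ^ 5) σ 0 (m.d x y) 0 (m.d x y) r0 r1 :=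
    fun r1 k ρ _ _ hρ _ => nd σ 0 (m.d x y) hσg k ρ hρ
  obtain ⟨n0, ⟨hn0, hn0', hN⟩, hmax⟩ := Int.exists_greatest_of_bdd
    (P := fun n => 0 ≤ n ∧ n ≤ m.d x z ∧ m.Nr σ 0 (m.d x y) (2 * (10 ^ 5 * r0)) (g n))
    ⟨m.d x z, fun n hn => hn.2.1⟩
    ⟨0, le_refl _, hxz, 0, le_refl _, hxy, by rw [hg0, hσ0, m.self]; omega⟩
  obtain ⟨k, hk, hk', hd⟩ := id hN
  refine ⟨n0, k, hn0, hn0', hk, hk', hd, ?_, ?_⟩
  · intro n v hn hn' hv hv'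
    have := diverge (K := 1) (C := 10 ^ 5) (r1 := n - n0) (le_refl _) (by norm_num) hr0 hσg
      (hnd (n - n0)) (γ := g) (s := n0) (t := n) hn ((hgg.mono hn0 hn').biLip (le_refl _))
      (by omega) (fun v hv hv' _ => ⟨hv, hv'⟩) hN
      (fun i hi hi' hNi => by
        have := hmax i ⟨by omega, by omega, hNi⟩
        omega) hv hv'
    omega
  · intro v hv hv'
    have hnear : ∀ i, 0 ≤ i → i ≤ n0 → m.Nr σ 0 (m.d x y) (17 * (1 * (2 * (10 ^ 5 * r0)))) (g i) :=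
      fun i hi hi' => fact1' (K := 1) (C := 10 ^ 5) (r1 := n0) (le_refl _) (by norm_num) hr0 hσg
        (hnd n0) (γ := g) (s := 0) (t := n0) hn0 ((hgg.mono (le_refl _) hn0').biLip (le_refl _))
        (by omega) (fun v hv hv' _ => ⟨hv, hv'⟩)
        ⟨0, le_refl _, hxy, by rw [hg0, hσ0, m.self]; omega⟩ hN hi hi'
    obtain ⟨i, hi, hi', hdi⟩ := ivt_near (E := 17 * (1 * (2 * (10 ^ 5 * r0)))) (a := 0) (b := k)
      (v := v) hσg hn0 (hgg.isPath.mono (le_refl _) hn0') hnear (le_refl _) hxy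
      (by rw [hg0, hσ0, m.self]; omega) hk hk' (by omega) (Or.inl ⟨hv, hv'⟩)
    refine ⟨i, hi, by omega, ?_⟩
    rw [m.symm]
    omega

end GMet

end Pool.Agent.H.MP_21aec1_al.Hy
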