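import Pool.Agent.H.MP_21aec1_al.Hy.Micro

set_option autoImplicit false

namespace Pool.Agent.H.MP_21aec1_al.Hy

variable {X : Type} {m : GMet X}

/-- Greatest element of a nonempty set of integers of `[0,L]`. -/
private theorem gateM_greatest (P : ℤ → Prop) (L : ℤ) (hL : 0 ≤ L) (hP : P 0) :
    ∃ n, 0 ≤ n ∧ n ≤ L ∧ P n ∧ ∀ i, n < i → i ≤ L → ¬ P i := by
  classical
  have hex : ∃ k : ℕ, 0 ≤ L - k ∧ P (L - (k : ℤ)) :=
    ⟨L.toNat, by rw [Int.toNat_of_nonneg hL]; omega, by
      rw [Int.toNat_of_nonneg hL, sub_self]; exact hP⟩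
  refine ⟨L - (Nat.find hex : ℤ), (Nat.find_spec hex).1, by omega, (Nat.find_spec hex).2, ?_⟩
  intro i hi hi' hPi
  have h0 := (Nat.find_spec hex).1
  have h1 : Nat.find hex ≤ (L - i).toNat :=
    Nat.find_min' hex ⟨by omega, by
      rw [Int.toNat_of_nonneg (by omega), sub_sub_cancel]; exact hPi⟩
  omega

/-- GATE LEMMA (micro case): a geodesic from `C v` to `z = γ (tL - x)` leaves the big side between
the hubs. Output: the gate `y` and `D(C v, z) ≥ |v - y| + d(C y, z) - 2H`. -/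
theorem Hub.gate {r0 κ1 κ' ℓ' κ ℓ : ℤ} {γ C : ℤ → X} (h : LPair m r0 κ1 κ' ℓ' κ ℓ γ C)
    {tL tR kQ kP : ℤ} (hh : Hub m r0 κ1 κ ℓ' γ C tL tR kQ kP)
    (hmR : 10 ^ 62 * tR ≤ κ') (hmL : -κ' ≤ 10 ^ 62 * tL)
    {v x : ℤ} (hv : 10 ^ 62 * |v| ≤ κ) (hx : 0 ≤ x) (hx' : 10 ^ 62 * x ≤ κ') :
    ∃ y, kQ - 10 ^ 60 * r0 ≤ y ∧ y ≤ kP + 10 ^ 60 * r0 ∧
      |v - y| + m.d (C y) (γ (tL - x)) ≤ m.d (C v) (γ (tL - x)) + 4 * (10 ^ 22 * r0) := by
  obtain ⟨hkP1, hkP2, hkP3⟩ := Hub.kP_bounds h hh
  have hhn := hh.neg h.small.cyc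
  obtain ⟨hkQ1, hkQ2, hkQ3⟩ := Hub.kP_bounds h.neg hhn
  have hr0 := h.big.r0pos
  have hk' := h.small.kbig
  have hlo := h.small.lo
  have hh1 := h.h1
  have hh2 := h.h2
  have hh3 := h.h3
  have htR1 := hh.tR1
  have htR4 := hh.tR4
  have htL1 := hh.tL1
  have htL4 := hh.tL4
  have hv1 : -|v| ≤ v := neg_abs_le v
  have hv2 : v ≤ |v| := le_abs_self v
  have hv0 : 0 ≤ |v| := abs_nonneg v
  have hcom0 : γ 0 = C 0 := h.com 0 (by omega) (by omega)
  have hgγ := h.small.geo
  have hgC := h.big.geo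
  obtain ⟨g, hg0, hgL, hgg⟩ := GMet.exists_isGeo (m := m) (C v) (γ (tL - x))
  obtain ⟨L, hLdef⟩ : ∃ L, m.d (C v) (γ (tL - x)) = L := ⟨_, rfl⟩
  rw [hLdef] at hgL hgg ⊢
  have hL : 0 ≤ L := by rw [← hLdef]; exact m.nonneg _ _
  have hnr0 : m.Nr C (-κ) κ (2 * (10 ^ 22 * r0)) (g 0) :=
    ⟨v, by omega, by omega, by rw [hg0, m.self]; omega⟩
  obtain ⟨m0, hm00, hm0L, ⟨y, hya, hyb, hyd⟩, hmax⟩ :=
    gateM_greatest (fun n => m.Nr C (-κ) κ (2 * (10 ^ 22 * r0)) (g n)) L hL hnr0
  have hL1 : L ≤ |v| - tL + x := by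
    have e1 := m.tri (C v) (C 0) (γ (tL - x))
    have e2 : m.d (C v) (C 0) = |0 - v| := hgC.abs (by omega) (by omega) (by omega) (by omega)
    have e3 : m.d (γ (tL - x)) (γ 0) = 0 - (tL - x) :=
      hgγ (tL - x) 0 (by omega) (by omega) (by omega)
    have e4 := m.symm (γ (tL - x)) (γ 0)
    rw [zero_sub, abs_neg] at e2
    rw [← hcom0] at e1 e2
    omega
  have hm0eq : m.d (g 0) (g m0) = m0 := by
    rw [hgg 0 m0 (le_refl _) hm00 hm0L, sub_zero]
  have hm0eq' : m.d (g m0) (g L) = L - m0 := hgg m0 L hm00 hm0L (le_refl _)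
  have hvy : |v - y| ≤ m0 + 2 * (10 ^ 22 * r0) := by
    have e1 : m.d (C y) (C v) = |v - y| := hgC.abs hya hyb (by omega) (by omega)
    have e2 := m.tri (C v) (g m0) (C y)
    have e3 := m.symm (C y) (C v)
    rw [hg0] at hm0eq
    omega
  have hvy1 := neg_abs_le (v - y)
  have hvy2 := le_abs_self (v - y)
  have hyz : m.d (C y) (γ (tL - x)) ≤ 2 * (10 ^ 22 * r0) + (L - m0) := by
    have e1 := m.tri (C y) (g m0) (γ (tL - x))
    have e2 := m.symm (C y) (g m0)
    rw [← hgL] at e1 ⊢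
    omega
  have hgeo' : m.Geo (fun i => g (m0 + i)) 0 (L - m0) := by
    intro i j hi hij hj
    have := hgg (m0 + i) (m0 + j) (by omega) (by omega) (by omega)
    simp only
    rw [this]
    omega
  -- divergence of the geodesic from the big side
  have hdf : ∀ j c, 0 ≤ j → j ≤ L - m0 → -κ ≤ c → c ≤ κ →
      j ≤ 32 * m.d (g (m0 + j)) (C c) := by
    intro j c hj hj' hc hc'
    have hd0 : 100 * m.d (g (m0 + 0)) (C 0) ≤ κ := by
      rw [add_zero]
      have e1 := m.tri (g m0) (C y) (C 0)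
      have e2 : m.d (C y) (C 0) = |0 - y| :=
        hgC.abs (by omega) (by omega) (by omega) (by omega)
      have e3 : |0 - y| ≤ |v - y| + |v| := by
        rcases abs_cases (0 - y) with ⟨q1, _⟩ | ⟨q1, _⟩ <;> omega
      omega
    have := h.big.dvg (K := 1) (le_refl _) (by norm_num) (f := fun i => g (m0 + i))
      (s := 0) (t := j) hj ((hgeo'.mono (le_refl _) hj').biLip (le_refl _))
      (by omega) hd0
      ⟨y, hya, hyb, by simpa using hyd⟩
      (fun i hi hi' => hmax (m0 + i) (by omega) (by omega)) hc hc'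
    simp only [one_mul] at this
    omega
  -- divergence of the small side from the big side
  have hgeoγ : m.Geo (fun i => γ (tL - i)) 0 x := by
    intro i j hi hij hj
    have := hgγ (tL - j) (tL - i) (by omega) (by omega) (by omega)
    rw [m.symm] at this
    simp only
    rw [this]
    omega
  have hdg : ∀ j c, 0 ≤ j → j ≤ x → -κ ≤ c → c ≤ κ →
      j ≤ 32 * m.d (γ (tL - j)) (C c) := by
    intro j c hj hj' hc hc'
    have hd0 : 100 * m.d (γ (tL - 0)) (C 0) ≤ κ := by
      rw [sub_zero, ← hcom0]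
      have e2 : m.d (γ tL) (γ 0) = 0 - tL := hgγ tL 0 (by omega) (by omega) (by omega)
      omega
    have hQ := hh.hQ
    have := h.big.dvg (K := 1) (le_refl _) (by norm_num) (f := fun i => γ (tL - i))
      (s := 0) (t := j) hj ((hgeoγ.mono (le_refl _) hj').biLip (le_refl _))
      (by omega) hd0
      ⟨kQ, hh.kQ1, hh.kQ2, by simpa using hQ⟩
      (fun i hi hi' hn => by
        refine hh.far (tL - i + ℓ') (by omega) (by omega) ?_
        rw [h.small.cyc.1]
        exact hn) hc hc'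
    simp only [one_mul] at this
    omega
  obtain ⟨Y, hY⟩ : ∃ Y, |y - kQ| = Y := ⟨_, rfl⟩
  have hY0 : 0 ≤ Y := by rw [← hY]; exact abs_nonneg _
  have hY1 := neg_abs_le (y - kQ)
  have hY2 := le_abs_self (y - kQ)
  have hYle : Y ≤ |v - y| + |v| - kQ := by
    rcases abs_cases (y - kQ) with ⟨q1, _⟩ | ⟨q1, _⟩ <;> omega
  have hcases : Y < 10 ^ 3 * (2 * (10 ^ 22 * r0)) ∨ 100 * Y < x := by
    by_contra hcon
    push Not at hcon
    obtain ⟨hc1, hc2⟩ := hcon
    have hlen : L - m0 ≤ 2 * (2 * (10 ^ 22 * r0)) + Y + x := by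
      have e1 := m.tri (g m0) (C y) (g L)
      have e2 := m.tri (C y) (C kQ) (g L)
      have e3 := m.tri (C kQ) (γ tL) (g L)
      have e4 : m.d (C kQ) (C y) = |y - kQ| := hgC.abs (by omega) (by omega) hya hyb
      have e5 := m.symm (C kQ) (C y)
      have e6 : m.d (γ tL) (γ (tL - x)) = x := by
        rw [m.symm, hgγ (tL - x) tL (by omega) (by omega) (by omega)]
        omega
      have e7 := hh.hQ
      have e8 := m.symm (C kQ) (γ tL)
      rw [← hgL] at e6
      omega
    refine GMet.pincer (m := m) (C := 10 ^ 22) (r0 := r0) (r1 := κ / 10 ^ 60) (A := -κ) (B := κ)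
      (P := -(κ / 4)) (Q := κ / 4) (E := 2 * (10 ^ 22 * r0)) (Y := Y) (τ := C)
      (by norm_num) hr0 hgC h.big.nd (y := y) (h := kQ) hY hya hyb (by omega) (by omega)
      (by omega) (by omega) (by omega) (by omega) (by omega) (by omega) (by omega)
      (by omega) (f := fun i => g (m0 + i)) (g := fun i => γ (tL - i)) (n1 := L - m0) (n2 := x)
      (by omega) hx hgeo'.isPath hgeoγ.isPath (by omega) ?_ ?_ ?_ ?_ ?_
    · simp only [add_zero]
      exact hyd
    · simp only [sub_zero]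
      exact hh.hQ
    · rw [show m0 + (L - m0) = L by omega, hgL, m.self]
      omega
    · intro j c hj hj' hc hc'
      left
      have := hdf j c hj hj' hc hc'
      omega
    · intro j c hj hj' hc hc'
      left
      have := hdg j c hj hj' hc hc'
      omega
  refine ⟨y, ?_, ?_, by omega⟩
  · rcases hcases with hc | hc
    · omega
    · by_cases hq : kQ ≤ y
      · omega
      · have hz : |x - tL| = x - tL := abs_of_nonneg (by omega)
        have := Hub.gatecore h.neg hhn (by omega) (by omega) (tz := x - tL) (y := -y)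
          (L := L - m0) (by rw [hz]; omega) (by omega) (by omega)
          (g := fun i => g (m0 + i)) (by omega) hgeo'
          (by simp only [add_zero, neg_neg]; exact hyd)
          (by rw [show m0 + (L - m0) = L by omega, hgL, neg_sub])
          (fun n w hn hn' hw hw' => hdf n (-w) hn hn' (by omega) (by omega))
        omega
  · rcases hcases with hc | hc
    · omega
    · by_cases hq : y ≤ kP
      · omega
      · have hz : |tL - x| = x - tL := by rw [abs_of_nonpos (by omega)]; omega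
        have := Hub.gatecore h hh hmR hmL (tz := tL - x) (y := y)
          (L := L - m0) (by rw [hz]; omega) (by omega) (by omega)
          (g := fun i => g (m0 + i)) (by omega) hgeo'
          (by simp only [add_zero]; exact hyd)
          (by rw [show m0 + (L - m0) = L by omega, hgL])
          (fun n w hn hn' hw hw' => hdf n w hn hn' (by omega) (by omega))
        omega

end Pool.Agent.H.MP_21aec1_al.Hy
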