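import Pool.Agent.H.MP_21aec1_al.Hy.FactB
import Pool.Agent.H.MP_21aec1_al.Hy.Ivt

set_option autoImplicit false

namespace Pool.Agent.H.MP_21aec1_al.Hy

variable {X : Type} {m : GMet X}

/-- Between the hubs the small loop stays within `10^32 r0` of the side of the big loop
(`DFL.close` with `K = 10^8` on `[0,tR]` and, for `t < 0`, on `[tL,0]`). -/
theorem Hub.fellow {r0 κ1 κ' ℓ' κ ℓ : ℤ} {γ C : ℤ → X} (h : LPair m r0 κ1 κ' ℓ' κ ℓ γ C)
    {tL tR kQ kP : ℤ} (hh : Hub m r0 κ1 κ ℓ' γ C tL tR kQ kP) {t : ℤ} (ht : tL ≤ t)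
    (ht' : t ≤ tR) : m.Nr C (-κ) κ (10 ^ 32 * r0) (γ t) := by
  have hk := h.big.kbig
  have h1 := h.h1
  have h2 := h.h2
  have h3 := h.h3
  have hr0 := h.big.r0pos
  have hlo := h.small.lo
  have hR := hh.tR4
  have hL := hh.tL4
  have hR1 := hh.tR1
  have hL1 := hh.tL1
  have g0 : γ 0 = C 0 := h.com 0 (by omega) (by omega)
  have hmem0 : m.Nr C (-κ) κ (2 * (10 ^ 22 * r0)) (γ 0) :=
    ⟨0, by omega, by omega, by rw [g0, m.self]; omega⟩
  have hval : (10 ^ 24 * (10 ^ 8 * r0) : ℤ) = 10 ^ 32 * r0 := by ring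
  rcases le_total 0 t with ht0 | ht0
  · have := h.big.close (K := 10 ^ 8) (by norm_num) (by norm_num) (f := γ) (s := 0) (t := tR)
      (by omega) (h.small.cyc.biLip (by omega)) (by omega) (by rw [g0, m.self]; omega) hmem0
      ⟨kP, hh.kP1, hh.kP2, hh.hP⟩ ht0 ht'
    rwa [hval] at this
  · have hdL : 100 * m.d (γ tL) (C 0) ≤ κ := by
      have := (h.small.cyc.isPath tL 0).le (le_refl _) (show tL ≤ 0 by omega) (le_refl _)
      rw [g0] at this
      omega
    have := h.big.close (K := 10 ^ 8) (by norm_num) (by norm_num) (f := γ) (s := tL) (t := 0)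
      (by omega) (h.small.cyc.biLip (by omega)) (by omega) hdL
      ⟨kQ, hh.kQ1, hh.kQ2, hh.hQ⟩ hmem0 ht ht0
    rwa [hval] at this

end Pool.Agent.H.MP_21aec1_al.Hy
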