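import Pool.Agent.H.MP_21aec1_al.Hy.WMet

set_option autoImplicit false

namespace Pool.Agent.H.MP_21aec1_al

variable {G : Type} [Group G]

/-- `f 0, f 1, …, f n` with `n = d_S(x⁻¹ y)` are the vertices of a geodesic from `x` to `y` in the
Cayley graph of `G` with respect to `S`. -/
def IsGeodesicPath (S : Finset G) (f : ℕ → G) (x y : G) : Prop :=
  f 0 = x ∧ f (wordLength S (x⁻¹ * y)) = y ∧
    ∀ i j : ℕ, i ≤ j → j ≤ wordLength S (x⁻¹ * y) → wordLength S ((f i)⁻¹ * f j) = j - i

/-- Geodesic triangles in the Cayley graph are `δ`-slim: every vertex on one side is within `δ` of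
a vertex on one of the two other sides. -/
def SlimTriangles (S : Finset G) (δ : ℕ) : Prop :=
  ∀ (x y z : G) (f g h : ℕ → G), IsGeodesicPath S f x y → IsGeodesicPath S g x z →
    IsGeodesicPath S h y z → ∀ i : ℕ, i ≤ wordLength S (x⁻¹ * y) →
      (∃ j : ℕ, j ≤ wordLength S (x⁻¹ * z) ∧ wordLength S ((f i)⁻¹ * g j) ≤ δ) ∨
      (∃ j : ℕ, j ≤ wordLength S (y⁻¹ * z) ∧ wordLength S ((f i)⁻¹ * h j) ≤ δ)

/-- `G` is a (finitely generated) Gromov hyperbolic group: it has a finite symmetric generating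
set, and for every such generating set `S` geodesic triangles in the Cayley graph of `G` with
respect to `S` are uniformly slim. -/
def IsHyperbolicGroup (G : Type) [Group G] : Prop :=
  (∃ S : Finset G, SymmGenerates S ⊤) ∧
    ∀ S : Finset G, SymmGenerates S ⊤ → ∃ δ : ℕ, SlimTriangles S δ

namespace Hy

theorem isGeo_of_path {S : Finset G} {hS : SymmGenerates S ⊤} {f : ℕ → G} {x y : G}
    (h : IsGeodesicPath S f x y) : (wordMet S hS).IsGeo (fun i => f i.toNat) x y := by
  obtain ⟨h0, h1, h2⟩ := h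
  refine ⟨by simpa using h0, ?_, ?_⟩
  · simp only [wordMet_d, Int.toNat_natCast]
    exact h1
  · intro i j hi hij hj
    obtain ⟨i, rfl⟩ := Int.eq_ofNat_of_zero_le hi
    obtain ⟨j, rfl⟩ := Int.eq_ofNat_of_zero_le (hi.trans hij)
    simp only [wordMet_d, Int.toNat_natCast] at hj ⊢
    have hij' : i ≤ j := by exact_mod_cast hij
    have hj' : j ≤ wordLength S (x⁻¹ * y) := by exact_mod_cast hj
    rw [h2 i j hij' hj']
    omega

theorem slimTriangles_of_slim {S : Finset G} {hS : SymmGenerates S ⊤} {δ : ℤ}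
    (h : (wordMet S hS).Slim δ) : SlimTriangles S δ.toNat := by
  intro x y z f g k hf hg hk i hi
  have hi' : (i : ℤ) ≤ (wordMet S hS).d x y := by rw [wordMet_d]; exact_mod_cast hi
  rcases h x y z _ _ _ (isGeo_of_path hf) (isGeo_of_path hg) (isGeo_of_path hk) i
    (Int.natCast_nonneg _) hi' with ⟨v, hv, hv', hd⟩ | ⟨v, hv, hv', hd⟩
  · left
    rw [wordMet_d] at hv'
    refine ⟨v.toNat, by omega, ?_⟩
    rw [wordMet_d] at hd
    simp only [Int.toNat_natCast] at hd
    omega
  · right
    rw [wordMet_d] at hv'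
    refine ⟨v.toNat, by omega, ?_⟩
    rw [wordMet_d] at hd
    simp only [Int.toNat_natCast] at hd
    omega

theorem exists_symm_gen (G : Type) [Group G] [hfg : Group.FG G] :
    ∃ S : Finset G, SymmGenerates S ⊤ := by
  classical
  obtain ⟨S0, h0⟩ := Group.fg_def.1 hfg
  refine ⟨S0 ∪ S0.image (fun g => g⁻¹), ?_, ?_⟩
  · intro s hs
    simp only [Finset.mem_union, Finset.mem_image] at hs ⊢
    rcases hs with hs | ⟨a, ha, rfl⟩
    · exact Or.inr ⟨s, hs, rfl⟩
    · left; rwa [inv_inv]
  · rw [eq_top_iff, ← h0]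
    apply Subgroup.closure_mono
    intro s hs
    simp only [Finset.coe_union, Set.mem_union]
    exact Or.inl hs

end Hy

end Pool.Agent.H.MP_21aec1_al
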