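import Pool.Agent.H.MP_21aec1_al.Hy.FamDef

set_option autoImplicit false

namespace Pool.Agent.H.MP_21aec1_al.Hy

private theorem Tm_succ (F : FamPar) (w t i : ℤ) :
    F.Tm w t i = F.Tm w t (i - 1) + 1 + 2 * F.bnc w t i := by
  unfold FamPar.Tm FamPar.bnc
  ring

private theorem Tm_mono (F : FamPar) (w t : ℤ) (hb : ∀ e, 0 ≤ F.bnc w t e ∧ F.bnc w t e ≤ 2)
    (i : ℤ) (n : ℕ) : F.Tm w t i + n ≤ F.Tm w t (i + n) := by
  induction n with
  | zero => simp
  | succ n ih =>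
    have h1 := Tm_succ F w t (i + (n + 1 : ℕ))
    have h2 := (hb (i + (n + 1 : ℕ))).1
    have h3 : i + ((n + 1 : ℕ) : ℤ) - 1 = i + n := by push_cast; ring
    rw [h3] at h1
    push_cast at h1 h2 ⊢
    omega

private theorem Tm_le (F : FamPar) (w t : ℤ) (hb : ∀ e, 0 ≤ F.bnc w t e ∧ F.bnc w t e ≤ 2)
    {i j : ℤ} (h : i ≤ j) : F.Tm w t i + (j - i) ≤ F.Tm w t j := by
  have := Tm_mono F w t hb i (j - i).toNat
  rw [show i + ((j - i).toNat : ℤ) = j by omega] at this
  omega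

/-- Monotonicity of the visit times: an index `k` visited strictly between the first visit of
`s2` and the last visit of `e1` satisfies `s2 - 1 ≤ k ≤ e1 + 1`. -/
theorem idx_range {F : FamPar} {w t k s e n : ℤ}
    (hb : ∀ e, 0 ≤ F.bnc w t e ∧ F.bnc w t e ≤ 2)
    (hs : F.u0 < s) (he : e < F.u1) (hk : F.u0 ≤ k) (hk' : k ≤ F.u1)
    (h1 : F.V w t k ≤ n) (h2 : n ≤ F.U w t k) (h3 : F.V w t s < n) (h4 : n < F.U w t e) :
    s - 1 ≤ k ∧ k ≤ e + 1 := by
  unfold FamPar.V at h1 h3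
  unfold FamPar.U at h2 h4
  rw [if_neg (by omega)] at h3 h4
  constructor
  · by_contra hc
    by_cases hk1 : F.u1 ≤ k
    · rw [if_pos hk1] at h2
      have := Tm_le F w t hb (show F.u1 ≤ s - 1 by omega)
      omega
    · rw [if_neg hk1] at h2
      have := Tm_le F w t hb (show k + 1 ≤ s - 1 by omega)
      omega
  · by_contra hc
    by_cases hku : k ≤ F.u0
    · have := Tm_le F w t hb (show e + 1 ≤ s - 1 by omega)
      omega
    · rw [if_neg hku] at h1
      have := Tm_le F w t hb (show e + 1 ≤ k - 1 by omega)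
      omega

end Pool.Agent.H.MP_21aec1_al.Hy
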