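import Pool.Agent.H.MP_21aec1_al.Hy.GateM
import Pool.Agent.H.MP_21aec1_al.Hy.HubC

set_option autoImplicit false

namespace Pool.Agent.H.MP_21aec1_al.Hy

variable {X : Type} {m : GMet X}

/-- LEMMA F (micro case).
Proof. Gate `y` from `Hub.gate`. There is `t ∈ [tL,tR]` with `d(C y, γ t) ≤ 10^61 r0`: if
`kQ ≤ y ≤ kP` by `ivt_near` for `γ` on `[tL,tR]` (`Hub.fellow`), else `t = tL` or `tR`.
`γ` is geodesic on `[-κ',κ']`, so `d(γ t, z) = t - tL + x`, `d(γ t, γ tL) = t - tL`.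
`|y - kQ| ≤ 10^61 r0 + (t - tL) + H`, `d(C kQ, z) ≤ H + x`. Hence
`d(C y, z) ≥ t - tL + x - 10^61 r0 ≥ |y - kQ| + d(C kQ, z) - 10^62 r0`; conclude with
`|v - y| + |y - kQ| ≥ |v - kQ|`. -/
theorem Hub.lemF {r0 κ1 κ' ℓ' κ ℓ : ℤ} {γ C : ℤ → X} (h : LPair m r0 κ1 κ' ℓ' κ ℓ γ C)
    {tL tR kQ kP : ℤ} (hh : Hub m r0 κ1 κ ℓ' γ C tL tR kQ kP)
    (hmR : 10 ^ 62 * tR ≤ κ') (hmL : -κ' ≤ 10 ^ 62 * tL)
    {v x : ℤ} (hv : 10 ^ 62 * |v| ≤ κ) (hx : 0 ≤ x) (hx' : 10 ^ 62 * x ≤ κ') :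
    |v - kQ| + m.d (C kQ) (γ (tL - x)) ≤ m.d (C v) (γ (tL - x)) + 10 ^ 65 * r0 := by
  obtain ⟨y, y1, y2, y3⟩ := Hub.gate h hh hmR hmL hv hx hx'
  have hr0 := h.big.r0pos
  have hkb := h.big.kbig
  have hks := h.small.kbig
  have hup := h.small.up
  have hlo := h.small.lo
  have h1 := h.h1
  have h2 := h.h2
  have h3 := h.h3
  have t1 := hh.tR1
  have t2 := hh.tL1
  have hP := hh.hP
  have hQ := hh.hQ
  have P1 := hh.kP1
  have P2 := hh.kP2
  have Q1 := hh.kQ1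
  have Q2 := hh.kQ2
  have g0 : γ 0 = C 0 := h.com 0 (by omega) (by omega)
  -- the hubs are close to `0`
  have bP : |kP| ≤ tR + 2 * (10 ^ 22 * r0) := by
    have a1 := h.big.geo.abs (i := 0) (j := kP) (by omega) (by omega) P1 P2
    have a2 := m.tri (C 0) (γ tR) (C kP)
    have a3 := h.small.geo 0 tR (by omega) (by omega) (by omega)
    rw [g0] at a3
    rw [sub_zero] at a1
    omega
  have bQ : |kQ| ≤ -tL + 2 * (10 ^ 22 * r0) := by
    have a1 := h.big.geo.abs (i := 0) (j := kQ) (by omega) (by omega) Q1 Q2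
    have a2 := m.tri (C 0) (γ tL) (C kQ)
    have a3 := h.small.geo tL 0 (by omega) (by omega) (by omega)
    rw [g0, m.symm] at a3
    rw [sub_zero] at a1
    omega
  have bP' := abs_le.1 bP
  have bQ' := abs_le.1 bQ
  have yb : -κ ≤ y ∧ y ≤ κ := by constructor <;> omega
  have key : ∃ t, tL ≤ t ∧ t ≤ tR ∧ m.d (C y) (γ t) ≤ 10 ^ 61 * r0 := by
    rcases lt_or_ge kP y with hy | hy
    · refine ⟨tR, by omega, le_refl _, ?_⟩
      have a1 := h.big.geo kP y P1 (by omega) yb.2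
      have a2 := m.tri (C y) (C kP) (γ tR)
      rw [m.symm (C y) (C kP), m.symm (C kP) (γ tR)] at a2
      omega
    · rcases lt_or_ge y kQ with hy' | hy'
      · refine ⟨tL, le_refl _, by omega, ?_⟩
        have a1 := h.big.geo y kQ yb.1 (by omega) Q2
        have a2 := m.tri (C y) (C kQ) (γ tL)
        rw [m.symm (C kQ) (γ tL)] at a2
        omega
      · obtain ⟨i, i1, i2, i3⟩ := GMet.ivt_near (a := kQ) (b := kP) (v := y) (E := 10 ^ 32 * r0)
          h.big.geo (by omega : tL ≤ tR) (h.small.cyc.isPath _ _)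
          (fun i hi hi' => Hub.fellow h hh hi hi') Q1 Q2 (by omega) P1 P2 (by omega)
          (Or.inl ⟨hy', hy⟩)
        refine ⟨i, i1, i2, ?_⟩
        rw [m.symm]
        omega
  obtain ⟨t, tt1, tt2, tt3⟩ := key
  have c1 := h.small.geo (tL - x) t (by omega) (by omega) (by omega)
  have c2 := h.small.geo tL t (by omega) (by omega) (by omega)
  have c3 := h.small.geo (tL - x) tL (by omega) (by omega) (by omega)
  have c4 := h.big.geo.abs (i := kQ) (j := y) Q1 Q2 yb.1 yb.2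
  have c5 := m.tri (C kQ) (γ tL) (C y)
  have c6 := m.tri (γ tL) (γ t) (C y)
  have c7 := m.tri (C kQ) (γ tL) (γ (tL - x))
  have c8 := m.tri (γ (tL - x)) (C y) (γ t)
  rw [m.symm (C kQ) (γ tL)] at c5 c7
  rw [m.symm (γ t) (C y)] at c6
  rw [m.symm (γ (tL - x)) (C y)] at c8
  rw [m.symm (γ tL) (γ (tL - x))] at c7
  have c9 : |v - kQ| ≤ |v - y| + |y - kQ| := abs_sub_le v y kQ
  omega

end Pool.Agent.H.MP_21aec1_al.Hy
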