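import Pool.Agent.H.MP_21aec1_al.Hy.Base

set_option autoImplicit false

namespace Pool.Agent.H.MP_21aec1_al.Hy

namespace GMet

variable {X : Type} {m : GMet X}

/-- distance of an arm from the centre -/
private theorem arm_far {A B E Y : ℤ} {τ : ℤ → X} (hτ : m.Geo τ A B) {y c : ℤ}
    (hy : A ≤ y) (hy' : y ≤ B) (hc : A ≤ c) (hc' : c ≤ B) (hyc : Y ≤ 2 * |c - y| + 1)
    (hE : 0 ≤ E) (hYE : 1000 * E ≤ Y) (hY0 : 200 ≤ Y)
    {f : ℤ → X} {n1 : ℤ} (hf : m.IsPath f 0 n1)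
    (f0 : m.d (f 0) (τ y) ≤ E)
    (df : ∀ j c, 0 ≤ j → j ≤ n1 → A ≤ c → c ≤ B → j ≤ 32 * m.d (f j) (τ c) + E ∨ 10 * j ≤ Y)
    {j : ℤ} (hj : 0 ≤ j) (hj' : j ≤ n1) : Y / 100 + E ≤ m.d (f j) (τ c) := by
  have h1 : m.d (τ y) (τ c) = |c - y| := hτ.abs hy hy' hc hc'
  have h2 := hf.le (le_refl 0) hj hj'
  have h3 := m.tri (τ y) (f 0) (τ c)
  have h4 := m.tri (f 0) (f j) (τ c)
  rw [m.symm (τ y) (f 0), h1] at h3
  rcases df j c hj hj' hc hc' with h5 | h5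
  · omega
  · omega

/-- PINCER LEMMA. Two arms `f`, `g` starting near the points `τ y`, `τ h` of a geodesic without
detours, diverging linearly from it (or short), with nearby end points, cannot exist if `y`, `h`
are far apart compared with the lengths.
Proof. `Y = |y-h|`, `ρ = Y/100`, centre `c = (y+h)/2` (so `|y-c|, |h-c| ≥ (Y-1)/2`). Connection:
`τ y → f 0` (close), `f` from `0` to `n1`, `f n1 → g n2` (close), `g` backwards, `g 0 → τ h`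
(close), with `Conn.of_close`, `Conn.of_path`, `Conn.trans`, `Conn.symm`.  Its length is
`≤ 250 Y + 3E ≤ 251 Y ≤ C ρ` (`C ≥ 10^5`, `Y ≥ 200`).  It stays at distance `≥ ρ + E` from
`τ c` along the arms: if `32 (ρ+E) + E ≤ j` by divergence; otherwise (or if `10 j ≤ Y`)
`d(f j, τ c) ≥ (Y-1)/2 - E - j ≥ ρ + E`. This is a `Detour` (`Detour.of_conn`), `r0 ≤ ρ ≤ r1`,
`P ≤ c ≤ Q`: contradiction with `nd`. -/
theorem pincer {C r0 r1 A B P Q E Y : ℤ} {τ : ℤ → X} (hC : 10 ^ 5 ≤ C) (hr0 : 1 ≤ r0)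
    (hτ : m.Geo τ A B) (nd : m.NoDet C τ A B P Q r0 r1) {y h : ℤ} (hY : |y - h| = Y)
    (hy : A ≤ y) (hy' : y ≤ B) (hh : A ≤ h) (hh' : h ≤ B)
    (hyP : P ≤ y) (hyQ : y ≤ Q) (hhP : P ≤ h) (hhQ : h ≤ Q)
    (hE : 0 ≤ E) (hYE : 1000 * E ≤ Y) (hY0 : 200 * r0 ≤ Y) (hY1 : Y ≤ 100 * r1)
    {f g : ℤ → X} {n1 n2 : ℤ} (hn1 : 0 ≤ n1) (hn2 : 0 ≤ n2) (hf : m.IsPath f 0 n1)
    (hg : m.IsPath g 0 n2) (hlen : n1 + n2 ≤ 250 * Y)
    (f0 : m.d (f 0) (τ y) ≤ E) (g0 : m.d (g 0) (τ h) ≤ E) (hfg : m.d (f n1) (g n2) ≤ E)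
    (df : ∀ j c, 0 ≤ j → j ≤ n1 → A ≤ c → c ≤ B → j ≤ 32 * m.d (f j) (τ c) + E ∨ 10 * j ≤ Y)
    (dg : ∀ j c, 0 ≤ j → j ≤ n2 → A ≤ c → c ≤ B → j ≤ 32 * m.d (g j) (τ c) + E ∨ 10 * j ≤ Y) :
    False := by
  obtain ⟨ρ, hρ⟩ : ∃ ρ, ρ = Y / 100 := ⟨_, rfl⟩
  obtain ⟨c, hc⟩ : ∃ c, c = (y + h) / 2 := ⟨_, rfl⟩
  have habs : (y - h = Y ∧ h ≤ y) ∨ (h - y = Y ∧ y ≤ h) := by
    rcases le_total h y with h1 | h1
    · left
      rw [abs_of_nonneg (by omega)] at hY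
      exact ⟨hY, h1⟩
    · right
      rw [abs_of_nonpos (by omega)] at hY
      exact ⟨by omega, h1⟩
  have hcA : A ≤ c := by omega
  have hcB : c ≤ B := by omega
  have hyc : Y ≤ 2 * |c - y| + 1 := by
    rcases habs with ⟨h1, h2⟩ | ⟨h1, h2⟩
    · rw [abs_of_nonpos (by omega)]
      omega
    · rw [abs_of_nonneg (by omega)]
      omega
  have hhc : Y ≤ 2 * |c - h| + 1 := by
    rcases habs with ⟨h1, h2⟩ | ⟨h1, h2⟩
    · rw [abs_of_nonneg (by omega)]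
      omega
    · rw [abs_of_nonpos (by omega)]
      omega
  have farf : ∀ j, 0 ≤ j → j ≤ n1 → ρ + E ≤ m.d (f j) (τ c) := fun j hj hj' => by
    rw [hρ]
    exact arm_far hτ hy hy' hcA hcB hyc hE hYE (by omega) hf f0 df hj hj'
  have farg : ∀ j, 0 ≤ j → j ≤ n2 → ρ + E ≤ m.d (g j) (τ c) := fun j hj hj' => by
    rw [hρ]
    exact arm_far hτ hh hh' hcA hcB hhc hE hYE (by omega) hg g0 dg hj hj'
  have hyd : m.d (τ y) (τ c) = |c - y| := hτ.abs hy hy' hcA hcB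
  have hhd : m.d (τ h) (τ c) = |c - h| := hτ.abs hh hh' hcA hcB
  have f0' := f0
  have g0' := g0
  rw [m.symm] at f0' g0'
  have c1 : m.Conn (τ c) ρ (τ y) (f 0) _ := Conn.of_close (τ y) (f 0) (by rw [hyd]; omega)
  have c2 : m.Conn (τ c) ρ (f 0) (f n1) _ := Conn.of_path hf hn1 (fun j hj hj' => by
    have := farf j hj hj'
    omega)
  have c3 : m.Conn (τ c) ρ (f n1) (g n2) _ := Conn.of_close _ _ (by
    have := farf n1 hn1 (le_refl _)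
    omega)
  have c4 : m.Conn (τ c) ρ (g 0) (g n2) _ := Conn.of_path hg hn2 (fun j hj hj' => by
    have := farg j hj hj'
    omega)
  have c5 : m.Conn (τ c) ρ (τ h) (g 0) _ := Conn.of_close (τ h) (g 0) (by rw [hhd]; omega)
  have hall := (((c1.trans c2).trans c3).trans c4.symm).trans c5.symm
  refine nd c ρ (by omega) (by omega) (by omega) (by omega)
    (Detour.of_conn hy hy' hh hh' ?_ ?_ hall)
  · rcases habs with ⟨h1, h2⟩ | ⟨h1, h2⟩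
    · right; omega
    · left; omega
  · have hCρ : 10 ^ 5 * ρ ≤ C * ρ := mul_le_mul_of_nonneg_right hC (by omega)
    omega

end GMet

end Pool.Agent.H.MP_21aec1_al.Hy
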