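import Pool.Agent.H.MP_21aec1_al.Hy.BigDvg
import Pool.Agent.H.MP_21aec1_al.Hy.Pincer

set_option autoImplicit false

namespace Pool.Agent.H.MP_21aec1_al.Hy

variable {X : Type} {m : GMet X}

/-- Least element of a nonempty set of integers of `[0,L]`. -/
private theorem micro_least (P : ℤ → Prop) (L : ℤ) (hL : 0 ≤ L) (hP : P L) :
    ∃ n, 0 ≤ n ∧ n ≤ L ∧ P n ∧ ∀ i, 0 ≤ i → i < n → ¬ P i := by
  classical
  have hex : ∃ k : ℕ, P (k : ℤ) := ⟨L.toNat, by rwa [Int.toNat_of_nonneg hL]⟩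
  refine ⟨(Nat.find hex : ℤ), by omega, ?_, Nat.find_spec hex, ?_⟩
  · have h1 : Nat.find hex ≤ L.toNat := Nat.find_min' hex (by rwa [Int.toNat_of_nonneg hL])
    omega
  · intro i hi hi' hPi
    have h1 : Nat.find hex ≤ i.toNat :=
      Nat.find_min' hex (by rwa [Int.toNat_of_nonneg hi])
    omega

/-- GATE CORE (right hub). `g` is a geodesic path on `[0,L]` from a point near `C y`
(`y ≥ kP`) to `z = γ tz`, diverging linearly from the big side. Then `y ≤ kP + 10^60 r0`. -/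
theorem Hub.gatecore {r0 κ1 κ' ℓ' κ ℓ : ℤ} {γ C : ℤ → X} (h : LPair m r0 κ1 κ' ℓ' κ ℓ γ C)
    {tL tR kQ kP : ℤ} (hh : Hub m r0 κ1 κ ℓ' γ C tL tR kQ kP)
    (hmR : 10 ^ 62 * tR ≤ κ') (hmL : -κ' ≤ 10 ^ 62 * tL)
    {tz y L : ℤ} (hz : 10 ^ 61 * |tz| ≤ κ') (hy : kP ≤ y) (hy' : 10 ^ 61 * y ≤ κ')
    {g : ℤ → X} (hL : 0 ≤ L) (hg : m.Geo g 0 L)
    (g0 : m.d (g 0) (C y) ≤ 2 * (10 ^ 22 * r0)) (gL : g L = γ tz)
    (hdv : ∀ n v, 0 ≤ n → n ≤ L → -κ ≤ v → v ≤ κ → n ≤ 32 * m.d (g n) (C v)) :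
    y ≤ kP + 10 ^ 60 * r0 := by
  obtain ⟨hkP1, hkP2, hkP3⟩ := Hub.kP_bounds h hh
  have hr0 := h.big.r0pos
  have hk' := h.small.kbig
  have hlo := h.small.lo
  have hh1 := h.h1
  have hh2 := h.h2
  have hh3 := h.h3
  have htR1 := hh.tR1
  have htz1 : -|tz| ≤ tz := neg_abs_le tz
  have htz2 : tz ≤ |tz| := le_abs_self tz
  have htz0 : 0 ≤ |tz| := abs_nonneg tz
  have hcom0 : γ 0 = C 0 := h.com 0 (by omega) (by omega)
  have hgγ := h.small.geo
  have hgC := h.big.geo
  -- nearest point on the path to the small side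
  have hnrL : m.Nr γ (-κ') κ' (2 * (10 ^ 22 * r0)) (g L) :=
    ⟨tz, by omega, by omega, by rw [gL, m.self]; omega⟩
  obtain ⟨m2, hm20, hm2L, ⟨t2, ht2a, ht2b, ht2d⟩, hmin⟩ :=
    micro_least (fun n => m.Nr γ (-κ') κ' (2 * (10 ^ 22 * r0)) (g n)) L hL hnrL
  -- length bound
  have hL1 : L ≤ 2 * (10 ^ 22 * r0) + y + |tz| := by
    have e1 : m.d (g 0) (g L) = L - 0 := hg 0 L (le_refl _) hL (le_refl _)
    have e2 := m.tri (g 0) (C y) (g L)
    have e3 := m.tri (C y) (C 0) (g L)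
    have e4 : m.d (C y) (C 0) = |0 - y| := hgC.abs (by omega) (by omega) (by omega) (by omega)
    have e5 : m.d (C 0) (g L) = |tz - 0| := by
      rw [gL, ← hcom0]
      exact hgγ.abs (by omega) (by omega) (by omega) (by omega)
    have e6 : |0 - y| = y := by rw [zero_sub, abs_neg, abs_of_nonneg (by omega)]
    rw [sub_zero] at e5
    omega
  have hm2eq : m.d (g 0) (g m2) = m2 := by
    rw [hg 0 m2 (le_refl _) hm20 hm2L, sub_zero]
  have ht2bd : |t2 - tz| ≤ 2 * (10 ^ 22 * r0) + L := by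
    have e1 : m.d (γ tz) (γ t2) = |t2 - tz| :=
      hgγ.abs (by omega) (by omega) (by omega) (by omega)
    have e2 := m.tri (γ tz) (g m2) (γ t2)
    have e3 : m.d (g m2) (γ tz) = L - m2 := by
      rw [← gL]; exact hg m2 L hm20 hm2L (le_refl _)
    rw [m.symm] at e3
    omega
  have ht2c := neg_abs_le (t2 - tz)
  have ht2e := le_abs_self (t2 - tz)
  obtain ⟨T2, hT2⟩ : ∃ T2, |t2 - tR| = T2 := ⟨_, rfl⟩
  have hT2a := neg_abs_le (t2 - tR)
  have hT2b := le_abs_self (t2 - tR)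
  have hT20 := abs_nonneg (t2 - tR)
  have hT2le : T2 ≤ |t2 - tz| + |tz| + tR := by
    rcases abs_cases (t2 - tR) with ⟨q1, _⟩ | ⟨q1, _⟩ <;> omega
  have hγd : m.d (γ t2) (γ tR) = T2 := by
    rw [m.symm, hgγ.abs (by omega) (by omega) (by omega) (by omega), hT2]
  have hm2le : m2 ≤ (y - kP) + T2 + 3 * (2 * (10 ^ 22 * r0)) := by
    have e1 := m.tri (g 0) (C y) (g m2)
    have e2 := m.tri (C y) (C kP) (g m2)
    have e3 := m.tri (C kP) (γ tR) (g m2)
    have e4 := m.tri (γ tR) (γ t2) (g m2)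
    have e5 : m.d (C y) (C kP) = y - kP := by
      rw [m.symm]; exact hgC kP y (by omega) hy (by omega)
    have e6 := hh.hP
    have e7 := m.symm (γ tR) (C kP)
    have e8 := m.symm (γ tR) (γ t2)
    have e9 := m.symm (γ t2) (g m2)
    omega
  have hdP : m.d (g m2) (C kP) ≤ T2 + 2 * (2 * (10 ^ 22 * r0)) := by
    have e1 := m.tri (g m2) (γ t2) (C kP)
    have e2 := m.tri (γ t2) (γ tR) (C kP)
    have e3 := hh.hP
    omega
  have hm2a := hdv m2 kP hm20 hm2L (by omega) (by omega)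
  have hm2b : y - kP ≤ m2 + 2 * (10 ^ 22 * r0) + m.d (g m2) (C kP) := by
    have e1 := m.tri (C y) (g 0) (C kP)
    have e2 := m.tri (g 0) (g m2) (C kP)
    have e3 : m.d (C y) (C kP) = y - kP := by
      rw [m.symm]; exact hgC kP y (by omega) hy (by omega)
    have e4 := m.symm (C y) (g 0)
    omega
  by_cases hcase : 10 ^ 56 * r0 ≤ T2 ∧ y - kP ≤ 100 * T2
  · exfalso
    obtain ⟨hc1, hc2⟩ := hcase
    -- divergence from the small side
    have hgeo' : m.Geo (fun i => g (m2 - i)) 0 m2 := by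
      intro i j hi hij hj
      have := hg (m2 - j) (m2 - i) (by omega) (by omega) (by omega)
      rw [m.symm] at this
      simp only
      rw [this]
      omega
    have hdf : ∀ j c, 0 ≤ j → j ≤ m2 → -κ' ≤ c → c ≤ κ' →
        j ≤ 32 * m.d (g (m2 - j)) (γ c) := by
      intro j c hj hj' hc hc'
      have hd0 : 100 * m.d (g (m2 - 0)) (γ 0) ≤ κ' := by
        rw [sub_zero]
        have e1 := m.tri (g m2) (γ t2) (γ 0)
        have e2 : m.d (γ t2) (γ 0) = |0 - t2| :=
          hgγ.abs (by omega) (by omega) (by omega) (by omega)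
        have e3 : |0 - t2| ≤ |t2 - tz| + |tz| := by
          rcases abs_cases (0 - t2) with ⟨q1, _⟩ | ⟨q1, _⟩ <;> omega
        omega
      have := h.small.dvg (K := 1) (le_refl _) (by norm_num) (f := fun i => g (m2 - i))
        (s := 0) (t := j) hj ((hgeo'.mono (le_refl _) hj').biLip (le_refl _))
        (by omega) hd0
        ⟨t2, ht2a, ht2b, by simpa using ht2d⟩
        (fun i hi hi' => hmin (m2 - i) (by omega) (by omega)) hc hc'
      simp only [one_mul] at this
      omega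
    refine GMet.pincer (m := m) (C := 10 ^ 22) (r0 := r0) (r1 := κ' / 10 ^ 60) (A := -κ') (B := κ')
      (P := -(κ' / 4)) (Q := κ' / 4) (E := 10 ^ 52 * r0) (Y := T2) (τ := γ)
      (by norm_num) hr0 hgγ h.small.nd (y := t2) (h := tR) hT2 ht2a ht2b (by omega) (by omega)
      (by omega) (by omega) (by omega) (by omega) (by omega) (by omega) (by omega)
      (by omega) (f := fun i => g (m2 - i)) (g := fun i => C (kP + i)) (n1 := m2) (n2 := y - kP)
      hm20 (by omega) hgeo'.isPath ?_ (by omega) ?_ ?_ ?_ ?_ ?_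
    · intro i hi hi'
      have := hgC (kP + i) (kP + (i + 1)) (by omega) (by omega) (by omega)
      simp only
      rw [this]
      omega
    · simp only [sub_zero]
      omega
    · simp only [add_zero]
      have e3 := hh.hP
      rw [m.symm] at e3
      omega
    · simp only [sub_self]
      rw [show kP + (y - kP) = y by omega]
      omega
    · intro j c hj hj' hc hc'
      left
      have := hdf j c hj hj' hc hc'
      omega
    · intro j c hj hj' hc hc'
      left
      have := Hub.bigdvg h hh hmR hmL (w := kP + j) (t := c) (by omega) (by omega) hc hc'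
      omega
  · rcases not_and_or.1 hcase with hc | hc
    · omega
    · omega

end Pool.Agent.H.MP_21aec1_al.Hy
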