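import Pool.Agent.H.MP_21aec1_al.Hy.FactB
import Pool.Agent.H.MP_21aec1_al.Hy.Ivt

set_option autoImplicit false

namespace Pool.Agent.H.MP_21aec1_al.Hy

variable {X : Type} {m : GMet X}

/-- The half of the small loop opposite to `γ 0` is far from the side of the big loop.
Proof. Suppose `γ t` is within `H = 2*(10^22*r0)` of `C`. Arcs `[0,t]` and `[t-ℓ',0]` have length
`≤ 3ℓ'/4`, hence are `3*10^8`-bi-Lipschitz (`Cyc.biLip3`), with end points near `C`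
(`γ 0 = C 0`, `γ (t-ℓ') = γ t`). By `DFL.close` all points of the loop are within
`E = 10^24*(3*10^8*r0)` of `C[-κ,κ]`. Apply `ivt_near` on `[κ1, ℓ'-κ1]` (`γ κ1 = C κ1`,
`γ (ℓ'-κ1) = γ (-κ1) = C (-κ1)`), `v = 0`: some `i ∈ [κ1,ℓ'-κ1]` with
`d(γ i, C 0) = d(γ i, γ 0) ≤ 3E+1`, but Cyc gives `κ1 ≤ min i (ℓ'-i) ≤ 10^8 (3E+1)`:
contradiction with `κ1 ≥ 10^160 r0`. -/
theorem LPair.midfar {r0 κ1 κ' ℓ' κ ℓ : ℤ} {γ C : ℤ → X} (h : LPair m r0 κ1 κ' ℓ' κ ℓ γ C)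
    {t : ℤ} (ht : ℓ' ≤ 4 * t) (ht' : 4 * t ≤ 3 * ℓ') :
    ¬ m.Nr C (-κ) κ (2 * (10 ^ 22 * r0)) (γ t) := by
  intro hn
  have hr0 := h.big.r0pos
  have hkb := h.big.kbig
  have hks := h.small.kbig
  have hup := h.small.up
  have hlo := h.small.lo
  have h1 := h.h1
  have h2 := h.h2
  have h3 := h.h3
  have hcyc := h.small.cyc
  have g0 : γ 0 = C 0 := h.com 0 (by omega) (by omega)
  have n0 : m.Nr C (-κ) κ (2 * (10 ^ 22 * r0)) (γ 0) :=
    ⟨0, by omega, by omega, by rw [g0, m.self]; omega⟩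
  have gt : γ (t - ℓ') = γ t := hcyc.periodic t
  -- first arc
  have b1 : m.BiLip (3 * 10 ^ 8) γ 0 t := hcyc.biLip3 (by omega) (by omega)
  have c1 : ∀ i, 0 ≤ i → i ≤ t → m.Nr C (-κ) κ (10 ^ 24 * ((3 * 10 ^ 8) * r0)) (γ i) := by
    intro i hi hi'
    refine h.big.close (by norm_num) (le_refl _) (by omega) b1 (by omega) ?_ n0 hn hi hi'
    rw [g0, m.self]
    omega
  -- second arc
  have b2 : m.BiLip (3 * 10 ^ 8) γ (t - ℓ') 0 := hcyc.biLip3 (by omega) (by omega)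
  have hd2 : m.d (γ (t - ℓ')) (C 0) ≤ ℓ' := by
    have := b2.1.le (le_refl _) (by omega : t - ℓ' ≤ 0) (le_refl _)
    rw [g0] at this
    omega
  have c2 : ∀ i, t - ℓ' ≤ i → i ≤ 0 → m.Nr C (-κ) κ (10 ^ 24 * ((3 * 10 ^ 8) * r0)) (γ i) := by
    intro i hi hi'
    refine h.big.close (by norm_num) (le_refl _) (by omega) b2 (by omega) ?_ ?_ n0 hi hi'
    · omega
    · rw [gt]; exact hn
  have c3 : ∀ i, κ1 ≤ i → i ≤ ℓ' - κ1 →
      m.Nr C (-κ) κ (10 ^ 24 * ((3 * 10 ^ 8) * r0)) (γ i) := by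
    intro i hi hi'
    rcases le_total i t with hit | hit
    · exact c1 i (by omega) hit
    · have := c2 (i - ℓ') (by omega) (by omega)
      rwa [hcyc.periodic i] at this
  have e1 : γ κ1 = C κ1 := h.com κ1 (by omega) (by omega)
  have e2 : γ (ℓ' - κ1) = C (-κ1) := by
    rw [← h.com (-κ1) (by omega) (by omega), ← hcyc.1 (-κ1)]
    congr 1
    omega
  obtain ⟨i, hi, hi', hdi⟩ := GMet.ivt_near (a := κ1) (b := -κ1) (v := 0) h.big.geo
    (by omega : κ1 ≤ ℓ' - κ1) (hcyc.isPath _ _) c3 (by omega) (by omega)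
    (by rw [e1, m.self]; omega) (by omega) (by omega) (by rw [e2, m.self]; omega)
    (Or.inr ⟨by omega, by omega⟩)
  rw [← g0, m.symm] at hdi
  have h4 := hcyc.2.2 0 i (by omega) (by omega)
  have h5 : κ1 ≤ min (i - 0) (0 + ℓ' - i) := by omega
  omega

end Pool.Agent.H.MP_21aec1_al.Hy
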