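import Pool.Agent.H.MP_21aec1_al.Hy.MonoA

set_option autoImplicit false

namespace Pool.Agent.H.MP_21aec1_al.Hy

variable {X : Type} {m : GMet X}

/-- MONOTONE LANDING (b). If `0 ≤ t ≤ t' ≤ tR` and `γ t`, `γ t'` are within `E = 10^32 r0` of
`C v`, `C v'`, then `t' - t ≤ 10^8 (v' - v) + 10^50 r0`.
Proof. `|v' - v| ≥ d(γ t, γ t') - 2E ≥ (t'-t)/10^8 - 2E`. If `v' ≥ v` done. If `v' < v`: by (a)
`v' ≥ -10^33 r0`. If `0 ≤ v'` then `ivt_near` on `[0,t]` (from `C 0` to `C v`) with the value `v'`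
gives `i ∈ [0,t]` with `d(γ i, C v') ≤ 3E+1`; if `v' < 0` take `i = 0`. So
`d(γ i, γ t') ≤ 10^34 r0` (say) and `t' - t ≤ t' - i ≤ 10^42 r0`, and
`v - v' ≤ d(γ t, γ t') + 2E ≤ t' - t + 2E`. -/
theorem Hub.monob {r0 κ1 κ' ℓ' κ ℓ : ℤ} {γ C : ℤ → X} (h : LPair m r0 κ1 κ' ℓ' κ ℓ γ C)
    {tL tR kQ kP : ℤ} (hh : Hub m r0 κ1 κ ℓ' γ C tL tR kQ kP) {t t' v v' : ℤ} (ht : 0 ≤ t)
    (htt : t ≤ t') (ht' : t' ≤ tR) (hv : -κ ≤ v) (hv' : v ≤ κ)
    (hd : m.d (γ t) (C v) ≤ 10 ^ 32 * r0) (hw : -κ ≤ v') (hw' : v' ≤ κ)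
    (hd' : m.d (γ t') (C v') ≤ 10 ^ 32 * r0) :
    t' - t ≤ 10 ^ 8 * (v' - v) + 10 ^ 50 * r0 := by
  have hr0 := h.big.r0pos
  have h1 := h.h1
  have hkb := h.big.kbig
  have h2 := h.h2
  have h3 := h.h3
  have hlo := h.small.lo
  have htR1 := hh.tR1
  have htR4 := hh.tR4
  have h0 : γ 0 = C 0 := h.com 0 (by omega) (by omega)
  have hbl : m.BiLip (10 ^ 8) γ 0 tR := h.small.cyc.biLip (by omega)
  have habs : m.d (C v) (C v') = |v' - v| := h.big.geo.abs hv hv' hw hw'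
  have hb := hbl.2 t t' ht htt ht'
  have ht1 := m.tri (γ t) (C v) (γ t')
  have ht2 := m.tri (C v) (C v') (γ t')
  have ht3 := m.tri (C v) (γ t) (C v')
  have ht4 := m.tri (γ t) (γ t') (C v')
  have hp := hbl.1.le ht htt ht'
  rw [m.symm (C v') (γ t')] at ht2
  rw [m.symm (C v) (γ t)] at ht3
  rcases le_or_gt v v' with hvv | hvv
  · rw [abs_of_nonneg (by omega)] at habs
    omega
  · rw [abs_of_neg (by omega)] at habs
    have ha := Hub.monoa h hh (t := t') (v := v') (by omega) ht' hw hw' hd'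
    obtain ⟨i, hi1, hi2, hi3⟩ : ∃ i, 0 ≤ i ∧ i ≤ t ∧ m.d (γ i) (C v') ≤ 10 ^ 33 * r0 := by
      rcases le_or_gt 0 v' with hv0 | hv0
      · obtain ⟨i, hi1, hi2, hi3⟩ := GMet.ivt_near (m := m) (σ := C) (f := γ) (A := -κ) (B := κ)
          (s := 0) (t := t) (E := 10 ^ 32 * r0) (a := 0) (b := v) (v := v') h.big.geo
          ht (h.small.cyc.isPath _ _)
          (fun i hi hi' => hh.fellow h (by have := hh.tL1; omega) (by omega)) (by omega) (by omega)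
          (by rw [h0, m.self]; omega) hv hv' hd (Or.inl ⟨by omega, by omega⟩)
        exact ⟨i, hi1, hi2, by omega⟩
      · refine ⟨0, le_rfl, ht, ?_⟩
        rw [h0, h.big.geo.abs (by omega) (by omega) hw hw', abs_of_neg (by omega)]
        omega
    have hb' := hbl.2 i t' hi1 (by omega) ht'
    have ht5 := m.tri (γ i) (C v') (γ t')
    rw [m.symm (C v') (γ t')] at ht5
    omega

end Pool.Agent.H.MP_21aec1_al.Hy
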