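import Pool.Agent.H.MP_21aec1_al.Hy.HubC

set_option autoImplicit false

namespace Pool.Agent.H.MP_21aec1_al.Hy

variable {X : Type} {m : GMet X}

/-- MONOTONE LANDING (a). If `0 ≤ t ≤ tR` and `γ t` is within `E = 10^32 r0` of `C v` then
`t ≤ 10^8 (v + E)`, so `t ≤ 10^8 v + 10^41 r0`.
Proof. `|v| = d(C v, C 0) ≥ d(γ t, γ 0) - E ≥ t/10^8 - E`. If `v ≥ 0` done. If `v < 0` and
`t ≤ κ1`: `γ t = C t`, `t - v ≤ E`. If `v < 0`, `t > κ1`: `ivt_near` on `[κ1,t]` (`Hub.fellow`,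
`γ κ1 = C κ1`) with the value `0` gives `i ≥ κ1`, `i ≤ tR ≤ ℓ'/4` with
`d(γ i, γ 0) ≤ 3E + 1`, so `κ1 ≤ i ≤ 10^8(3E+1)`: contradiction. -/
theorem Hub.monoa {r0 κ1 κ' ℓ' κ ℓ : ℤ} {γ C : ℤ → X} (h : LPair m r0 κ1 κ' ℓ' κ ℓ γ C)
    {tL tR kQ kP : ℤ} (hh : Hub m r0 κ1 κ ℓ' γ C tL tR kQ kP) {t v : ℤ} (ht : 0 ≤ t)
    (ht' : t ≤ tR) (hv : -κ ≤ v) (hv' : v ≤ κ) (hd : m.d (γ t) (C v) ≤ 10 ^ 32 * r0) :
    t ≤ 10 ^ 8 * v + 10 ^ 41 * r0 := by
  have hr0 := h.big.r0pos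
  have h1 := h.h1
  have hkb := h.big.kbig
  have h2 := h.h2
  have h3 := h.h3
  have hlo := h.small.lo
  have htR1 := hh.tR1
  have htR4 := hh.tR4
  have h0 : γ 0 = C 0 := h.com 0 (by omega) (by omega)
  have hbl : m.BiLip (10 ^ 8) γ 0 tR := h.small.cyc.biLip (by omega)
  have habs : m.d (C 0) (C v) = |v - 0| :=
    h.big.geo.abs (by omega) (by omega) hv hv'
  have hb := hbl.2 0 t le_rfl ht ht'
  rw [h0] at hb
  have htri := m.tri (C 0) (C v) (γ t)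
  rw [m.symm (C v) (γ t)] at htri
  rcases le_or_gt 0 v with hv0 | hv0
  · rw [abs_of_nonneg (by omega)] at habs
    omega
  · rw [abs_of_neg (by omega)] at habs
    rcases le_or_gt t κ1 with htk | htk
    · rw [h.com t (by omega) htk, h.big.geo.abs (by omega) (by omega) hv hv',
        abs_of_neg (by omega)] at hd
      omega
    · obtain ⟨i, hi1, hi2, hi3⟩ := GMet.ivt_near (m := m) (σ := C) (f := γ) (A := -κ) (B := κ)
        (s := κ1) (t := t) (E := 10 ^ 32 * r0) (a := κ1) (b := v) (v := 0) h.big.geo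
        (by omega) (h.small.cyc.isPath _ _)
        (fun i hi hi' => hh.fellow h (by have := hh.tL1; omega) (by omega)) (by omega) (by omega)
        (by rw [h.com κ1 (by omega) le_rfl, m.self]; omega) hv hv' hd
        (Or.inr ⟨by omega, by omega⟩)
      have hb' := hbl.2 0 i le_rfl (by omega) (by omega)
      rw [h0, m.symm] at hb'
      omega

end Pool.Agent.H.MP_21aec1_al.Hy
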