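import Pool.Agent.H.MP_21aec1_al.Hy.Mono

set_option autoImplicit false

namespace Pool.Agent.H.MP_21aec1_al.Hy

variable {X : Type} {m : GMet X}

/-- For `v ≤ 0 ≤ t ≤ tR`. Take `w` with `d(γ t, C w) ≤ E = 10^32 r0` (`Hub.fellow`), `monoa`:
`d(C v, γ t) ≥ |v - w| - E ≥ w - v - E ≥ t/10^8 - 10^33 r0 - v - E`. If `t - v ≥ κ1` this is
`≥ (t-v)/(2*10^8)`; if `t - v < κ1` then `γ t = C t` and `d = t - v`. -/
theorem Hub.nr1 {r0 κ1 κ' ℓ' κ ℓ : ℤ} {γ C : ℤ → X} (h : LPair m r0 κ1 κ' ℓ' κ ℓ γ C)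
    {tL tR kQ kP : ℤ} (hh : Hub m r0 κ1 κ ℓ' γ C tL tR kQ kP) {v t : ℤ} (hv : -κ ≤ v)
    (hv' : v ≤ 0) (ht : 0 ≤ t) (ht' : t ≤ tR) :
    t - v ≤ 10 ^ 9 * m.d (C v) (γ t) := by
  have hr := h.big.r0pos
  have h1 := h.h1
  have h2 := h.h2
  have h3 := h.h3
  have h4 := h.small.lo
  have h5 := hh.tL1
  have h6 := hh.tR4
  by_cases c : t - v < κ1
  · rw [h.com t (by omega) (by omega), h.big.geo v t (by omega) (by omega) (by omega)]
    omega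
  · obtain ⟨w, hw, hw', hd⟩ := Hub.fellow h hh (t := t) (by omega) ht'
    have hm := Hub.monoa h hh ht ht' hw hw' hd
    have e1 := m.tri (C v) (γ t) (C w)
    have e2 := h.big.geo.abs (i := v) (j := w) hv (by omega) hw hw'
    have e3 := le_abs_self (w - v)
    rw [e2] at e1
    generalize m.d (C v) (γ t) = d at e1 ⊢
    omega

/-- For `v ≥ kP`, `0 ≤ t ≤ tR`. Take `w` near `γ t` (`fellow`), `monob` for `(t,w)`, `(tR,kP)`:
`tR - t ≤ 10^8 (kP - w) + 10^50 r0`, and `d(C v, γ t) ≥ v - w - E`. -/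
theorem Hub.nr2 {r0 κ1 κ' ℓ' κ ℓ : ℤ} {γ C : ℤ → X} (h : LPair m r0 κ1 κ' ℓ' κ ℓ γ C)
    {tL tR kQ kP : ℤ} (hh : Hub m r0 κ1 κ ℓ' γ C tL tR kQ kP) {v t : ℤ} (hv : kP ≤ v)
    (hv' : v ≤ κ) (ht : 0 ≤ t) (ht' : t ≤ tR) :
    10 ^ 8 * (v - kP) + (tR - t) ≤ 10 ^ 8 * m.d (C v) (γ t) + 10 ^ 51 * r0 := by
  have hr := h.big.r0pos
  have h1 := h.h1
  have h2 := h.h2
  have h3 := h.h3
  have h4 := h.small.lo
  have h5 := hh.tL1
  have h6 := hh.tR4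
  have h7 := hh.kP1
  have h8 := hh.kP2
  have h9 := hh.hP
  obtain ⟨w, hw, hw', hd⟩ := Hub.fellow h hh (t := t) (by omega) ht'
  have hm := Hub.monob h hh ht ht' (le_refl tR) hw hw' hd h7 h8 (by omega)
  have e1 := m.tri (C v) (γ t) (C w)
  have e2 := h.big.geo.abs (i := w) (j := v) hw hw' (by omega) hv'
  have e3 := le_abs_self (v - w)
  rw [m.symm (C v) (C w), e2] at e1
  generalize m.d (C v) (γ t) = d at e1 ⊢
  omega

/-- Positions of the hubs (from `monoa` at `t = tR`, and the triangle inequality). -/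
theorem Hub.kP_bounds {r0 κ1 κ' ℓ' κ ℓ : ℤ} {γ C : ℤ → X} (h : LPair m r0 κ1 κ' ℓ' κ ℓ γ C)
    {tL tR kQ kP : ℤ} (hh : Hub m r0 κ1 κ ℓ' γ C tL tR kQ kP) :
    tR ≤ 10 ^ 8 * kP + 10 ^ 41 * r0 ∧ 10 ^ 150 * r0 ≤ kP ∧
      kP ≤ tR + 2 * (10 ^ 22 * r0) := by
  have hr := h.big.r0pos
  have h1 := h.h1
  have h2 := h.h2
  have h3 := h.h3
  have h4 := h.small.lo
  have h5 := hh.tL1
  have h6 := hh.tR4
  have h7 := hh.kP1
  have h8 := hh.kP2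
  have h9 := hh.hP
  have h10 := hh.tR1
  have hm := Hub.monoa h hh (t := tR) (by omega) (le_refl tR) h7 h8 (by omega)
  have e1 := m.tri (C 0) (γ tR) (C kP)
  have e2 := h.big.geo 0 kP (by omega) (by omega) (by omega)
  have e3 := (h.small.cyc.isPath 0 tR).le (le_refl 0) (by omega) (le_refl tR)
  rw [h.com 0 (by omega) (by omega)] at e3
  rw [e2] at e1
  refine ⟨hm, by omega, by omega⟩

end Pool.Agent.H.MP_21aec1_al.Hy
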