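import Pool.Agent.H.MP_21aec1_al.Hy.Swap
import Pool.Agent.H.MP_21aec1_al.Defs

set_option autoImplicit false

namespace Pool.Agent.H.MP_21aec1_al.Hy

variable {G : Type} [Group G]

/-- one half of the rigidity estimate -/
private theorem rigid_half {S : Finset G} {lam eps : ℤ} {ι : Type}
    {Ty : ι → List S → List S → List S → List S → Prop}
    (hsw : Swap (quasigeodesics S (lam : ℝ) (eps : ℝ)) ι Ty) {r : ι}
    {x u v y x' u' v' y' w w' : List S} (hw : w = x ++ u ++ v ++ y)
    (hw' : w' = x' ++ u' ++ v' ++ y')
    (h : Ty r x u v y) (h' : Ty r x' u' v' y') {α β α' β' : ℕ}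
    (h1' : x'.length ≤ α') (h2' : α' < x'.length + u'.length) (h3' : x'.length + u'.length < β')
    (h4' : β' ≤ x'.length + u'.length + v'.length)
    (hc : ev S (x ++ u) = ev S (x' ++ u'))
    (hA : ev S (w.take α) = ev S (w'.take α'))
    (hB : ev S (w.take β) = ev S (w'.take β'))
    (t1 : lam * wordLength S (ev S (w.take β)) + eps ≤ β + 3)
    (t2 : lam * wordLength S ((ev S (w.take α))⁻¹ * ev S w) + eps ≤ w.length - α + 3) :
    ((x.length : ℤ) + u.length) + (β' - (x'.length + u'.length)) ≤ β + 3 ∧
    ((x'.length : ℤ) + u'.length - α') + (v.length + y.length) ≤ w.length - α + 3 := by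
  constructor
  · have hm := hsw.swap1 r x u v y x' u' v' y' h h'
    have hi : x ++ u ++ v'.take (β' - (x'.length + u'.length)) <:+: x ++ u ++ v' ++ y := by
      refine ⟨[], v'.drop (β' - (x'.length + u'.length)) ++ y, ?_⟩
      rw [List.nil_append, List.append_assoc (x ++ u), ← List.append_assoc (v'.take _),
        List.take_append_drop, ← List.append_assoc]
    have hq := hm _ hi
    have e1 : w'.take β' = x' ++ u' ++ v'.take (β' - (x'.length + u'.length)) := by
      have e0 : List.take β' (x' ++ u') = x' ++ u' :=
        List.take_of_length_le (by rw [List.length_append]; omega)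
      have : β' - (x'.length + u'.length) - v'.length = 0 := by omega
      rw [hw', List.append_assoc (x' ++ u'), List.take_append (l₁ := x' ++ u'), e0,
        List.take_append (l₁ := v'), List.length_append, this]
      simp
    have e2 : ev S (x ++ u ++ v'.take (β' - (x'.length + u'.length))) = ev S (w.take β) := by
      rw [hB, e1, ev_append, hc, ← ev_append]
    rw [e2] at hq
    have hq' : ((x ++ u ++ v'.take (β' - (x'.length + u'.length))).length : ℤ) ≤
        lam * wordLength S (ev S (w.take β)) + eps := by exact_mod_cast hq
    rw [List.length_append, List.length_append, List.length_take] at hq'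
    push_cast at hq'
    omega
  · have hm := hsw.swap2 r x u v y x' u' v' y' h h'
    have hi : u'.drop (α' - x'.length) ++ (v ++ y) <:+: x ++ u' ++ v ++ y := by
      refine ⟨x ++ u'.take (α' - x'.length), [], ?_⟩
      rw [List.append_nil, List.append_assoc x, ← List.append_assoc (u'.take _),
        List.take_append_drop]
      simp only [List.append_assoc]
    have hq := hm _ hi
    have e1 : w'.take α' = x' ++ u'.take (α' - x'.length) := by
      have : α' - x'.length - u'.length = 0 := by omega
      rw [hw', List.append_assoc, List.append_assoc, List.take_append (l₁ := x'),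
        List.take_append (l₁ := u'), List.take_of_length_le h1', this]
      simp
    have e2 : ev S (x' ++ u') = ev S (w'.take α') * ev S (u'.drop (α' - x'.length)) := by
      rw [e1, ← ev_append, List.append_assoc, List.take_append_drop]
    have e3 : ev S w = ev S (x ++ u) * ev S (v ++ y) := by
      rw [hw, ← ev_append]
      simp only [List.append_assoc]
    have e4 : ev S (u'.drop (α' - x'.length) ++ (v ++ y)) = (ev S (w.take α))⁻¹ * ev S w := by
      rw [ev_append, e3, hc, e2, hA]
      group
    rw [e4] at hq
    have hq' : ((u'.drop (α' - x'.length) ++ (v ++ y)).length : ℤ) ≤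
        lam * wordLength S ((ev S (w.take α))⁻¹ * ev S w) + eps := by exact_mod_cast hq
    rw [List.length_append, List.length_append, List.length_drop] at hq'
    push_cast at hq'
    omega

/-- RIGIDITY. Two quasigeodesic words `w = x u v y`, `w' = x' u' v' y'` with cuts of the same type
at positions `c = |x u|`, `c' = |x' u'|`, with the same values at the cut, at the marked positions
`α, α'`, `β, β'` and at the end; the prefixes up to `β`, `β'` and the suffixes from `α`, `α'` are
tight up to 3. Then `β - c` and `c - α` are determined up to 3.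

Proof. `x ++ u ++ v' ++ y ∈ L` (swap1). Its prefix of length `c + (β' - c')` has value
`ev(x u) * ev(x' u')⁻¹ * ev(w'.take β') = ev (w'.take β') = ev (w.take β)`, so
`c + (β' - c') ≤ lam * |ev (w.take β)| + eps ≤ β + 3`, i.e. `β' - c' ≤ β - c + 3`.
`x ++ u' ++ v ++ y ∈ L` (swap2). Its suffix starting at the position `|x| + (α' - |x'|)` is
`(w'.take c').drop α' ++ w.drop c`, length `(c' - α') + (|w| - c)`, value
`ev(w'.take α')⁻¹ * ev(w'.take c') * ev(w.take c)⁻¹ * ev w = ev(w.take α)⁻¹ * ev w`; so
`(c' - α') + (|w| - c) ≤ |w| - α + 3`. The other two inequalities by symmetry.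
(The word is in `quasigeodesics S lam eps` iff every infix is fine; `List.take`, `List.drop`
infixes; `wordLength` of equal elements.) -/
theorem rigid {S : Finset G} {lam eps : ℤ} {ι : Type}
    {Ty : ι → List S → List S → List S → List S → Prop}
    (hsw : Swap (quasigeodesics S (lam : ℝ) (eps : ℝ)) ι Ty) {r : ι}
    {x u v y x' u' v' y' w w' : List S} (hw : w = x ++ u ++ v ++ y)
    (hw' : w' = x' ++ u' ++ v' ++ y')
    (h : Ty r x u v y) (h' : Ty r x' u' v' y') {α β α' β' : ℕ}
    (h1 : x.length ≤ α) (h2 : α < x.length + u.length) (h3 : x.length + u.length < β)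
    (h4 : β ≤ x.length + u.length + v.length)
    (h1' : x'.length ≤ α') (h2' : α' < x'.length + u'.length) (h3' : x'.length + u'.length < β')
    (h4' : β' ≤ x'.length + u'.length + v'.length)
    (hc : ev S (x ++ u) = ev S (x' ++ u'))
    (hA : ev S (w.take α) = ev S (w'.take α'))
    (hB : ev S (w.take β) = ev S (w'.take β'))
    (hZ : ev S w = ev S w')
    (t1 : lam * wordLength S (ev S (w.take β)) + eps ≤ β + 3)
    (t1' : lam * wordLength S (ev S (w'.take β')) + eps ≤ β' + 3)
    (t2 : lam * wordLength S ((ev S (w.take α))⁻¹ * ev S w) + eps ≤ w.length - α + 3)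
    (t2' : lam * wordLength S ((ev S (w'.take α'))⁻¹ * ev S w') + eps ≤ w'.length - α' + 3) :
    |((β : ℤ) - (x.length + u.length)) - (β' - (x'.length + u'.length))| ≤ 3 ∧
    |(((x.length : ℤ) + u.length) - α) - ((x'.length + u'.length) - α')| ≤ 3 := by
  have hl : w.length = x.length + u.length + v.length + y.length := by
    rw [hw]; simp only [List.length_append]
  have hl' : w'.length = x'.length + u'.length + v'.length + y'.length := by
    rw [hw']; simp only [List.length_append]
  obtain ⟨a1, a2⟩ := rigid_half hsw hw hw' h h' h1' h2' h3' h4' hc hA hB t1 t2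
  obtain ⟨b1, b2⟩ := rigid_half hsw hw' hw h' h h1 h2 h3 h4 hc.symm hA.symm hB.symm t1' t2'
  constructor
  · rw [abs_le]; constructor <;> omega
  · rw [abs_le]; constructor <;> omega

end Pool.Agent.H.MP_21aec1_al.Hy
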