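import Pool.Agent.H.MP_21aec1_al.Hy.SDef

set_option autoImplicit false

namespace Pool.Agent.H.MP_21aec1_al.Hy

variable {X : Type} {m : GMet X}

/-- SELECTION. Let `F i j = 3 (j - i) - lam * d (ζ i) (ζ j)`, `lam = 5K`; a pair `i ≤ j` is
feasible if `F i j ≤ 0`. All pairs with `j - i ≤ K d` are feasible (`lam d ≥ 5 (j-i)`).
`e2` = the largest `j ≤ N` such that all pairs in `[l0,j]` are feasible: `e2 ≥ r1` by (s1), and
`e2 < N` because `F q N = 3(N-q) - lam d ≥ 2 (N-q) > 0` by (s3'). `u1 = e2 + 1`: some `i ≥ l0` has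
`F i u1 > 0`.
`s1` = the smallest `i ≥ 0` such that all pairs in `[i,e2]` are feasible: `s1 ≤ l0`, and `s1 ≥ 1`
because `F 0 p = 3p - lam d ≥ 3p - q > 0` (s3) and `p ≤ e2`. `u0 = s1 - 1`: some `j ≤ e2` has
`F u0 j > 0` (pairs `(i,j)` with `i > u0` are feasible).
`e1` = a maximiser of `F u0 ·` on `[u0,e2]`, `s2` = a maximiser of `F · u1` on `[l0,u1]`.
`1 ≤ F u0 e1 ≤ F (u0+1) e1 + 3 + lam ≤ lam + 3` (note `e1 ≠ u0` since `F u0 u0 = 0`; distances
change by at most 1), similarly for `s2`; `F i u1 ≤ F i e2 + 3 + lam`.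
By (s4) applied to `(u0,e1)`:
 * `j - i ≤ K d`: `F ≤ 0`, contradiction;
 * `8j ≤ 8p - a`, `d(i,p) ≤ d(i,j)`: `F i j < F i p`, contradiction with maximality (`p ≤ e2`);
 * last alternative: `F i j = F i p + F q j - 3(p-q) + lam (d(i,p)+d(q,j)-d(i,j))
   ≤ F i p + 0 - 3a + a < F i p` (`(q,j)` is feasible as `l0 ≤ q ≤ j ≤ e2`), contradiction.
So `8 e1 ≥ 8p - a` and `e1 ≤ r0`. Similarly by (s5) applied to `(s2,u1)` (`u1 > r1`): first
alternative gives `F ≤ 0`; second: `F i u1 < F q u1` (`i > q`); fourth: `F i u1 < F q u1`; so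
`l1 ≤ s2` and `8 s2 ≤ 8 q + a`.  Hence `e1 - s2 ≥ 3a/4 ≥ a1` and `e1 - s2 ≤ r0 - l1`. -/
theorem select {K a0 a1 : ℤ} {ζ : ℤ → X} {N l0 l1 q p r0 r1 : ℤ} (hK : 1 ≤ K)
    (h : SData m K (5 * K) a0 ζ N l0 l1 q p r0 r1) (ha1 : 1 ≤ a1) (ha : 4 * a1 ≤ 3 * a0) :
    ∃ u0 s2 e1 u1, 0 ≤ u0 ∧ u1 ≤ N ∧ Tight m K (5 * K) a1 ζ u0 l0 l1 s2 e1 r0 r1 u1 := by
  obtain ⟨path, h0, h1, h2, h3, ha', h4, h5, h6, m1, m2, s1, s3, s3', s4, s5⟩ := h
  have hKd : ∀ x y : X, 0 ≤ K * m.d x y := fun x y => mul_nonneg (by omega) (m.nonneg x y)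
  have h5K : ∀ D : ℤ, 5 * K * D = 5 * (K * D) := fun D => by ring
  -- changes of distance by one
  have stepR : ∀ i j, 0 ≤ j → j < N → K * m.d (ζ i) (ζ j) ≤ K * m.d (ζ i) (ζ (j + 1)) + K := by
    intro i j hj hj'
    have e1 := m.tri (ζ i) (ζ (j + 1)) (ζ j)
    rw [m.symm (ζ (j + 1)) (ζ j), path j hj hj'] at e1
    calc K * m.d (ζ i) (ζ j) ≤ K * (m.d (ζ i) (ζ (j + 1)) + 1) :=
          mul_le_mul_of_nonneg_left e1 (by omega)
      _ = _ := by ring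
  have stepL : ∀ i j, 0 ≤ i → i < N → K * m.d (ζ (i + 1)) (ζ j) ≤ K * m.d (ζ i) (ζ j) + K := by
    intro i j hi hi'
    have e1 := m.tri (ζ (i + 1)) (ζ i) (ζ j)
    rw [m.symm (ζ (i + 1)) (ζ i), path i hi hi'] at e1
    calc K * m.d (ζ (i + 1)) (ζ j) ≤ K * (1 + m.d (ζ i) (ζ j)) :=
          mul_le_mul_of_nonneg_left e1 (by omega)
      _ = _ := by ring
  simp only [h5K] at s3 s3' s4 s5
  -- the right end
  obtain ⟨e2, ⟨he2a, he2b, he2c⟩, he2m⟩ := Int.exists_greatest_of_bdd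
    (P := fun j => r1 ≤ j ∧ j ≤ N ∧ ∀ i' j', l0 ≤ i' → i' ≤ j' → j' ≤ j →
      3 * (j' - i') - 5 * (K * m.d (ζ i') (ζ j')) ≤ 0)
    ⟨N, fun z hz => hz.2.1⟩ ⟨r1, le_refl _, by omega, fun i' j' a b c => by
      have := s1 i' j' a b c
      omega⟩
  have hqN := hKd (ζ q) (ζ N)
  have he2N : e2 < N := by
    by_contra hc
    have e3 : e2 = N := by omega
    have := he2c q N (by omega) (by omega) (by omega)
    omega
  have hu1 : ∃ i, l0 ≤ i ∧ i ≤ e2 + 1 ∧ 0 < 3 * (e2 + 1 - i) - 5 * (K * m.d (ζ i) (ζ (e2 + 1))) := by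
    by_contra hc
    push Not at hc
    have := he2m (e2 + 1) ⟨by omega, by omega, fun i' j' a b c => by
      rcases eq_or_lt_of_le c with c | c
      · rw [c]
        exact hc i' a (by omega)
      · exact he2c i' j' a b (by omega)⟩
    omega
  -- the left end
  obtain ⟨a1', ⟨ha1a, ha1b, ha1c⟩, ha1m⟩ := Int.exists_least_of_bdd
    (P := fun i => 0 ≤ i ∧ i ≤ l0 ∧ ∀ i' j', i ≤ i' → i' ≤ j' → j' ≤ e2 →
      3 * (j' - i') - 5 * (K * m.d (ζ i') (ζ j')) ≤ 0)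
    ⟨0, fun z hz => hz.1⟩ ⟨l0, by omega, le_refl _, he2c⟩
  have h0p := hKd (ζ 0) (ζ p)
  have ha1pos : 1 ≤ a1' := by
    by_contra hc
    have e3 : a1' = 0 := by omega
    have := ha1c 0 p (by omega) (by omega) (by omega)
    omega
  obtain ⟨u0, rfl⟩ : ∃ u0, a1' = u0 + 1 := ⟨a1' - 1, by omega⟩
  have hu0 : ∃ j, u0 ≤ j ∧ j ≤ e2 ∧ 0 < 3 * (j - u0) - 5 * (K * m.d (ζ u0) (ζ j)) := by
    by_contra hc
    push Not at hc
    have := ha1m u0 ⟨by omega, by omega, fun i' j' a b c => by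
      rcases eq_or_lt_of_le a with a | a
      · rw [← a]
        exact hc j' (by omega) c
      · exact ha1c i' j' (by omega) b c⟩
    omega
  -- maximisers
  obtain ⟨e1, he1, he1m⟩ := (Finset.Icc u0 e2).exists_max_image
    (fun j => 3 * (j - u0) - 5 * (K * m.d (ζ u0) (ζ j)))
    ⟨u0, Finset.mem_Icc.2 ⟨le_refl _, by omega⟩⟩
  obtain ⟨s2, hs2, hs2m⟩ := (Finset.Icc l0 (e2 + 1)).exists_max_image
    (fun i => 3 * (e2 + 1 - i) - 5 * (K * m.d (ζ i) (ζ (e2 + 1))))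
    ⟨l0, Finset.mem_Icc.2 ⟨le_refl _, by omega⟩⟩
  rw [Finset.mem_Icc] at he1 hs2
  have hE : ∀ j, u0 ≤ j → j ≤ e2 → 3 * (j - u0) - 5 * (K * m.d (ζ u0) (ζ j)) ≤
      3 * (e1 - u0) - 5 * (K * m.d (ζ u0) (ζ e1)) := fun j a b =>
    he1m j (Finset.mem_Icc.2 ⟨a, b⟩)
  have hS : ∀ i, l0 ≤ i → i ≤ e2 + 1 → 3 * (e2 + 1 - i) - 5 * (K * m.d (ζ i) (ζ (e2 + 1))) ≤
      3 * (e2 + 1 - s2) - 5 * (K * m.d (ζ s2) (ζ (e2 + 1))) := fun i a b =>
    hs2m i (Finset.mem_Icc.2 ⟨a, b⟩)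
  obtain ⟨j1, hj1, hj1', hj1p⟩ := hu0
  obtain ⟨i1, hi1, hi1', hi1p⟩ := hu1
  have hE1 : 1 ≤ 3 * (e1 - u0) - 5 * (K * m.d (ζ u0) (ζ e1)) := by
    have := hE j1 hj1 hj1'
    omega
  have hS1 : 1 ≤ 3 * (e2 + 1 - s2) - 5 * (K * m.d (ζ s2) (ζ (e2 + 1))) := by
    have := hS i1 hi1 hi1'
    omega
  have hself : ∀ i, K * m.d (ζ i) (ζ i) = 0 := fun i => by rw [m.self]; ring
  have he1u : u0 < e1 := by
    rcases eq_or_lt_of_le he1.1 with c | c
    · rw [← c] at hE1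
      have := hself u0
      omega
    · exact c
  have hs2u : s2 < e2 + 1 := by
    rcases eq_or_lt_of_le hs2.2 with c | c
    · rw [c] at hS1
      have := hself (e2 + 1)
      omega
    · exact c
  -- interior feasibility
  have f1 : ∀ i j, u0 < i → i ≤ j → j < e2 + 1 →
      3 * (j - i) - 5 * (K * m.d (ζ i) (ζ j)) ≤ 0 := fun i j a b c =>
    ha1c i j (by omega) b (by omega)
  have hE2 : 3 * (e1 - u0) - 5 * (K * m.d (ζ u0) (ζ e1)) ≤ 5 * K + 3 := by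
    have a := f1 (u0 + 1) e1 (by omega) (by omega) (by omega)
    have b := stepL u0 e1 (by omega) (by omega)
    omega
  have f4 : ∀ i, u0 < i → i ≤ e2 + 1 →
      3 * (e2 + 1 - i) - 5 * (K * m.d (ζ i) (ζ (e2 + 1))) ≤ 5 * K + 3 := by
    intro i a b
    rcases eq_or_lt_of_le b with c | c
    · rw [c]
      have := hself (e2 + 1)
      omega
    · have a' := f1 i e2 a (by omega) (by omega)
      have b' := stepR i e2 (by omega) (by omega)
      omega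
  have f5 : 3 * (e2 + 1 - u0) - 5 * (K * m.d (ζ u0) (ζ (e2 + 1))) ≤ 2 * (5 * K) + 6 := by
    have a := hE e2 (by omega) (le_refl _)
    have b := stepR u0 e2 (by omega) (by omega)
    omega
  -- location of `e1`
  have loc1 : 8 * p - (p - q) ≤ 8 * e1 ∧ e1 ≤ r0 := by
    rcases s4 u0 e1 (by omega) (by omega) (by omega) (by omega) with c | c | c | c
    · omega
    · have e3 := hE p (by omega) (by omega)
      have e4 : K * m.d (ζ u0) (ζ p) ≤ K * m.d (ζ u0) (ζ e1) :=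
        mul_le_mul_of_nonneg_left c.2 (by omega)
      omega
    · exact c
    · have e3 := hE p (by omega) (by omega)
      have e4 := f1 q e1 (by omega) (by omega) (by omega)
      have e5 : K * (m.d (ζ u0) (ζ p) + m.d (ζ q) (ζ e1) - m.d (ζ u0) (ζ e1)) =
        K * m.d (ζ u0) (ζ p) + K * m.d (ζ q) (ζ e1) - K * m.d (ζ u0) (ζ e1) := by ring
      rw [e5] at c
      omega
  -- location of `s2`
  have loc2 : l1 ≤ s2 ∧ 8 * s2 ≤ 8 * q + (p - q) := by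
    rcases s5 s2 (e2 + 1) (by omega) (by omega) (by omega) (by omega) with c | c | c | c
    · omega
    · have e3 := hS q (by omega) (by omega)
      have e4 : K * m.d (ζ q) (ζ (e2 + 1)) ≤ K * m.d (ζ s2) (ζ (e2 + 1)) :=
        mul_le_mul_of_nonneg_left c.2 (by omega)
      omega
    · exact c
    · have e3 := hS q (by omega) (by omega)
      have e5 : K * (m.d (ζ s2) (ζ (e2 + 1)) - m.d (ζ q) (ζ (e2 + 1))) =
        K * m.d (ζ s2) (ζ (e2 + 1)) - K * m.d (ζ q) (ζ (e2 + 1)) := by ring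
      rw [e5] at c
      omega
  refine ⟨u0, s2, e1, e2 + 1, by omega, by omega, ?_⟩
  constructor
  · intro i a b
    exact path i (by omega) (by omega)
  · omega
  · omega
  · omega
  · omega
  · omega
  · omega
  · omega
  · omega
  · have : e1 - s2 ≤ r0 - l1 := by omega
    omega
  · have : e1 - s2 ≤ r0 - l1 := by omega
    omega
  · exact s1
  · intro i j a b c
    rw [h5K]
    exact f1 i j a b c
  · intro j a b
    rw [h5K, h5K]
    exact hE j a (by omega)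
  · rw [h5K]; exact hE1
  · rw [h5K]; exact hE2
  · intro i a b
    rw [h5K, h5K]
    exact hS i a b
  · rw [h5K]; exact hS1
  · rw [h5K]; exact f4 s2 (by omega) (by omega)
  · intro i a b
    rw [h5K]
    exact f4 i a b
  · rw [h5K]; exact f5

end Pool.Agent.H.MP_21aec1_al.Hy
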