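import Pool.Agent.H.MP_21aec1_al.Hy.WordF
import Pool.Agent.H.MP_21aec1_al.Hy.IdxR
import Pool.Agent.H.MP_21aec1_al.Hy.Select
import Pool.Agent.H.MP_21aec1_al.Hy.Family
import Pool.Agent.H.MP_21aec1_al.Hy.FamMid
import Pool.Agent.H.MP_21aec1_al.Hy.Rigid
import Pool.Agent.H.MP_21aec1_al.Hy.Count

set_option autoImplicit false

namespace Pool.Agent.H.MP_21aec1_al.Hy

variable {G : Type} [Group G]

private theorem notCF_tm_mono {F : FamPar} {w t : ℤ} (hb : ∀ e, 0 ≤ F.bnc w t e ∧ F.bnc w t e ≤ 2)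
    {i j : ℤ} (hij : i ≤ j) : F.Tm w t i ≤ F.Tm w t j := by
  obtain ⟨n, rfl⟩ : ∃ n : ℕ, j = i + n := ⟨(j - i).toNat, by omega⟩
  induction n with
  | zero => simp
  | succ n ih =>
    have h1 := ih (by omega)
    have h2 := (hb (i + (n : ℤ) + 1)).1
    unfold FamPar.bnc at h2
    rw [show i + (n : ℤ) + 1 - 1 = i + n by ring] at h2
    unfold FamPar.Tm at h1 ⊢
    push_cast
    rw [← add_assoc]
    omega

private theorem notCF_arith {K r K0 n W : ℤ} (hK : 1 ≤ K) (hr : 0 ≤ r)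
    (hK0 : K0 = 16 * K * r + 10 * K + 40) (hn : 100 * K * (K0 + 1) ^ 2 * (r + 1) ≤ n)
    (hW : n < 8 * K * (W + 1))
    (h : (W + 1) * (K0 + 1) ≤ r * (n + 3) + r * (2 * (6 * K0) + 4) * (K0 + 1)) : False := by
  have hKr : 0 ≤ K * r := mul_nonneg (by omega) hr
  have hK0p : 51 ≤ K0 + 1 := by nlinarith
  set A : ℤ := (K0 + 1) ^ 2 with hA
  have hA1 : 1 ≤ A := by rw [hA]; nlinarith
  have hKA : 1 ≤ K * A := by nlinarith
  have hn0 : 0 ≤ n := by
    have : 0 ≤ 100 * K * A * (r + 1) := by positivity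
    omega
  -- multiply by 8 K
  have h1 : 8 * K * ((W + 1) * (K0 + 1)) ≤
      8 * K * (r * (n + 3) + r * (2 * (6 * K0) + 4) * (K0 + 1)) :=
    mul_le_mul_of_nonneg_left h (by omega)
  have h2 : n * (K0 + 1) ≤ 8 * K * ((W + 1) * (K0 + 1)) := by
    have := mul_le_mul_of_nonneg_right hW.le (show (0 : ℤ) ≤ K0 + 1 by omega)
    linarith [this, mul_assoc (8 * K) (W + 1) (K0 + 1)]
  have h3 : r * (2 * (6 * K0) + 4) * (K0 + 1) ≤ 12 * (r * A) := by
    have h4 : (2 * (6 * K0) + 4) * (K0 + 1) ≤ 12 * A := by rw [hA]; nlinarith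
    have := mul_le_mul_of_nonneg_left h4 hr
    linarith [this, mul_assoc r (2 * (6 * K0) + 4) (K0 + 1)]
  have h5 : n * (K0 + 1) ≤ 8 * (K * r) * n + 24 * (K * r) + 96 * (K * r * A) := by
    have h6 := mul_le_mul_of_nonneg_left h3 (show (0 : ℤ) ≤ 8 * K by omega)
    nlinarith [h1, h2, h6]
  have h7 : n * (K0 + 1) = 16 * (K * r) * n + (10 * K + 41) * n := by rw [hK0]; ring
  have h8 : 51 * n ≤ (10 * K + 41) * n := mul_le_mul_of_nonneg_right (by omega) hn0
  have h9 : 0 ≤ (K * r) * n := mul_nonneg hKr hn0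
  have h10 : 51 * n ≤ 24 * (K * r) + 96 * (K * r * A) := by linarith
  have h11 : 100 * (K * A * r) + 100 * (K * A) ≤ n := by
    calc 100 * (K * A * r) + 100 * (K * A) = 100 * K * A * (r + 1) := by ring
      _ ≤ n := hn
  have h12 : K * r ≤ K * r * A := by nlinarith
  have h13 : K * A * r = K * r * A := by ring
  have h14 : 0 ≤ K * r * A := mul_nonneg hKr (by omega)
  rw [h13] at h11
  linarith

/-- MAIN THEOREM OF PART ONE. If for every `a0` there is an `SData` configuration then the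
`(5K, 5K+8)`-quasigeodesic language is not context-free.

Proof. Assume it is; `swap_of_contextFree` gives a finite `ι`, `r = card ι`.
Put `K0 = 16 K r + 10 K + 40` (so `6 K0 ≥ 2(5K) + 20`), `nO = e1 - s2`, `W = nO/(8K)`, where the
`Tight` data come from `select` with `a1` huge (`a1 ≥ 100 K (K0+1)^2 * (r+1)`); then
`4W ≤ nO/(2K)`, `4W + 6K0 + 2 ≤ nO/K ≤ min (l1-l0) (r1-r0)`, `4W + 12K0 ≤ nO`.
For `w ≤ W`, `t ≤ K0` take the word `z_{w,t}` of `word_of_family`; positions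
`α = V s2`, `β = U e1` (as naturals); `β - α = 3 nO + 4 + 12K0 + 8w ≥ 2`. Cut by `exists_cut`,
type `ρ`, cut position `c`, index `k` of `c` (third component of `word_of_family`), in
`[s2-1, e1+1]` by `idx_range`.  `f w t = (ρ, k)`.
`rigid` (values: at `α`: `(ζ u0)⁻¹ ζ s2`, at `β`: `(ζ u0)⁻¹ ζ e1`, at the end `(ζ u0)⁻¹ ζ u1`, at
the cut `(ζ u0)⁻¹ ζ k`; tightness from `family`) gives: equal `(ρ,k)` implies
`|(β-c)-(β'-c')| ≤ 3`, `|(c-α)-(c'-α')| ≤ 3`, so `8|w - w'| ≤ 6`, `w = w'`; and if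
`s2 + 6K0 < k < e1 - 6K0` then by `family_mid` `c - α ∈ [x + 12 t, x + 12 t + 8]` with `x`
independent of `t`, so `12|t - t'| ≤ 8 + 3`, `t = t'`.
`count` with `a = s2`, `b = e1`, `J = 6K0` gives `(W+1)(K0+1) ≤ r(nO+3) + r(12K0+4)(K0+1)`, while
`8K(W+1) ≥ nO`, so `(W+1)(K0+1) ≥ nO (16Kr+1)/(8K) ≥ 2 r nO + nO/(8K)`: contradiction for `nO`
large (`nO ≥ a1`). (If `r = 0` also a contradiction.) -/
theorem not_cf {S : Finset G} (hS : SymmGenerates S ⊤) {K : ℤ} (hK : 1 ≤ K)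
    (h : ∀ a0 : ℤ, ∃ (ζ : ℤ → G) (N l0 l1 q p r0 r1 : ℤ),
      SData (wordMet S hS) K (5 * K) a0 ζ N l0 l1 q p r0 r1) :
    ¬ (quasigeodesics S ((5 * K : ℤ) : ℝ) ((5 * K + 8 : ℤ) : ℝ)).IsContextFree := by
  intro hcf
  obtain ⟨ι, _, Ty, hsw⟩ := swap_of_contextFree hcf
  set r : ℤ := (Fintype.card ι : ℤ) with hrdef
  have hr : 0 ≤ r := Int.natCast_nonneg _
  obtain ⟨K0, hK0def⟩ : ∃ K0 : ℤ, K0 = 16 * K * r + 10 * K + 40 := ⟨_, rfl⟩
  have hKr : 0 ≤ K * r := mul_nonneg (by omega) hr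
  have hK0p : 50 ≤ K0 := by rw [hK0def]; nlinarith
  obtain ⟨a1, ha1def⟩ : ∃ a1 : ℤ, a1 = 100 * K * (K0 + 1) ^ 2 * (r + 1) := ⟨_, rfl⟩
  have hbig : 100 * K * (K0 + 1) ^ 2 ≤ a1 := by
    rw [ha1def]
    have : 0 ≤ 100 * K * (K0 + 1) ^ 2 := by positivity
    nlinarith
  have hbig2 : 100 * (K * (K0 + 1)) ≤ 100 * K * (K0 + 1) ^ 2 := by
    have h1 : 0 ≤ K * (K0 + 1) := mul_nonneg (by omega) (by omega)
    nlinarith
  have hK01 : K0 + 1 ≤ K * (K0 + 1) := by nlinarith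
  have ha1 : 1 ≤ a1 := by linarith
  obtain ⟨ζ, N, l0, l1, q, p, r0, r1, hSD⟩ := h (2 * a1)
  obtain ⟨u0, s2, e1, u1, hu0, hu1, hT⟩ := select hK hSD (a1 := a1) ha1 (by
    linarith)
  have hnO : a1 ≤ e1 - s2 := hT.ha
  obtain ⟨W, hWdef⟩ : ∃ W : ℤ, W = (e1 - s2) / (8 * K) := ⟨_, rfl⟩
  have h8K : 0 < 8 * K := by omega
  have hW0 : 0 ≤ W := by rw [hWdef]; exact Int.ediv_nonneg (by omega) (by omega)
  have hW1 : 8 * K * W ≤ e1 - s2 := by
    rw [hWdef]
    have := Int.ediv_mul_le (e1 - s2) (show (8 * K : ℤ) ≠ 0 by omega)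
    linarith
  have hW2 : e1 - s2 < 8 * K * (W + 1) := by
    rw [hWdef]
    have := Int.lt_ediv_add_one_mul_self (e1 - s2) h8K
    linarith
  have hKW : W ≤ K * W := by nlinarith
  have hcaux : K * (4 * W + 6 * K0 + 2) ≤ e1 - s2 := by nlinarith
  have hc1 : 4 * W + 6 * K0 + 2 ≤ l1 - l0 :=
    le_of_mul_le_mul_left (hcaux.trans hT.m1) (by omega)
  have hc2 : 4 * W + 6 * K0 + 2 ≤ r1 - r0 :=
    le_of_mul_le_mul_left (hcaux.trans hT.m2) (by omega)
  have hc3 : 4 * W + 12 * K0 ≤ e1 - s2 := by nlinarith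
  obtain ⟨F, hFu0, hFs2, hFe1, hFu1, hFK0, hFl0, hFr0, hg1, hg1', hg2, hg2', hfam⟩ :=
    family hK hT hW0 (K0 := K0) (by rw [hK0def]; nlinarith) hc1 hc2 hc3
  have hTu0 := hT.h0
  have hTh2 := hT.h2
  have hTh1 := hT.h1
  have hTh4 := hT.h4
  have hTh5 := hT.h5
  have hTh6 := hT.h6
  have hTpath := hT.path
  subst hFu0 hFs2 hFe1 hFu1 hFl0 hFr0
  -- the words
  have key : ∀ w t : ℕ, (w : ℤ) ≤ W → (t : ℤ) ≤ K0 →
      ∃ (ρ : ι) (k : ℤ) (x u v y : List S), Ty ρ x u v y ∧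
        (F.s2 - 1 ≤ k ∧ k ≤ F.e1 + 1) ∧
        0 ≤ F.V w t F.s2 ∧ 0 ≤ F.U w t F.e1 ∧
        (x.length : ℤ) ≤ F.V w t F.s2 ∧ F.V w t F.s2 < x.length + u.length ∧
        (x.length : ℤ) + u.length < F.U w t F.e1 ∧
        F.U w t F.e1 ≤ x.length + u.length + v.length ∧
        ((x ++ u ++ v ++ y).length : ℤ) = F.U w t F.u1 ∧
        F.V w t k ≤ x.length + u.length ∧ (x.length : ℤ) + u.length ≤ F.U w t k ∧
        ev S (x ++ u) = (ζ F.u0)⁻¹ * ζ k ∧
        ev S ((x ++ u ++ v ++ y).take (F.V w t F.s2).toNat) = (ζ F.u0)⁻¹ * ζ F.s2 ∧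
        ev S ((x ++ u ++ v ++ y).take (F.U w t F.e1).toNat) = (ζ F.u0)⁻¹ * ζ F.e1 ∧
        ev S (x ++ u ++ v ++ y) = (ζ F.u0)⁻¹ * ζ F.u1 := by
    intro w t hw ht
    obtain ⟨hb, hD0, hmem, htl, htr, hlen⟩ := hfam w t (by omega) hw (by omega) ht
    obtain ⟨z, hzL, hzlen, hzvis, hzval⟩ := word_of_family hS hK (F := F) (w := w) (t := t)
      (by omega) hTpath hb hD0 hmem
    have hV := (hzval F.s2 (by omega) (by omega))
    have hUe : F.U w t F.e1 ≤ F.U w t F.u1 := by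
      have h1 := notCF_tm_mono hb (show F.e1 + 1 ≤ F.u1 by omega)
      have h2 : F.U w t F.e1 = F.Tm w t (F.e1 + 1) - 1 := by
        unfold FamPar.U; rw [if_neg (by omega)]
      have h3 : F.U w t F.u1 = F.Tm w t F.u1 := by
        unfold FamPar.U; rw [if_pos le_rfl]
      omega
    have hUpos : 0 ≤ F.U w t F.e1 := by omega
    obtain ⟨ρ, x, u, v, y, hz, hTy, hc1', hc2', hc3', hc4'⟩ := hsw.exists_cut z hzL
      (F.V w t F.s2).toNat (F.U w t F.e1).toNat (by omega) (by omega)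
    subst hz
    obtain ⟨k, hk1, hk2, hk3, hk4, hk5⟩ := hzvis (x.length + u.length) (by
      simp only [List.length_append]; omega)
    have hk5' : ev S (x ++ u) = (ζ F.u0)⁻¹ * ζ k := by
      rw [← hk5]
      congr 1
      rw [show x ++ u ++ v ++ y = (x ++ u) ++ (v ++ y) by simp [List.append_assoc],
        show x.length + u.length = (x ++ u).length by simp, List.take_left]
    push_cast at hk3 hk4
    have hidx := idx_range hb (show F.u0 < F.s2 by omega) (show F.e1 < F.u1 by omega) hk1 hk2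
      hk3 hk4 (by omega) (by omega)
    refine ⟨ρ, k, x, u, v, y, hTy, hidx, hV.1, hUpos, by omega, by omega, by omega, by omega,
      hzlen, hk3, hk4, hk5', hV.2.1, (hzval F.e1 (by omega) (by omega)).2.2, ?_⟩
    have h1 := (hzval F.u1 (by omega) le_rfl).2.2
    rw [← h1]
    congr 1
    rw [List.take_of_length_le]
    omega
  have hne : Nonempty ι := ⟨(key 0 0 (by simpa using hW0) (by push_cast; omega)).choose⟩
  choose! ρ k x u v y hTy hidx hV0 hU0 hx1 hx2 hx3 hx4 hlen hk3 hk4 hk5 hvA hvB hvZ using key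
  -- rigidity
  have hrig : ∀ w t w' t' : ℕ, (w : ℤ) ≤ W → (t : ℤ) ≤ K0 → (w' : ℤ) ≤ W → (t' : ℤ) ≤ K0 →
      ρ w t = ρ w' t' → k w t = k w' t' →
      |(F.U w t F.e1 - ((x w t).length + (u w t).length)) -
        (F.U w' t' F.e1 - ((x w' t').length + (u w' t').length))| ≤ 3 ∧
      |(((x w t).length : ℤ) + (u w t).length - F.V w t F.s2) -
        ((x w' t').length + (u w' t').length - F.V w' t' F.s2)| ≤ 3 := by
    intro w t w' t' hw ht hw' ht' hρ hk
    obtain ⟨hb, hD0, hmem, htl, htr, hle⟩ := hfam w t (by omega) hw (by omega) ht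
    obtain ⟨hb', hD0', hmem', htl', htr', hle'⟩ := hfam w' t' (by omega) hw' (by omega) ht'
    have hVu : F.V w t F.u0 = 0 := by unfold FamPar.V; rw [if_pos le_rfl]
    have hVu' : F.V w' t' F.u0 = 0 := by unfold FamPar.V; rw [if_pos le_rfl]
    have a1 := hV0 w t hw ht
    have a1' := hV0 w' t' hw' ht'
    have a2 := hU0 w t hw ht
    have a2' := hU0 w' t' hw' ht'
    have a3 := hx1 w t hw ht
    have a3' := hx1 w' t' hw' ht'
    have a4 := hx2 w t hw ht
    have a4' := hx2 w' t' hw' ht'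
    have a5 := hx3 w t hw ht
    have a5' := hx3 w' t' hw' ht'
    have a6 := hx4 w t hw ht
    have a6' := hx4 w' t' hw' ht'
    have a7 := hlen w t hw ht
    have a7' := hlen w' t' hw' ht'
    have b1 : ((F.V w t F.s2).toNat : ℤ) = F.V w t F.s2 := Int.toNat_of_nonneg a1
    have b1' : ((F.V w' t' F.s2).toNat : ℤ) = F.V w' t' F.s2 := Int.toNat_of_nonneg a1'
    have b2 : ((F.U w t F.e1).toNat : ℤ) = F.U w t F.e1 := Int.toNat_of_nonneg a2
    have b2' : ((F.U w' t' F.e1).toNat : ℤ) = F.U w' t' F.e1 := Int.toNat_of_nonneg a2'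
    have hTy' := hTy w' t' hw' ht'
    rw [← hρ] at hTy'
    have e1 : ((ζ F.u0)⁻¹ * ζ F.s2)⁻¹ * ((ζ F.u0)⁻¹ * ζ F.u1) = (ζ F.s2)⁻¹ * ζ F.u1 := by group
    have main := rigid (lam := 5 * K) (eps := 5 * K + 8) hsw (r := ρ w t) rfl rfl
      (hTy w t hw ht) hTy'
      (α := (F.V w t F.s2).toNat) (β := (F.U w t F.e1).toNat)
      (α' := (F.V w' t' F.s2).toNat) (β' := (F.U w' t' F.e1).toNat)
      (by omega) (by omega) (by omega) (by omega) (by omega) (by omega) (by omega) (by omega)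
      (by rw [hk5 w t hw ht, hk5 w' t' hw' ht', hk])
      (by rw [hvA w t hw ht, hvA w' t' hw' ht'])
      (by rw [hvB w t hw ht, hvB w' t' hw' ht'])
      (by rw [hvZ w t hw ht, hvZ w' t' hw' ht'])
      (by rw [hvB w t hw ht, b2]; rw [wordMet_d] at htl; linarith)
      (by rw [hvB w' t' hw' ht', b2']; rw [wordMet_d] at htl'; linarith)
      (by rw [hvA w t hw ht, hvZ w t hw ht, e1, b1, a7]; rw [wordMet_d] at htr; linarith)
      (by rw [hvA w' t' hw' ht', hvZ w' t' hw' ht', e1, b1', a7']; rw [wordMet_d] at htr'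
          linarith)
    rw [b1, b1', b2, b2'] at main
    exact main
  have hcount := count (ι := ι) W.toNat K0.toNat (fun w t => (ρ w t, k w t)) F.s2 F.e1 (6 * K0)
    (by omega) (by nlinarith) (fun w t hw ht => hidx w t (by omega) (by omega))
    (fun w t w' t' hw ht hw' ht' he => by
      obtain ⟨he1, he2⟩ := Prod.mk.inj he
      have hm := (hrig w t w' t' (by omega) (by omega) (by omega) (by omega) he1 he2)
      obtain ⟨_, _, _, _, _, hle⟩ := hfam w t (by omega) (by omega) (by omega) (by omega)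
      obtain ⟨_, _, _, _, _, hle'⟩ := hfam w' t' (by omega) (by omega) (by omega) (by omega)
      rw [abs_le, abs_le] at hm
      omega)
    (fun w t t' hw ht ht' he hk1 hk2 => by
      obtain ⟨he1, he2⟩ := Prod.mk.inj he
      have hm := (hrig w t w t' (by omega) (by omega) (by omega) (by omega) he1 he2).2
      have c1 := hk3 w t (by omega) (by omega)
      have c2 := hk4 w t (by omega) (by omega)
      have c1' := hk3 w t' (by omega) (by omega)
      have c2' := hk4 w t' (by omega) (by omega)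
      simp only at hk1 hk2
      have m1 := family_mid (F := F) (W := W) (w := w) (t := t) (k := k w t) (by omega)
        (by omega) (by omega) (by omega) hTu0 (by omega) hg1 hg2 (by omega) (by omega)
        (by omega) hTh4 (by omega) (by omega) (by omega)
      have m2 := family_mid (F := F) (W := W) (w := w) (t := t') (k := k w t) (by omega)
        (by omega) (by omega) (by omega) hTu0 (by omega) hg1 hg2 (by omega) (by omega)
        (by omega) hTh4 (by omega) (by omega) (by omega)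
      rw [← he2] at c1' c2'
      rw [abs_le] at hm
      omega)
  have hWt : (W.toNat : ℤ) = W := Int.toNat_of_nonneg hW0
  have hK0t : (K0.toNat : ℤ) = K0 := Int.toNat_of_nonneg (by omega)
  rw [hWt, hK0t] at hcount
  exact notCF_arith hK hr hK0def (by rw [← ha1def]; exact hnO) hW2 hcount

end Pool.Agent.H.MP_21aec1_al.Hy
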