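import Pool.Agent.H.MP_21aec1_al.Hy.Base

set_option autoImplicit false

namespace Pool.Agent.H.MP_21aec1_al.Hy

variable {X : Type}

/-- The combinatorial configuration (a path `ζ` on `[0,N]` made of two overlapping almost closed
loops `[0,p]` and `[q,N]`) which prevents the quasigeodesic language from being context-free.
Always used with `lam = 5 * K`. -/
structure SData (m : GMet X) (K lam a0 : ℤ) (ζ : ℤ → X) (N l0 l1 q p r0 r1 : ℤ) : Prop where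
  path : ∀ i, 0 ≤ i → i < N → m.d (ζ i) (ζ (i + 1)) = 1
  h0 : 0 < l0
  h1 : l0 ≤ l1
  h2 : l1 ≤ q
  h3 : q < p
  ha : a0 ≤ p - q
  h4 : p ≤ r0
  h5 : r0 ≤ r1
  h6 : r1 < N
  m1 : r0 - l1 ≤ K * (l1 - l0)
  m2 : r0 - l1 ≤ K * (r1 - r0)
  s1 : ∀ i j, l0 ≤ i → i ≤ j → j ≤ r1 → j - i ≤ K * m.d (ζ i) (ζ j)
  s3 : lam * m.d (ζ 0) (ζ p) ≤ q
  s3' : lam * m.d (ζ q) (ζ N) ≤ N - q
  s4 : ∀ i j, 0 ≤ i → i < l0 → i ≤ j → j ≤ N →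
    (j - i ≤ K * m.d (ζ i) (ζ j)) ∨
    (8 * j ≤ 8 * p - (p - q) ∧ m.d (ζ i) (ζ p) ≤ m.d (ζ i) (ζ j)) ∨
    (8 * p - (p - q) ≤ 8 * j ∧ j ≤ r0) ∨
    (r0 ≤ j ∧ lam * (m.d (ζ i) (ζ p) + m.d (ζ q) (ζ j) - m.d (ζ i) (ζ j)) ≤ p - q)
  s5 : ∀ i j, l0 ≤ i → i ≤ j → r1 < j → j ≤ N →
    (j - i ≤ K * m.d (ζ i) (ζ j)) ∨
    (8 * q + (p - q) ≤ 8 * i ∧ m.d (ζ q) (ζ j) ≤ m.d (ζ i) (ζ j)) ∨
    (l1 ≤ i ∧ 8 * i ≤ 8 * q + (p - q)) ∨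
    (i ≤ l1 ∧ 3 * (q - i) < lam * (m.d (ζ i) (ζ j) - m.d (ζ q) (ζ j)))

/-- The output of the selection argument: two crossing pairs `(u0, e1)`, `(s2, u1)` which are
almost tight for the functional `F i j = 3 (j - i) - lam * d (ζ i) (ζ j)`. -/
structure Tight (m : GMet X) (K lam a1 : ℤ) (ζ : ℤ → X)
    (u0 l0 l1 s2 e1 r0 r1 u1 : ℤ) : Prop where
  path : ∀ i, u0 ≤ i → i < u1 → m.d (ζ i) (ζ (i + 1)) = 1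
  h0 : u0 < l0
  h1 : l0 ≤ l1
  h2 : l1 ≤ s2
  h3 : s2 < e1
  ha : a1 ≤ e1 - s2
  h4 : e1 ≤ r0
  h5 : r0 ≤ r1
  h6 : r1 < u1
  m1 : e1 - s2 ≤ K * (l1 - l0)
  m2 : e1 - s2 ≤ K * (r1 - r0)
  /-- bi-Lipschitz zone -/
  s1 : ∀ i j, l0 ≤ i → i ≤ j → j ≤ r1 → j - i ≤ K * m.d (ζ i) (ζ j)
  /-- interior pairs are feasible -/
  f1 : ∀ i j, u0 < i → i ≤ j → j < u1 → 3 * (j - i) - lam * m.d (ζ i) (ζ j) ≤ 0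
  /-- `e1` maximises `F u0 ·` -/
  f2 : ∀ j, u0 ≤ j → j < u1 → 3 * (j - u0) - lam * m.d (ζ u0) (ζ j) ≤
    3 * (e1 - u0) - lam * m.d (ζ u0) (ζ e1)
  f2a : 1 ≤ 3 * (e1 - u0) - lam * m.d (ζ u0) (ζ e1)
  f2b : 3 * (e1 - u0) - lam * m.d (ζ u0) (ζ e1) ≤ lam + 3
  /-- `s2` maximises `F · u1` among `i ≥ l0` -/
  f3 : ∀ i, l0 ≤ i → i ≤ u1 → 3 * (u1 - i) - lam * m.d (ζ i) (ζ u1) ≤
    3 * (u1 - s2) - lam * m.d (ζ s2) (ζ u1)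
  f3a : 1 ≤ 3 * (u1 - s2) - lam * m.d (ζ s2) (ζ u1)
  f3b : 3 * (u1 - s2) - lam * m.d (ζ s2) (ζ u1) ≤ lam + 3
  f4 : ∀ i, u0 < i → i ≤ u1 → 3 * (u1 - i) - lam * m.d (ζ i) (ζ u1) ≤ lam + 3
  f5 : 3 * (u1 - u0) - lam * m.d (ζ u0) (ζ u1) ≤ 2 * lam + 6

end Pool.Agent.H.MP_21aec1_al.Hy
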