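import Pool.Agent.H.MP_21aec1_al.Hy.Gate
import Pool.Agent.H.MP_21aec1_al.Hy.Pincer

set_option autoImplicit false

namespace Pool.Agent.H.MP_21aec1_al.Hy

namespace GMet

variable {X : Type} {m : GMet X}

private theorem slim_noDet {r0 : ℤ}
    (nd : ∀ (σ : ℤ → X) (A B : ℤ), m.Geo σ A B → ∀ k ρ, r0 ≤ ρ →
      ¬ m.Detour (10 ^ 5) σ A B k ρ) {σ : ℤ → X} {A B : ℤ} (h : m.Geo σ A B) (P Q r1 : ℤ) :
    m.NoDet (10 ^ 5) σ A B P Q r0 r1 := fun k ρ _ _ hρ _ => nd σ A B h k ρ hρ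

private theorem slim_shift {σ : ℤ → X} {A B : ℤ} (h : m.Geo σ A B) (a : ℤ) :
    m.Geo (fun i => σ (a + i)) (A - a) (B - a) := by
  intro i j hi hij hj
  have h1 := h (a + i) (a + j) (by omega) (by omega) (by omega)
  simp only
  rw [h1]
  omega

/-- The reversal of a geodesic. -/
private theorem slim_rev {f : ℤ → X} {x y : X} (hf : m.IsGeo f x y) :
    m.IsGeo (fun i => f (m.d x y - i)) y x := by
  obtain ⟨h0, h1, h2⟩ := hf
  refine ⟨?_, ?_, ?_⟩
  · simp only [sub_zero]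
    exact h1
  · simp only
    rw [m.symm y x, sub_self]
    exact h0
  · intro i j hi hij hj
    rw [m.symm y x] at hj
    have := h2 (m.d x y - j) (m.d x y - i) (by omega) (by omega) (by omega)
    simp only
    rw [m.symm, this]
    omega

/-- The core of the argument: two rays diverging from `σ` and meeting at the end. -/
private theorem slim_core {r0 : ℤ} (hr0 : 1 ≤ r0)
    (nd : ∀ (σ : ℤ → X) (A B : ℤ), m.Geo σ A B → ∀ k ρ, r0 ≤ ρ →
      ¬ m.Detour (10 ^ 5) σ A B k ρ)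
    {σ G F : ℤ → X} {L kx ky A1 A2 H B : ℤ} (hH : H = 2 * (10 ^ 5 * r0))
    (hσ : m.Geo σ 0 L) (hG : m.Geo G 0 A1) (hF : m.Geo F 0 A2) (hA1 : 0 ≤ A1) (hA2 : 0 ≤ A2)
    (hz : G A1 = F A2) (hkx : 0 ≤ kx) (hky : ky ≤ L) (hB : B = ky - kx) (hBH : 5000 * H < B)
    (hG0 : m.d (G 0) (σ kx) ≤ H) (hF0 : m.d (F 0) (σ ky) ≤ H)
    (dG : ∀ n v, 0 ≤ n → n ≤ A1 → 0 ≤ v → v ≤ L → n ≤ 32 * m.d (G n) (σ v))
    (dF : ∀ n v, 0 ≤ n → n ≤ A2 → 0 ≤ v → v ≤ L → n ≤ 32 * m.d (F n) (σ v)) : False := by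
  classical
  -- the smallest `n` such that `F n` is within `H` of `G`
  have hex : ∃ n : ℕ, (n : ℤ) ≤ A2 ∧ m.Nr G 0 A1 H (F n) := by
    refine ⟨A2.toNat, by omega, A1, hA1, le_refl _, ?_⟩
    rw [show ((A2.toNat : ℕ) : ℤ) = A2 by omega, ← hz, m.self]
    omega
  obtain ⟨hmw, nw, hnw, hnw', hFG⟩ := Nat.find_spec hex
  have hmin : ∀ n : ℕ, n < Nat.find hex → ¬ ((n : ℤ) ≤ A2 ∧ m.Nr G 0 A1 H (F n)) :=
    fun n hn => Nat.find_min hex hn
  generalize hM : Nat.find hex = M at hmw hFG hmin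
  obtain ⟨mw, hmwM⟩ : ∃ mw : ℤ, mw = (M : ℤ) := ⟨_, rfl⟩
  rw [← hmwM] at hmw hFG
  have hmw0 : 0 ≤ mw := by omega
  have hmin' : ∀ n : ℤ, 0 ≤ n → n < mw → ¬ m.Nr G 0 A1 H (F n) := by
    intro n hn hn' hN
    refine hmin n.toNat (by omega) ⟨by omega, ?_⟩
    rwa [show ((n.toNat : ℕ) : ℤ) = n by omega]
  -- divergence from `G`
  have hdiv : ∀ j c, 0 ≤ j → j ≤ mw → 0 ≤ c → c ≤ A1 → j ≤ 32 * m.d (F (mw - j)) (G c) := by
    intro j c hj hj' hc hc'
    have hγ : m.Geo (fun i => F (mw - i)) 0 mw := by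
      intro a b ha hab hb
      have := hF (mw - b) (mw - a) (by omega) (by omega) (by omega)
      simp only
      rw [m.symm, this]
      omega
    have h1 := diverge (m := m) (K := 1) (C := 10 ^ 5) (r0 := r0) (r1 := 2 * j) (A := 0)
      (B := A1) (P := 0) (Q := A1) (σ := G) (γ := fun i => F (mw - i)) (s := 0) (t := j)
      (le_refl _) (by norm_num) hr0 hG (slim_noDet nd hG _ _ _) hj
      ((hγ.mono (le_refl _) hj').biLip (le_refl _)) (by omega)
      (fun v hv hv' _ => ⟨hv, hv'⟩) ?_ ?_ hc hc'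
    · simp only [one_mul] at h1
      omega
    · simp only [sub_zero]
      refine ⟨nw, hnw, hnw', ?_⟩
      omega
    · intro i hi hi' hN
      refine hmin' (mw - i) (by omega) (by omega) ?_
      rw [hH]
      exact hN
  have hB0 : m.d (σ kx) (σ ky) = B := by
    rw [hσ kx ky hkx (by omega) hky]
    omega
  have hGnw : m.d (G 0) (G nw) = nw := by
    rw [hG 0 nw (le_refl _) hnw hnw']
    omega
  have hFmw : m.d (F 0) (F mw) = mw := by
    rw [hF 0 mw (le_refl _) hmw0 hmw]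
    omega
  have t1 := m.tri (G 0) (σ kx) (σ ky)
  have t2 := m.tri (G 0) (σ ky) (F 0)
  have s1 := m.symm (F 0) (σ ky)
  have t3 := m.tri (G 0) (F 0) (F mw)
  have t4 := m.tri (G 0) (F mw) (G nw)
  have t5 := m.tri (F 0) (G 0) (G nw)
  have t6 := m.tri (F 0) (G nw) (F mw)
  have s2 := m.symm (F 0) (G 0)
  have s3 := m.symm (F mw) (G nw)
  have hdiff1 : nw ≤ mw + B + 3 * H := by omega
  have hdiff2 : mw ≤ nw + B + 3 * H := by omega
  have hH0 : 0 ≤ H := by omega
  by_cases hcase : nw ≤ 20 * B ∧ mw ≤ 20 * B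
  · -- Case I
    refine pincer (m := m) (C := 10 ^ 5) (r0 := r0) (r1 := B) (A := 0) (B := L) (P := 0)
      (Q := L) (E := H) (Y := B) (τ := σ) (le_refl _) hr0 hσ (slim_noDet nd hσ _ _ _)
      (y := kx) (h := ky) ?_ hkx (by omega) (by omega) hky hkx (by omega) (by omega) hky
      hH0 (by omega) (by omega) (by omega) (f := G) (g := F) (n1 := nw) (n2 := mw) hnw hmw0
      (hG.mono (le_refl _) hnw').isPath (hF.mono (le_refl _) hmw).isPath (by omega) hG0 hF0
      (by omega) ?_ ?_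
    · rw [abs_of_nonpos (by omega)]
      omega
    · intro j c hj hj' hc hc'
      left
      have := dG j c hj (by omega) hc hc'
      omega
    · intro j c hj hj' hc hc'
      left
      have := dF j c hj (by omega) hc hc'
      omega
  · -- Case II
    have h18 : 18 * B ≤ nw := by omega
    refine pincer (m := m) (C := 10 ^ 5) (r0 := r0) (r1 := nw) (A := 0) (B := A1) (P := 0)
      (Q := A1) (E := H) (Y := nw) (τ := G) (le_refl _) hr0 hG (slim_noDet nd hG _ _ _)
      (y := nw) (h := 0) ?_ hnw hnw' (le_refl _) hA1 hnw hnw' (le_refl _) hA1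
      hH0 (by omega) (by omega) (by omega) (f := fun j => F (mw - j))
      (g := fun j => σ (kx + j)) (n1 := mw) (n2 := B) hmw0 (by omega) ?_ ?_ (by omega) ?_ ?_
      ?_ ?_ ?_
    · rw [sub_zero, abs_of_nonneg (by omega)]
    · intro i hi hi'
      have := hF (mw - (i + 1)) (mw - i) (by omega) (by omega) (by omega)
      simp only
      rw [m.symm, this]
      omega
    · intro i hi hi'
      have := hσ (kx + i) (kx + (i + 1)) (by omega) (by omega) (by omega)
      simp only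
      rw [this]
      omega
    · simp only [sub_zero]
      exact hFG
    · simp only [add_zero]
      rw [m.symm]
      exact hG0
    · simp only [sub_self]
      rw [show kx + B = ky by omega]
      exact hF0
    · intro j c hj hj' hc hc'
      left
      have := hdiv j c hj hj' hc hc'
      omega
    · intro j c hj hj' hc hc'
      right
      omega

/-- NO DETOURS IMPLY SLIM TRIANGLES (`δ = 10^4 H`, `H = 2*(10^5*r0)`, generous).

Proof. Triangle `f` from `x` to `y` (call it `σ`), `g` from `x` to `z`, `h` from `y` to `z`.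
Apply `gate` to `(σ, g)`: `n0`, `kx`; and to the reversed side (`σ' i = σ (d x y - i)` from `y` to
`x`) and `h`: `n0'`, `ky` (in `σ`-coordinates `ky = d x y - k'`).  Points `σ v` with `v ≤ kx` are
near `g`, with `v ≥ ky` near `h`. If `ky - kx ≤ 5000 H` all points are near `g` or `h`.
Suppose `B = ky - kx > 5000 H`. Put `G n = g (n0 + n)`, `0 ≤ n ≤ A1 = d x z - n0`;
`F n = h (n0' + n)`, `0 ≤ n ≤ A2`; both end at `z`, both diverge linearly (rate 1/32) from `σ`.
Let `mw` = the smallest `n` such that `F n` is within `H` of `G [0,A1]` (exists: `n = A2`), and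
`d(F mw, G nw) ≤ H`; for `n ≤ mw`: `mw - n ≤ 32 d(F n, G n')` for all `n'` (`diverge` applied to
the path `j ↦ F (mw - j)` and the geodesic `G`).  `d(G 0, F 0)` is between `B - 2H` and `B + 2H`,
so `|nw - mw| ≤ B + 3H`.
Case I: `nw, mw ≤ 20 B`: `pincer` with base `σ`, `y = kx`, `h = ky`, arms `G` on `[0,nw]`, `F` on
`[0,mw]`, `E = H`: False.
Case II: otherwise `nw, mw ≥ 18 B` and `mw ≤ 2 nw`...: `pincer` with base `G` on `[0,A1]`,
`y = nw`, `h = 0`, arms `j ↦ F (mw - j)` on `[0,mw]` and `j ↦ σ (kx + j)` on `[0,B]` (short arm: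
`10 B ≤ nw`), `E = H`: False. -/
theorem slim_of_nd {r0 : ℤ} (hr0 : 1 ≤ r0)
    (nd : ∀ (σ : ℤ → X) (A B : ℤ), m.Geo σ A B → ∀ k ρ, r0 ≤ ρ →
      ¬ m.Detour (10 ^ 5) σ A B k ρ) :
    m.Slim (10 ^ 4 * (2 * (10 ^ 5 * r0))) := by
  intro x y z f g h hf hg hh i hi hi'
  obtain ⟨n0, kx, hn0, hn0', hkx, hkx', hgk, hgd, hgn⟩ := gate hr0 nd hf hg
  obtain ⟨n1, k', hn1, hn1', hk', hk'', hhk, hhd, hhn⟩ := gate hr0 nd (slim_rev hf) hh
  rw [m.symm y x] at hk'' hhd
  obtain ⟨L, hL⟩ : ∃ L, L = m.d x y := ⟨_, rfl⟩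
  obtain ⟨H, hH⟩ : ∃ H : ℤ, H = 2 * (10 ^ 5 * r0) := ⟨_, rfl⟩
  rw [← hL] at hi' hkx' hgd hk'' hhk hhd hhn
  rw [← hH] at hgk hgn hhk hhn
  rw [← hH]
  have hH0 : 0 < H := by omega
  by_cases h1 : i ≤ kx
  · left
    obtain ⟨v, hv, hv', hv''⟩ := hgn i hi h1
    exact ⟨v, hv, hv', by omega⟩
  by_cases h2 : L - k' ≤ i
  · right
    obtain ⟨v, hv, hv', hv''⟩ := hhn (L - i) (by omega) (by omega)
    rw [show L - (L - i) = i by omega] at hv''
    exact ⟨v, hv, hv', by omega⟩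
  by_cases h3 : L - k' - kx ≤ 5000 * H
  · left
    refine ⟨n0, hn0, hn0', ?_⟩
    have t1 := m.tri (f i) (f kx) (g n0)
    have t2 := hf.2.2 kx i hkx (by omega) (by omega)
    rw [m.symm] at t2
    rw [m.symm] at hgk
    omega
  exfalso
  refine slim_core (m := m) hr0 nd (σ := f) (G := fun n => g (n0 + n)) (F := fun n => h (n1 + n))
    (L := L) (kx := kx) (ky := L - k') (A1 := m.d x z - n0) (A2 := m.d y z - n1) (H := H)
    (B := L - k' - kx) hH ?_ ?_ ?_ (by omega) (by omega) ?_ hkx (by omega) rfl (by omega) ?_ ?_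
    ?_ ?_
  · rw [hL]
    exact hf.2.2
  · exact (slim_shift hg.2.2 n0).mono (by omega) (le_refl _)
  · exact (slim_shift hh.2.2 n1).mono (by omega) (le_refl _)
  · rw [show n0 + (m.d x z - n0) = m.d x z by omega, show n1 + (m.d y z - n1) = m.d y z by omega,
      hg.2.1, hh.2.1]
  · simp only [add_zero]
    exact hgk
  · simp only [add_zero]
    exact hhk
  · intro n v hn hn' hv hv'
    have := hgd (n0 + n) v (by omega) (by omega) hv hv'
    omega
  · intro n v hn hn' hv hv'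
    have := hhd (n1 + n) (L - v) (by omega) (by omega) (by omega) (by omega)
    rw [show L - (L - v) = v by omega] at this
    omega

end GMet

end Pool.Agent.H.MP_21aec1_al.Hy
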