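import Pool.Agent.H.MP_21aec1_al.Zone

set_option autoImplicit false

namespace Pool.Agent.H.MP_21aec1_al.Hy

/-- The swap property of a language: every word can be cut at a (lowest common ancestor) node
below two given positions, with finitely many types, and words with cuts of the same type can be
crossed. -/
structure Swap {T : Type} (L : Language T) (ι : Type)
    (Ty : ι → List T → List T → List T → List T → Prop) : Prop where
  swap1 : ∀ r x u v y x' u' v' y', Ty r x u v y → Ty r x' u' v' y' → x ++ u ++ v' ++ y ∈ L
  swap2 : ∀ r x u v y x' u' v' y', Ty r x u v y → Ty r x' u' v' y' → x ++ u' ++ v ++ y ∈ L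
  exists_cut : ∀ w ∈ L, ∀ α β : ℕ, α + 2 ≤ β → β ≤ w.length → ∃ r x u v y,
    w = x ++ u ++ v ++ y ∧ Ty r x u v y ∧ x.length ≤ α ∧ α < x.length + u.length ∧
    x.length + u.length < β ∧ β ≤ x.length + u.length + v.length

private theorem sw_split {α β : Type} {R : α → List β → Prop} :
    ∀ (s : List α) (pcs : List (List β)), List.Forall₂ R s pcs → ∀ p : ℕ,
      p < pcs.flatten.length → ∃ (s1 : List α) (X : α) (s2 : List α) (L1 : List (List β))
        (pc : List β) (L2 : List (List β)), s = s1 ++ [X] ++ s2 ∧ pcs = L1 ++ [pc] ++ L2 ∧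
        List.Forall₂ R s1 L1 ∧ R X pc ∧ List.Forall₂ R s2 L2 ∧ L1.flatten.length ≤ p ∧
        p < L1.flatten.length + pc.length := by
  intro s pcs h
  induction h with
  | nil => intro p hp; simp at hp
  | @cons X pc s pcs hX hs ih =>
    intro p hp
    by_cases h1 : p < pc.length
    · exact ⟨[], X, s, [], pc, pcs, by simp, by simp, List.Forall₂.nil, hX, hs, by simp, by simpa using h1⟩
    · rw [List.flatten_cons, List.length_append] at hp
      obtain ⟨s1, Y, s2, L1, pc', L2, e1, e2, f1, f2, f3, l1, l2⟩ := ih (p - pc.length) (by omega)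
      refine ⟨X :: s1, Y, s2, pc :: L1, pc', L2, by rw [e1]; simp, by rw [e2]; simp,
        List.Forall₂.cons hX f1, f2, f3, ?_, ?_⟩
      · rw [List.flatten_cons, List.length_append]; omega
      · rw [List.flatten_cons, List.length_append]; omega

/-- the type of a cut -/
private def SwTy {T : Type} (g : ContextFreeGrammar T) (L : Language T)
    (i : Σ r : g.rules, Fin (r.1.output.length + 1)) (x u v y : List T) : Prop :=
  ∃ pu pv : List (List T), List.Forall₂ (Sy g) (i.1.1.output.take i.2.1) pu ∧ u = pu.flatten ∧
    List.Forall₂ (Sy g) (i.1.1.output.drop i.2.1) pv ∧ v = pv.flatten ∧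
    ∀ z, Der g i.1.1.input z → x ++ z ++ y ∈ L

private theorem sw_cross {T : Type} (g : ContextFreeGrammar T) (L : Language T)
    (i : Σ r : g.rules, Fin (r.1.output.length + 1)) {x u v y x' u' v' y' : List T}
    (h : SwTy g L i x u v y) (h' : SwTy g L i x' u' v' y') :
    x ++ u ++ v' ++ y ∈ L ∧ x ++ u' ++ v ++ y ∈ L := by
  obtain ⟨pu, pv, a1, a2, a3, a4, a5⟩ := h
  obtain ⟨pu', pv', b1, b2, b3, b4, b5⟩ := h'
  constructor
  · have h1 := forall₂_join a1 b3
    rw [List.take_append_drop] at h1
    have h2 := a5 _ (der_of_rule g i.1.2 h1)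
    rw [List.flatten_append, ← a2, ← b4] at h2
    simpa [List.append_assoc] using h2
  · have h1 := forall₂_join b1 a3
    rw [List.take_append_drop] at h1
    have h2 := a5 _ (der_of_rule g i.1.2 h1)
    rw [List.flatten_append, ← b2, ← a4] at h2
    simpa [List.append_assoc] using h2

private theorem sw_cut {T : Type} (g : ContextFreeGrammar T) (L : Language T) {α β : ℕ}
    (hαβ : α + 2 ≤ β) : ∀ (n : ℕ) (A : g.NT) (w : List T), DerN g n A w → ∀ x0 y0 : List T,
    (∀ z, Der g A z → x0 ++ z ++ y0 ∈ L) → x0.length ≤ α → β ≤ x0.length + w.length →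
    ∃ (r : Σ r : g.rules, Fin (r.1.output.length + 1)) (x u v y : List T),
      x0 ++ w ++ y0 = x ++ u ++ v ++ y ∧ SwTy g L r x u v y ∧ x.length ≤ α ∧
      α < x.length + u.length ∧
      x.length + u.length < β ∧ β ≤ x.length + u.length + v.length := by
  intro n
  induction n with
  | zero => intro A w h; exact h.elim
  | succ n ih =>
    intro A w h x0 y0 hctx hx0 hβ
    rw [DerN_succ] at h
    obtain ⟨r, hr, hi, pcs, hp, hw⟩ := h
    subst hi
    obtain ⟨s1, X, s2, L1, pc, L2, e1, e2, f1, f2, f3, l1, l2⟩ :=
      sw_split r.output pcs hp (α - x0.length) (by rw [← hw]; omega)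
    have g1 : List.Forall₂ (Sy g) s1 L1 := f1.imp fun _ _ h => ⟨n, h⟩
    have g3 : List.Forall₂ (Sy g) s2 L2 := f3.imp fun _ _ h => ⟨n, h⟩
    have hwl : w.length = L1.flatten.length + pc.length + L2.flatten.length := by
      rw [hw, e2]; simp; omega
    by_cases hend : β ≤ x0.length + L1.flatten.length + pc.length
    · cases X with
      | terminal a =>
        have : pc = [a] := f2
        rw [this] at l2 hend
        simp only [List.length_singleton] at l2 hend
        omega
      | nonterminal B =>
        have hB : DerN g n B pc := f2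
        have hctx' : ∀ z, Der g B z → (x0 ++ L1.flatten) ++ z ++ (L2.flatten ++ y0) ∈ L := by
          intro z hz
          have h1 : List.Forall₂ (Sy g) (s1 ++ [Symbol.nonterminal B] ++ s2) (L1 ++ [z] ++ L2) := by
            refine forall₂_join (forall₂_join g1 ?_) g3
            obtain ⟨k, hk⟩ := hz
            exact List.Forall₂.cons ⟨k, hk⟩ List.Forall₂.nil
          rw [← e1] at h1
          have h2 := hctx _ (der_of_rule g hr h1)
          simpa [List.append_assoc] using h2
        obtain ⟨r', x, u, v, y, k1, k2, k3, k4, k5, k6⟩ := ih B pc hB (x0 ++ L1.flatten)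
          (L2.flatten ++ y0) hctx' (by rw [List.length_append]; omega)
          (by rw [List.length_append]; omega)
        refine ⟨r', x, u, v, y, ?_, k2, k3, k4, k5, k6⟩
        rw [← k1, hw, e2]
        simp [List.append_assoc]
    · push Not at hend
      have hlen : s1.length + 1 < r.output.length + 1 := by
        rw [e1]; simp
      refine ⟨⟨⟨r, hr⟩, ⟨s1.length + 1, hlen⟩⟩, x0, (L1 ++ [pc]).flatten, L2.flatten, y0,
        ?_, ⟨L1 ++ [pc], L2, ?_, rfl, ?_, rfl, ?_⟩, hx0, ?_, ?_, ?_⟩
      · rw [hw, e2]
        simp [List.append_assoc]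
      · have h1 : List.take (s1.length + 1) r.output = s1 ++ [X] := by
          rw [e1, List.take_left']
          simp
        show List.Forall₂ (Sy g) (List.take (s1.length + 1) r.output) (L1 ++ [pc])
        rw [h1]
        exact forall₂_join g1 (List.Forall₂.cons ⟨n, f2⟩ List.Forall₂.nil)
      · have h1 : List.drop (s1.length + 1) r.output = s2 := by
          rw [e1, List.drop_left']
          simp
        show List.Forall₂ (Sy g) (List.drop (s1.length + 1) r.output) L2
        rw [h1]
        exact g3
      · exact hctx
      · rw [List.flatten_append, List.length_append]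
        simp only [List.flatten_cons, List.flatten_nil, List.append_nil]
        omega
      · rw [List.flatten_append, List.length_append]
        simp only [List.flatten_cons, List.flatten_nil, List.append_nil]
        omega
      · rw [List.flatten_append, List.length_append]
        simp only [List.flatten_cons, List.flatten_nil, List.append_nil]
        omega

/-- Context-free languages have the swap property.

Proof. Grammar `g`, `g.language = L`. Take `ι = Σ r : g.rules, Fin (r.output.length + 1)`
(pairs: rule `A → X_1 … X_n`, split index `i`), and `Ty (r,i) x u v y` :=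
`r.output = P ++ Q` with `P.length = i`, there are lists of pieces `pu`, `pv` with
`List.Forall₂ (Sy g) P pu`, `u = pu.flatten`, `List.Forall₂ (Sy g) Q pv`, `v = pv.flatten`, and
`x _ y` is a context of `A`: for every `z` with `Der g r.input z` one has `x ++ z ++ y ∈ L`
(`Der`, `Sy`, `der_of_rule`, `der_of_mem`, `mem_of_der`, `forall₂_split` are in Zone.lean).
swap1/swap2: `Forall₂ (Sy g) (P ++ Q) (pu ++ pv')`, so `u ++ v'` is derived from `A`
(`der_of_rule`), and the context of `(x,y)` applies (same rule and same split index give the same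
`P`, `Q`).
exists_cut: prove by induction on the height `n`: if `DerN g n A w'`, `x0 ++ w' ++ y0 = w`, the
context `(x0,y0)` of `A` is good (every `z` derived from `A` gives `x0 ++ z ++ y0 ∈ L`),
`x0.length ≤ α`, `β ≤ x0.length + w'.length`, `α + 2 ≤ β`, then the cut exists.  Let
`A → X_1…X_k` be the top rule, `w' = w_1 … w_k` the pieces.  Let `X_i` be the symbol whose piece
contains the letter at position `α` (position `α` to `α+1`).  If this piece ends at a position
`≥ β` then `X_i` is a nonterminal (its piece has length ≥ 2) and recurse (the new context is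
`x0 ++ w_1…w_{i-1}`, `w_{i+1}…w_k ++ y0`). Otherwise cut after `X_i`: `x = x0`,
`u = w_1…w_i`, `v = w_{i+1}…w_k`, `y = y0`. -/
theorem swap_of_contextFree {T : Type} {L : Language T} (h : L.IsContextFree) :
    ∃ (ι : Type) (_ : Fintype ι) (Ty : ι → List T → List T → List T → List T → Prop),
      Swap L ι Ty := by
  obtain ⟨g, hg⟩ := h
  refine ⟨Σ r : g.rules, Fin (r.1.output.length + 1), inferInstance, SwTy g L, ?_, ?_, ?_⟩
  · intro r x u v y x' u' v' y' h h'
    exact (sw_cross g L r h h').1
  · intro r x u v y x' u' v' y' h h'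
    exact (sw_cross g L r h h').2
  · intro w hw α β hαβ hβ
    rw [← hg] at hw
    obtain ⟨n, hn⟩ := der_of_mem g hw
    obtain ⟨r, x, u, v, y, k1, k2, k3, k4, k5, k6⟩ := sw_cut g L hαβ n g.initial w hn [] []
      (fun z hz => by
        have := mem_of_der g hz
        rw [hg] at this
        simpa using this) (by simp) (by simpa using hβ)
    exact ⟨r, x, u, v, y, by simpa using k1, k2, k3, k4, k5, k6⟩

end Pool.Agent.H.MP_21aec1_al.Hy
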