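import Pool.Agent.H.MP_21aec1_al.Hy.SDef

set_option autoImplicit false

namespace Pool.Agent.H.MP_21aec1_al.Hy

variable {X : Type}

/-- Two loops: a big loop `C` (period `ℓ`, geodesic on `[-R,R]`) and a small loop `γ`
(period `ℓ'`), which run close together between the hubs `Q` (`γ tL ≈ C kQ`) and
`P` (`γ tR ≈ C kP`), with `γ 0 = C 0`. -/
structure TL (m : GMet X) (H R ℓ ℓ' : ℤ) (C γ : ℤ → X) (tL tR kQ kP : ℤ) : Prop where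
  cycC : m.Cyc (10 ^ 25) C ℓ
  geoC : m.Geo C (-R) R
  lR : ℓ ≤ 10 ^ 75 * R
  lR' : 2 * R ≤ ℓ
  Rl : 10 ^ 30 * ℓ' ≤ R
  cycg : m.Cyc (10 ^ 25) γ ℓ'
  tL0 : tL ≤ 0
  kQ0 : kQ ≤ 0
  kP0 : 0 ≤ kP
  kQl : -ℓ' ≤ kQ
  kPl : kP ≤ ℓ'
  g0 : γ 0 = C 0
  hP : m.d (C kP) (γ tR) ≤ H
  hQ : m.d (C kQ) (γ tL) ≤ H
  H0 : 0 ≤ H
  half : 2 * (tR - tL) ≤ ℓ'
  big : 10 ^ 130 * (H + 1) ≤ tR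
  al : tR - kQ ≤ ℓ'
  /-- the small loop diverges from the big one outside `[tL,tR]` -/
  DV : ∀ v n, -R ≤ v → v ≤ R → 0 ≤ n → n ≤ ℓ' - tR + tL →
    min n (ℓ' - tR + tL - n) ≤ 10 ^ 25 * m.d (C v) (γ (tR + n))
  NR1 : ∀ v t, -R ≤ v → v ≤ 0 → 0 ≤ t → t ≤ tR → t - v ≤ 10 ^ 25 * m.d (C v) (γ t)
  NR2 : ∀ v t, kP ≤ v → v ≤ R → 0 ≤ t → t ≤ tR →
    10 ^ 25 * (v - kP) + (tR - t) ≤ 10 ^ 25 * m.d (C v) (γ t) + 10 ^ 50 * (H + 1)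
  F1 : ∀ v x, kP ≤ v → v ≤ R → 0 ≤ x → 10 ^ 95 * x ≤ ℓ' →
    (v - kP) + m.d (C kQ) (γ (tL - x)) ≤ m.d (C v) (γ (tL - x))
  F2 : ∀ y x, tR - kQ ≤ 8 * y → y ≤ ℓ' → 0 ≤ x → 10 ^ 95 * x ≤ ℓ' →
    2 * m.d (C kQ) (γ (tL - x)) + y ≤ 2 * m.d (C (kQ - y)) (γ (tL - x))
  F3 : ∀ y x, tR - kQ ≤ 8 * y → kQ + y ≤ 0 → 0 ≤ x → 10 ^ 95 * x ≤ ℓ' →
    m.d (C kQ) (γ (tL - x)) ≤ m.d (C (kQ + y)) (γ (tL - x))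
  GS : ∀ t x, 0 ≤ t → 10 ^ 95 * (t - tR) ≤ ℓ' → tR - kQ ≤ 8 * (t - kQ) → 0 ≤ x →
    10 ^ 95 * x ≤ ℓ' → m.d (C kQ) (γ (tL - x)) ≤ m.d (γ t) (γ (tL - x))

end Pool.Agent.H.MP_21aec1_al.Hy
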