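import Pool.Agent.H.MP_21aec1_al.Hy.TLDef

set_option autoImplicit false

namespace Pool.Agent.H.MP_21aec1_al.Hy

variable {X : Type} {m : GMet X}

/-- The path `ζ`: along the big loop from `C kP` to the right all the way around to `C 0`, then
along `γ` from `γ 0 = C 0` to `γ (tL + ℓ')`. -/
def zet (C γ : ℤ → X) (kP ℓ : ℤ) (i : ℤ) : X :=
  if i ≤ ℓ - kP then C (kP + i) else γ (i - (ℓ - kP))

section

variable {H R ℓ ℓ' : ℤ} {C γ : ℤ → X} {tL tR kQ kP : ℤ}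

/-- on the big loop, positive index -/
theorem zet_big {i : ℤ} (hi : i ≤ ℓ - kP) : zet C γ kP ℓ i = C (kP + i) := if_pos hi

/-- on the big loop, index shifted by the period (used near `Q`) -/
theorem zet_neg (h : TL m H R ℓ ℓ' C γ tL tR kQ kP) {i : ℤ} (hi : i ≤ ℓ - kP) :
    zet C γ kP ℓ i = C (kP + i - ℓ) := by
  rw [zet_big hi, h.cycC.periodic]

/-- `ζ (q + y) = C (kQ + y)` for `kQ + y ≤ 0` -/
theorem zet_q (h : TL m H R ℓ ℓ' C γ tL tR kQ kP) {v : ℤ} (hv : v ≤ 0) :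
    zet C γ kP ℓ (ℓ - kP + v) = C v := by
  rw [zet_neg h (by omega)]
  congr 1
  omega

/-- on the small loop -/
theorem zet_small (h : TL m H R ℓ ℓ' C γ tL tR kQ kP) {t : ℤ} (ht : 0 ≤ t) :
    zet C γ kP ℓ (ℓ - kP + t) = γ t := by
  by_cases h0 : t = 0
  · subst h0
    rw [zet_q h (le_refl _), h.g0]
  · rw [zet, if_neg (by omega)]
    congr 1
    omega

/-- near the end -/
theorem zet_end (h : TL m H R ℓ ℓ' C γ tL tR kQ kP) {x : ℤ} (hx : x ≤ ℓ' + tL) :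
    zet C γ kP ℓ (ℓ - kP + ℓ' + tL - x) = γ (tL - x) := by
  rw [show ℓ - kP + ℓ' + tL - x = ℓ - kP + (ℓ' + tL - x) by omega, zet_small h (by omega)]
  have := h.cycg.1 (tL - x)
  rw [← this]
  congr 1
  omega

/-- basic sizes -/
theorem TL.sizes (h : TL m H R ℓ ℓ' C γ tL tR kQ kP) :
    10 ^ 130 * (H + 1) ≤ ℓ' ∧ H ≤ kP ∧ 10 ^ 160 ≤ R ∧ ℓ' ≤ 2 * (ℓ' - tR + tL) ∧
      m.d (C 0) (γ tR) ≤ kP + H ∧ 8 ≤ tR - kQ := by
  have h1 := h.big
  have h2 := h.al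
  have h3 := h.kQ0
  have h4 := h.Rl
  have h5 := h.H0
  have h6 := h.half
  have h7 := h.NR1 0 tR (by omega) (le_refl _) (by omega) (le_refl _)
  have h8 := h.geoC 0 kP (by omega) h.kP0 (by have := h.kPl; omega)
  have h9 := m.tri (C 0) (C kP) (γ tR)
  have h10 := h.hP
  refine ⟨by omega, by omega, by omega, by omega, by omega, by omega⟩

end

end Pool.Agent.H.MP_21aec1_al.Hy
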