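import Pool.Agent.H.MP_21aec1_al.Hy.TLS0

set_option autoImplicit false

namespace Pool.Agent.H.MP_21aec1_al.Hy

variable {X : Type} {m : GMet X} {H R ℓ ℓ' : ℤ} {C γ : ℤ → X} {tL tR kQ kP : ℤ}

private theorem cyc_one {K : ℤ} {c : ℤ → X} {p : ℤ} (h : m.Cyc K c p) (hp : 2 ≤ p) (i : ℤ) :
    m.d (c i) (c (i + 1)) = 1 := by
  have h1 := h.2.1 i
  have h2 := h.2.2 i (i + 1) (by omega) (by omega)
  have h3 := m.nonneg (c i) (c (i + 1))
  rw [show i + 1 - i = 1 by omega, show i + p - (i + 1) = p - 1 by omega,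
    min_eq_left (by omega)] at h2
  by_contra h4
  have h5 : m.d (c i) (c (i + 1)) = 0 := by omega
  rw [h5] at h2
  omega

/-- The path `ζ` has consecutive distances exactly 1: on each loop `d ≤ 1` and
`min 1 (ℓ - 1) ≤ 10^25 d` gives `d ≥ 1`. -/
theorem tls_path (h : TL m H R ℓ ℓ' C γ tL tR kQ kP) :
    ∀ i, 0 ≤ i → i < ℓ - kP + ℓ' + tL →
      m.d (zet C γ kP ℓ i) (zet C γ kP ℓ (i + 1)) = 1 := by
  intro i hi hi'
  obtain ⟨s1, s2, s3, s4, s5, s6⟩ := h.sizes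
  have h0 := h.H0
  have hR := h.lR'
  by_cases h1 : i + 1 ≤ ℓ - kP
  · rw [zet_big (by omega), zet_big h1, show kP + (i + 1) = kP + i + 1 by omega]
    exact cyc_one h.cycC (by omega) _
  · obtain ⟨t, rfl⟩ : ∃ t, i = ℓ - kP + t := ⟨i - (ℓ - kP), by omega⟩
    rw [zet_small h (by omega), show ℓ - kP + t + 1 = ℓ - kP + (t + 1) by omega,
      zet_small h (by omega)]
    exact cyc_one h.cycg (by omega) _

end Pool.Agent.H.MP_21aec1_al.Hy
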