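import Pool.Agent.H.MP_21aec1_al.Hy.Base

set_option autoImplicit false

namespace Pool.Agent.H.MP_21aec1_al.Hy

variable {G : Type} [Group G]

theorem mem_cl {S : Finset G} (hS : SymmGenerates S ⊤) (g : G) :
    g ∈ Subgroup.closure (S : Set G) := by rw [hS.2]; trivial

/-- The word metric as a `GMet`. -/
noncomputable def wordMet (S : Finset G) (hS : SymmGenerates S ⊤) : GMet G where
  d x y := (wordLength S (x⁻¹ * y) : ℤ)
  nonneg x y := Int.natCast_nonneg _
  self x := by simp [wordLength_one]
  eq_of x y h := by
    have h1 : wordLength S (x⁻¹ * y) = 0 := by exact_mod_cast h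
    have h2 := eq_one_of_wordLength hS.1 (mem_cl hS _) h1
    exact inv_mul_eq_one.1 h2
  symm x y := by
    have h := wordLength_inv hS.1 (mem_cl hS (x⁻¹ * y))
    rw [mul_inv_rev, inv_inv] at h
    rw [h]
  tri x y z := by
    have h := wordLength_mul hS.1 (mem_cl hS (x⁻¹ * y)) (mem_cl hS (y⁻¹ * z))
    have h2 : x⁻¹ * y * (y⁻¹ * z) = x⁻¹ * z := by group
    rw [h2] at h
    exact_mod_cast h
  geo x y := by
    obtain ⟨w, hw, hl⟩ := exists_geodesic hS.1 (mem_cl hS (x⁻¹ * y))
    refine ⟨fun i => x * ev S (w.take i.toNat), by simp [ev_nil], ?_, ?_⟩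
    · simp only [Int.toNat_natCast]
      rw [← hl, List.take_length, hw]
      group
    · intro i j hi hij hj
      obtain ⟨i, rfl⟩ := Int.eq_ofNat_of_zero_le hi
      obtain ⟨j, rfl⟩ := Int.eq_ofNat_of_zero_le (hi.trans hij)
      simp only [Int.toNat_natCast]
      have hij' : i ≤ j := by exact_mod_cast hij
      have hj' : j ≤ wordLength S (x⁻¹ * y) := by exact_mod_cast hj
      have e1 : w.take j = w.take i ++ (w.take j).drop i := by
        conv_lhs => rw [← List.take_append_drop i (w.take j)]
        rw [List.take_take, min_eq_left hij']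
      have e3 : ev S (w.take j) = ev S (w.take i) * ev S ((w.take j).drop i) := by
        rw [← ev_append, ← e1]
      have e2 : (x * ev S (w.take i))⁻¹ * (x * ev S (w.take j)) =
          ev S ((w.take j).drop i) := by
        rw [e3]
        group
      rw [e2]
      have up : wordLength S (ev S ((w.take j).drop i)) ≤ j - i := by
        refine (wordLength_ev_le S _).trans ?_
        rw [List.length_drop, List.length_take]
        omega
      have hwd : ev S w = ev S (w.take i) * ev S ((w.take j).drop i) * ev S (w.drop j) := by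
        rw [← e3, ← ev_append, List.take_append_drop]
      have h1 := wordLength_mul hS.1 (mem_cl hS (ev S (w.take i) * ev S ((w.take j).drop i)))
        (mem_cl hS (ev S (w.drop j)))
      have h2 := wordLength_mul hS.1 (mem_cl hS (ev S (w.take i)))
        (mem_cl hS (ev S ((w.take j).drop i)))
      have h3 := wordLength_ev_le S (w.take i)
      have h4 := wordLength_ev_le S (w.drop j)
      rw [← hwd, hw] at h1
      rw [List.length_take] at h3
      rw [List.length_drop] at h4
      omega

variable {S : Finset G} {hS : SymmGenerates S ⊤}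

theorem wordMet_d (x y : G) : (wordMet S hS).d x y = (wordLength S (x⁻¹ * y) : ℤ) := rfl

/-- left invariance -/
theorem wordMet_inv (g x y : G) : (wordMet S hS).d (g * x) (g * y) = (wordMet S hS).d x y := by
  rw [wordMet_d, wordMet_d]
  congr 2
  group

/-- points at distance one differ by a generator -/
theorem mem_of_d_eq_one {x y : G} (h : (wordMet S hS).d x y = 1) : x⁻¹ * y ∈ S := by
  rw [wordMet_d] at h
  have h1 : wordLength S (x⁻¹ * y) = 1 := by exact_mod_cast h
  obtain ⟨w, hw, hl⟩ := exists_geodesic hS.1 (mem_cl hS (x⁻¹ * y))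
  rw [h1] at hl
  obtain ⟨a, rfl⟩ := List.length_eq_one_iff.1 hl
  rw [← hw]
  simp [ev]

end Pool.Agent.H.MP_21aec1_al.Hy
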