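import Pool.Agent.H.MP_21aec1_al.Hy.DFL
import Pool.Agent.H.MP_21aec1_al.Hy.WMet

set_option autoImplicit false

namespace Pool.Agent.H.MP_21aec1_al.Hy

variable {G : Type} [Group G]

/-- Left translates of `DFL` loops (`wordMet_inv`). -/
theorem DFL.translate {S : Finset G} {hS : SymmGenerates S ⊤} {r0 κ ℓ : ℤ} {c : ℤ → G}
    (h : DFL (wordMet S hS) r0 κ ℓ c) (g : G) :
    DFL (wordMet S hS) r0 κ ℓ (fun i => g * c i) := by
  refine ⟨h.r0pos, h.kbig, ?_, ?_, h.up, h.lo, ?_⟩
  · refine ⟨fun i => ?_, fun i => ?_, fun i j hij hj => ?_⟩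
    · simp only [h.cyc.1 i]
    · simp only [wordMet_inv]
      exact h.cyc.2.1 i
    · simp only [wordMet_inv]
      exact h.cyc.2.2 i j hij hj
  · intro i j hi hij hj
    simp only [wordMet_inv]
    exact h.geo i j hi hij hj
  · intro k ρ hk hk' hρ hρ' hd
    obtain ⟨i, j, n, hi, hi', hj, hj', hn, hn0, τ, h0, h1, hp, ha⟩ := hd
    refine h.nd k ρ hk hk' hρ hρ' ⟨i, j, n, hi, hi', hj, hj', hn, hn0, fun t => g⁻¹ * τ t,
      ?_, ?_, ?_, ?_⟩
    · simp only [h0]
      group
    · simp only [h1]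
      group
    · intro t ht ht'
      simp only [wordMet_inv]
      exact hp t ht ht'
    · intro t ht ht'
      have h2 := ha t ht ht'
      have h3 : (wordMet S hS).d (g⁻¹ * τ t) (c k) = (wordMet S hS).d (τ t) (g * c k) := by
        rw [← wordMet_inv (hS := hS) g (g⁻¹ * τ t) (c k)]
        congr 1
        group
      rw [h3]
      exact h2

end Pool.Agent.H.MP_21aec1_al.Hy
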