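import Pool.Agent.H.MP_21aec1_al.Hy.WMet
import Pool.Agent.H.MP_21aec1_al.Hy.FamDef
import Pool.Agent.H.MP_21aec1_al.Hy.Bounce

set_option autoImplicit false

namespace Pool.Agent.H.MP_21aec1_al.Hy

variable {G : Type} [Group G]

/-- telescoping of the start times of the blocks -/
private theorem wf_bT {F : FamPar} {w t : ℤ}
    (hb : ∀ e, 0 ≤ F.bnc w t e ∧ F.bnc w t e ≤ 2) (h0 : F.Del w t F.u0 = 0) (k : ℕ) :
    (bT (fun e => (F.bnc w t (F.u0 + 1 + e)).toNat) k : ℤ) = F.Tm w t (F.u0 + k) := by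
  induction k with
  | zero => simp [bT, FamPar.Tm, h0]
  | succ k ih =>
    have h1 : (bT (fun e => (F.bnc w t (F.u0 + 1 + e)).toNat) (k + 1) : ℤ) =
        bT (fun e => (F.bnc w t (F.u0 + 1 + e)).toNat) k +
          (1 + 2 * ((F.bnc w t (F.u0 + 1 + k)).toNat : ℤ)) := by
      simp only [bT]
      rw [Finset.sum_range_succ]
      push_cast
      ring
    rw [h1, ih, Int.toNat_of_nonneg (hb _).1]
    have h2 : F.u0 + 1 + (k : ℤ) = F.u0 + k + 1 := by ring
    have h3 : F.u0 + ((k + 1 : ℕ) : ℤ) = F.u0 + k + 1 := by push_cast; ring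
    rw [h2, h3]
    simp only [FamPar.Tm, FamPar.bnc]
    rw [show F.u0 + (k : ℤ) + 1 - 1 = F.u0 + k by ring]
    ring

private theorem wf_V {F : FamPar} {w t : ℤ}
    (hb : ∀ e, 0 ≤ F.bnc w t e ∧ F.bnc w t e ≤ 2) (h0 : F.Del w t F.u0 = 0) (i : ℕ) :
    (bV (fun e => (F.bnc w t (F.u0 + 1 + e)).toNat) i : ℤ) = F.V w t (F.u0 + i) := by
  simp only [bV, FamPar.V]
  rcases Nat.eq_zero_or_pos i with h | h
  · subst h; simp
  · rw [if_neg (by omega), if_neg (by omega)]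
    push_cast
    rw [wf_bT hb h0 (i - 1)]
    congr 2
    omega

private theorem wf_U {F : FamPar} {w t : ℤ}
    (hb : ∀ e, 0 ≤ F.bnc w t e ∧ F.bnc w t e ≤ 2) (h0 : F.Del w t F.u0 = 0) {n : ℕ}
    (hn : F.u0 + (n : ℤ) = F.u1) (i : ℕ) (hi : i ≤ n) :
    (bU (fun e => (F.bnc w t (F.u0 + 1 + e)).toNat) n i : ℤ) = F.U w t (F.u0 + i) := by
  simp only [bU, FamPar.U]
  by_cases h : i < n
  · rw [if_pos h, if_neg (by omega)]
    have h1 := wf_bT hb h0 (i + 1)
    have h2 := wf_bT hb h0 i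
    have h3 : (bT (fun e => (F.bnc w t (F.u0 + 1 + e)).toNat) (i + 1) : ℤ) =
        bT (fun e => (F.bnc w t (F.u0 + 1 + e)).toNat) i +
          (1 + 2 * ((F.bnc w t (F.u0 + 1 + i)).toNat : ℤ)) := by
      simp only [bT]
      rw [Finset.sum_range_succ]
      push_cast
      ring
    have h4 : F.u0 + (i : ℤ) + 1 = F.u0 + ((i + 1 : ℕ) : ℤ) := by push_cast; ring
    rw [h4, ← h1, h3]
    push_cast
    ring
  · rw [if_neg h, if_pos (by omega), wf_bT hb h0 n, hn]

private theorem wf_mono {F : FamPar} {w t : ℤ}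
    (hb : ∀ e, 0 ≤ F.bnc w t e ∧ F.bnc w t e ≤ 2) (i : ℤ) (k : ℕ) :
    F.Tm w t i + k ≤ F.Tm w t (i + k) := by
  induction k with
  | zero => simp
  | succ k ih =>
    have h1 := (hb (i + k + 1)).1
    simp only [FamPar.bnc] at h1
    rw [show i + (k : ℤ) + 1 - 1 = i + k by ring] at h1
    have h2 : F.Tm w t (i + ((k + 1 : ℕ) : ℤ)) =
        F.Tm w t (i + k) + (3 + 2 * (F.Del w t (i + k + 1) - F.Del w t (i + k))) := by
      simp only [FamPar.Tm]
      rw [show i + ((k + 1 : ℕ) : ℤ) = i + k + 1 by push_cast; ring]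
      ring
    rw [h2]
    push_cast
    omega

/-- THE WORD OF A BOUNCE PROFILE. Combination of `bounce` (path `P i = (ζ (u0 + i))`,
`n = u1 - u0`, `b e = (F.bnc w t (u0 + 1 + e)).toNat`) with the closed forms of `Family.lean`
(`bT b k = F.Tm w t (u0 + k)` by telescoping, since `Del w t u0 = 0`).  The word is in the
quasigeodesic language: a factor of `z` is `(z.take t').drop t` with `t ≤ t'`, its length is
`t' - t`, its value is `(ev (z.take t))⁻¹ * ev (z.take t') = (ζ i)⁻¹ * ζ j` where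
`V i ≤ t`, `t' ≤ U j`. If `i ≤ j` use the membership inequality of `family`; if `i > j` then
`t ≤ t'` forces `j = i - 1` and `t' - t ≤ 2 b - 1 ≤ 3`. -/
theorem word_of_family {S : Finset G} (hS : SymmGenerates S ⊤) {K : ℤ} (hK : 1 ≤ K)
    {ζ : ℤ → G} {F : FamPar} {w t : ℤ} (hu : F.u0 < F.u1)
    (hp : ∀ i, F.u0 ≤ i → i < F.u1 → (wordMet S hS).d (ζ i) (ζ (i + 1)) = 1)
    (hb : ∀ e, 0 ≤ F.bnc w t e ∧ F.bnc w t e ≤ 2) (h0 : F.Del w t F.u0 = 0)
    (hm : ∀ i j, F.u0 ≤ i → i ≤ j → j ≤ F.u1 →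
      F.U w t j - F.V w t i ≤ 5 * K * (wordMet S hS).d (ζ i) (ζ j) + (5 * K + 8)) :
    ∃ z : List S, z ∈ quasigeodesics S ((5 * K : ℤ) : ℝ) ((5 * K + 8 : ℤ) : ℝ) ∧
      (z.length : ℤ) = F.U w t F.u1 ∧
      (∀ n : ℕ, n ≤ z.length → ∃ i, F.u0 ≤ i ∧ i ≤ F.u1 ∧ F.V w t i ≤ n ∧
        (n : ℤ) ≤ F.U w t i ∧ ev S (z.take n) = (ζ F.u0)⁻¹ * ζ i) ∧
      (∀ i, F.u0 ≤ i → i ≤ F.u1 → 0 ≤ F.V w t i ∧
        ev S (z.take (F.V w t i).toNat) = (ζ F.u0)⁻¹ * ζ i ∧
        ev S (z.take (F.U w t i).toNat) = (ζ F.u0)⁻¹ * ζ i) := by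
  obtain ⟨n, hn⟩ : ∃ n : ℕ, F.u0 + (n : ℤ) = F.u1 := ⟨(F.u1 - F.u0).toNat, by omega⟩
  obtain ⟨z, hz1, hz2, hz3⟩ := bounce hS.1 (fun i : ℕ => ζ (F.u0 + i)) n
    (by
      intro i hi
      have := hp (F.u0 + i) (by omega) (by omega)
      have h2 := mem_of_d_eq_one this
      simpa [add_assoc] using h2)
    (fun e => (F.bnc w t (F.u0 + 1 + e)).toNat)
  have hV := wf_V hb h0
  have hU := wf_U hb h0 hn
  have key : ∀ n : ℕ, n ≤ z.length → ∃ i, F.u0 ≤ i ∧ i ≤ F.u1 ∧ F.V w t i ≤ n ∧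
        (n : ℤ) ≤ F.U w t i ∧ ev S (z.take n) = (ζ F.u0)⁻¹ * ζ i := by
    intro k hk
    obtain ⟨i, h1, h2, h3, h4⟩ := hz2 k hk
    refine ⟨F.u0 + i, by omega, by omega, ?_, ?_, ?_⟩
    · rw [← hV i]; exact_mod_cast h2
    · rw [← hU i h1]; exact_mod_cast h3
    · simpa using h4
  refine ⟨z, ?_, ?_, key, ?_⟩
  · intro u hu'
    obtain ⟨s, s', hs⟩ := hu'
    obtain ⟨i, hi1, hi2, hi3, hi4, hi5⟩ := key s.length (by rw [← hs]; simp)
    obtain ⟨j, hj1, hj2, hj3, hj4, hj5⟩ := key (s.length + u.length) (by rw [← hs]; simp)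
    have e1 : z.take s.length = s := by
      rw [← hs, List.append_assoc]; simp
    have e2 : z.take (s.length + u.length) = s ++ u := by
      rw [← hs, ← List.length_append, List.take_left']
      rfl
    rw [e1] at hi5
    rw [e2, ev_append, hi5] at hj5
    have e3 : ev S u = (ζ i)⁻¹ * ζ j := by
      rw [mul_assoc] at hj5
      have := mul_left_cancel hj5
      rw [← this]; group
    have e4 : (wordMet S hS).d (ζ i) (ζ j) = (wordLength S (ev S u) : ℤ) := by
      rw [wordMet_d, e3]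
    have main : (u.length : ℤ) ≤ 5 * K * (wordLength S (ev S u) : ℤ) + (5 * K + 8) := by
      rcases le_or_gt i j with hij | hij
      · have h1 := hm i j hi1 hij hj2
        rw [e4] at h1
        push_cast at hj4 hi3
        linarith
      · have h1 : F.V w t i = F.Tm w t (i - 1) + 1 := by
          simp only [FamPar.V]; rw [if_neg (by omega)]
        have h2 : F.U w t j = F.Tm w t (j + 1) - 1 := by
          simp only [FamPar.U]; rw [if_neg (by omega)]
        have h3 : i = j + 1 := by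
          by_contra hne
          obtain ⟨k, hk⟩ : ∃ k : ℕ, j + 1 + (k : ℤ) = i - 1 := ⟨(i - 1 - (j + 1)).toNat, by omega⟩
          have h4 := wf_mono hb (j + 1) k
          rw [hk] at h4
          push_cast at hj4 hi3
          omega
        have h5 : F.Tm w t (j + 1) - F.Tm w t j ≤ 5 := by
          have h6 := (hb (j + 1)).2
          simp only [FamPar.bnc] at h6
          rw [show j + 1 - 1 = j by ring] at h6
          simp only [FamPar.Tm]
          omega
        rw [h3, show j + 1 - 1 = j by ring] at h1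
        rw [h3] at hi3
        push_cast at hj4
        have h7 : 0 ≤ 5 * K * (wordLength S (ev S u) : ℤ) := by positivity
        linarith
    have main2 : ((u.length : ℤ) : ℝ) ≤
        ((5 * K * (wordLength S (ev S u) : ℤ) + (5 * K + 8) : ℤ) : ℝ) := by exact_mod_cast main
    push_cast at main2 ⊢
    linarith
  · rw [hz1]
    rw [wf_bT hb h0 n]
    simp only [FamPar.U]
    rw [if_pos (le_refl _), hn]
  · intro i hi hi'
    obtain ⟨k, hk⟩ : ∃ k : ℕ, F.u0 + (k : ℤ) = i := ⟨(i - F.u0).toNat, by omega⟩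
    have hkn : k ≤ n := by omega
    obtain ⟨h1, h2⟩ := hz3 k hkn
    subst hk
    rw [← hV k, ← hU k hkn]
    refine ⟨by positivity, ?_, ?_⟩
    · simpa using h1
    · simpa using h2

end Pool.Agent.H.MP_21aec1_al.Hy
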